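import Pool.Agent.Lib.MP_cfac74_al.Ch.Tot

/-!
# MP_cfac74_al : the chain theorem
-/

set_option autoImplicit false
set_option linter.unusedSectionVars false

namespace Pool.Agent.Lib.MP_cfac74_al.Ch

open Finset Pool.Agent.Lib.MP_cfac74_al.Dec

section

variable {V L J : Type} [AddCommGroup V] [AddCommGroup L] [Fintype V] [Fintype L]
  [Module (ZMod 3) L] [Fintype J]

theorem card_VV (V : Type) [Fintype V] (s : ℕ) :
    Nat.card (VV V s) = Nat.card V * 81 ^ s := by
  rw [Nat.card_prod, Nat.card_prod, Nat.card_prod, Nat.card_fun, Nat.card_fun, Nat.card_prod,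
    Nat.card_zmod, Nat.card_eq_fintype_card (α := Fin s), Fintype.card_fin]
  have : (81 : ℕ) ^ s = (3 * 3) ^ s * (3 ^ s * 3 ^ s) := by
    rw [← mul_pow, ← mul_pow]; norm_num
  rw [this]

/-- the decoration functional of the plane `i` -/
def planeHom (V : Type) [AddCommGroup V] (s : ℕ) (i : Fin s) : VV V s →+ ZMod 3 :=
  AddMonoidHom.mk' (fun x => (x.2.1 i).1) (fun _ _ => rfl)

theorem sum_cc_eq {s : ℕ} (ω : L → V → V → ZMod 3)
    (hL : ∀ a a' x y, ω (a + a') x y = ω a x y + ω a' x y)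
    (β : ℕ → V →+ ZMod 3) (βC : ℕ → ℕ → ZMod 3 × ZMod 3)
    (b b' : V →+ ZMod 3) (γ γ' : ℕ → ZMod 3 × ZMod 3) (W : VV V s × VV V s → ℂ) :
    ∑ A : LL L s, ∑ q : VV V s × VV V s,
      ((cc (OM ω β βC b b' γ γ' A q.1 q.2) : ℤ) : ℂ) * W q =
    2 * ∑ A : LL L s, ∑ q : VV V s × VV V s, W q * psi (OM ω β βC b b' γ γ' A q.1 q.2) := by
  have hneg : ∀ (A : LL L s) (x y : VV V s), OM ω β βC b b' γ γ' (-A) x y =
      - OM ω β βC b b' γ γ' A x y := by
    intro A x y
    have h0 : OM ω β βC b b' γ γ' (0 : LL L s) x y = 0 := by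
      have := OM_addA (β := β) (βC := βC) (b := b) (b' := b') (γ := γ) (γ' := γ') hL
        (0 : LL L s) 0 x y
      rw [add_zero] at this
      simpa using this
    have := OM_addA (β := β) (βC := βC) (b := b) (b' := b') (γ := γ) (γ' := γ') hL A (-A) x y
    rw [add_neg_cancel, h0] at this
    exact (neg_eq_of_add_eq_zero_right this.symm).symm
  have h1 : ∑ A : LL L s, ∑ q : VV V s × VV V s,
      W q * psi (-(OM ω β βC b b' γ γ' A q.1 q.2)) =
      ∑ A : LL L s, ∑ q : VV V s × VV V s, W q * psi (OM ω β βC b b' γ γ' A q.1 q.2) := by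
    rw [← Equiv.sum_comp (Equiv.neg (LL L s))]
    refine Finset.sum_congr rfl fun A _ => Finset.sum_congr rfl fun q _ => ?_
    rw [Equiv.neg_apply, hneg, neg_neg]
  calc _ = ∑ A : LL L s, ∑ q : VV V s × VV V s,
        (W q * psi (OM ω β βC b b' γ γ' A q.1 q.2) +
          W q * psi (-(OM ω β βC b b' γ γ' A q.1 q.2))) := by
        refine Finset.sum_congr rfl fun A _ => Finset.sum_congr rfl fun q _ => ?_
        rw [cc_eq]; ring
    _ = _ := by
        simp_rw [Finset.sum_add_distrib]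
        rw [h1]; ring

/-- **Chain theorem.** -/
theorem chain_raw (hV3 : Odd (Nat.card V))
    (ω : L → V → V → ZMod 3)
    (hL : ∀ a a' x y, ω (a + a') x y = ω a x y + ω a' x y)
    (hx : ∀ a x x' y, ω a (x + x') y = ω a x y + ω a x' y)
    (halt : ∀ a x y, ω a x y = - ω a y x)
    (f : J → V →+ ZMod 3) (k3 : J → Bool) (m : J → ℕ) (hm : ∀ j, Nm (m j))
    (h1 : ∀ j, k3 j = false → m j % 3 = 1)
    (s : ℕ) (hs : 0 < s) (M : ℕ → ℕ) (hM : ∀ i, i < s → Nm (M i)) (hM1 : ∀ i, i < s → M i % 3 = 1)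
    (β : ℕ → V →+ ZMod 3) (βC : ℕ → ℕ → ZMod 3 × ZMod 3)
    (b b' : V →+ ZMod 3) (c c' : ℕ → ZMod 3 × ZMod 3) :
    ∃ (G : Type) (_ : Group G) (_ : Finite G), Odd (Nat.card G) ∧ (∃ x y : G, x * y ≠ y * x) ∧
      9 * (Nat.card (ConjClasses G) : ℂ) =
        3 ^ (Finset.univ.filter (fun j => k3 j = true)).card *
          (9 * KK (hV ω f m) M β βC s + 2 * NT (hV ω f m) M b b' c c' s) := by
  classical
  have hVV : Odd (Nat.card (VV V s)) := by
    rw [card_VV]
    exact hV3.mul (Odd.pow (by decide))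
  obtain ⟨G, g1, g2, g3, g4, g5⟩ := exists_group_forms (V := VV V s) (L := LL L s)
    (J := J ⊕ Fin s) hVV (OM ω β βC b b' c c')
    (fun A A' x y => OM_addA hL A A' x y) (fun A x x' y => OM_addX hx A x x' y)
    (fun A x y => OM_antisymm halt A x y)
    (Sum.elim (fun j => (f j).comp (AddMonoidHom.fst V _)) (fun i => planeHom V s i))
    (Sum.elim k3 (fun _ => false)) (Sum.elim m (fun i => M i))
    (by rintro (j | i)
        · exact hm j
        · exact hM i i.2)
    (by rintro (j | i) h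
        · exact h1 j h
        · exact hM1 i i.2)
  refine ⟨G, g1, g2, g3, ?_, ?_⟩
  · -- non-abelian
    apply g4
    left
    let i0 : Fin s := ⟨0, hs⟩
    refine ⟨(0, (Pi.single i0 1, 0)), (0, (Pi.single i0 (1, 0), (0, 0))),
      (0, (Pi.single i0 (0, 1), (0, 0))), ?_⟩
    have hz : ω 0 0 0 = 0 := by
      have := hL 0 0 (0 : V) 0
      rw [add_zero] at this
      simpa using this
    have e0 : ∀ l, kap (Pi.single i0 1 : Fin s → ZMod 3) 0 0 l = 0 := by
      intro l
      unfold kap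
      exact Finset.sum_eq_zero fun j _ => by rw [Pi.zero_apply, mul_zero]
    unfold OM
    simp only [Pi.zero_apply, mul_zero, sub_self, Finset.sum_const_zero, add_zero, e0, zero_mul,
      hz, zero_add]
    rw [Finset.sum_eq_single i0]
    · simp [J2]
    · intro j _ hj
      rw [Pi.single_eq_of_ne hj, zero_mul]
    · intro h; exact absurd (Finset.mem_univ _) h
  · have hk : (Finset.univ.filter (fun j : J ⊕ Fin s =>
        (Sum.elim k3 (fun _ => false) : J ⊕ Fin s → Bool) j = true)).card =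
        (Finset.univ.filter (fun j => k3 j = true)).card := by
      rw [← Finset.card_map (Function.Embedding.inl : J ↪ J ⊕ Fin s)]
      congr 1
      ext j
      rcases j with j | i
      · simp
      · simp
    have g6 := congrArg (Int.cast : ℤ → ℂ) g5
    push_cast at g6
    rw [hk] at g6
    have h2 : ∑ A : LL L s, ∑ q : VV V s × VV V s,
        ((cc (OM ω β βC b b' c c' A q.1 q.2) : ℤ) : ℂ) *
          (wt f m q.1.1 q.2.1 * pw M q.1.2.1 q.2.2.1) =
        2 * ((Fintype.card V : ℂ) * 81 ^ s * (KK (hV ω f m) M β βC s +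
          2 / 9 * NT (hV ω f m) M b b' c c' s)) := by
      rw [sum_cc_eq ω hL, total_eq_TOT]
      have h3 : ∑ e : ZMod 3, TOT ω β βC b b' c c' f m M s e =
          TOT ω β βC b b' c c' f m M s 0 + TOT ω β βC b b' c c' f m M s 1 +
          TOT ω β βC b b' c c' f m M s 2 :=
        Fin.sum_univ_three (fun e : ZMod 3 => TOT ω β βC b b' c c' f m M s e)
      rw [h3, TOT_two hL halt, TOT_zero, TOT_one]
      ring
    have h4 : ∀ q : VV V s × VV V s, (∏ j : J ⊕ Fin s,
        (if (Sum.elim (fun j => (f j).comp (AddMonoidHom.fst V _)) (fun i => planeHom V s i) :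
            J ⊕ Fin s → VV V s →+ ZMod 3) j q.1 = 0 ∧
          (Sum.elim (fun j => (f j).comp (AddMonoidHom.fst V _)) (fun i => planeHom V s i) :
            J ⊕ Fin s → VV V s →+ ZMod 3) j q.2 = 0 then
          (((Sum.elim m (fun i => M i) : J ⊕ Fin s → ℕ) j : ℕ) : ℂ) else 1)) =
        wt f m q.1.1 q.2.1 * pw M q.1.2.1 q.2.2.1 := by
      intro q
      rw [Fintype.prod_sum_type]
      rfl
    have h5 : (Nat.card (VV V s) : ℂ) = (Fintype.card V : ℂ) * 81 ^ s := by
      rw [card_VV, Nat.card_eq_fintype_card]; push_cast; rfl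
    have hcard : (Fintype.card V : ℂ) * 81 ^ s ≠ 0 := by
      have : Nonempty V := ⟨0⟩
      have h6 : (Fintype.card V : ℂ) ≠ 0 := by exact_mod_cast Fintype.card_ne_zero
      exact mul_ne_zero h6 (pow_ne_zero _ (by norm_num))
    have h7 : 2 * (Nat.card (VV V s) : ℂ) * (Nat.card (ConjClasses G) : ℂ) =
        3 ^ (Finset.univ.filter (fun j => k3 j = true)).card *
        ∑ A : LL L s, ∑ q : VV V s × VV V s,
        ((cc (OM ω β βC b b' c c' A q.1 q.2) : ℤ) : ℂ) *
          (wt f m q.1.1 q.2.1 * pw M q.1.2.1 q.2.2.1) := by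
      rw [g6]
      congr 1
      refine Finset.sum_congr rfl fun A _ => Finset.sum_congr rfl fun q _ => ?_
      rw [← h4 q]
    rw [h2, h5] at h7
    apply mul_left_cancel₀ hcard
    linear_combination (9 / 2 : ℂ) * h7

end

end Pool.Agent.Lib.MP_cfac74_al.Ch
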