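import Pool.Agent.Lib.MP_cfac74_al.Ch.Orbit

/-!
# MP_cfac74_al : the spectral function of a core in coordinates
-/

set_option autoImplicit false
set_option linter.unusedSectionVars false

namespace Pool.Agent.Lib.MP_cfac74_al.Ch

open Finset Pool.Agent.Lib.MP_cfac74_al.Dec

section

variable {L : Type} [AddCommGroup L] [Fintype L] [Module (ZMod 3) L] {n : ℕ}

/-- the functional `v ↦ x · v` -/
def dotH (x : Fin n → ZMod 3) : (Fin n → ZMod 3) →+ ZMod 3 :=
  AddMonoidHom.mk' (fun v => ∑ j, x j * v j) (fun v v' => by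
    rw [← Finset.sum_add_distrib]
    exact Finset.sum_congr rfl fun j _ => by rw [Pi.add_apply, mul_add])

theorem dotH_apply (x v : Fin n → ZMod 3) : dotH x v = ∑ j, x j * v j := rfl

/-- coordinate functional -/
def coordH (n : ℕ) (j : Fin n) : (Fin n → ZMod 3) →+ ZMod 3 :=
  AddMonoidHom.mk' (fun v => v j) (fun _ _ => rfl)

/-- local factor -/
def gg (k : ℕ) (v c : ZMod 3) : ℤ := (if c = 0 then 1 else 0) + (if v = 0 then (k : ℤ) else 0)

theorem sum_gg (k : ℕ) (v c : ZMod 3) :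
    ∑ y : ZMod 3, (if v = 0 ∧ y = 0 then ((3 * k + 1 : ℕ) : ℂ) else 1) * psi (c * y) =
      3 * ((gg k v c : ℤ) : ℂ) := by
  have h1 : ∀ y : ZMod 3, (if v = 0 ∧ y = 0 then ((3 * k + 1 : ℕ) : ℂ) else 1) * psi (c * y) =
      psi (c * y) + (if y = 0 then (if v = 0 then (3 * k : ℂ) else 0) else 0) := by
    intro y
    by_cases hv : v = 0 <;> by_cases hy : y = 0
    · rw [if_pos ⟨hv, hy⟩, if_pos hy, if_pos hv, hy, mul_zero, psi_zero]; push_cast; ring
    · rw [if_neg (fun h => hy h.2), if_neg hy]; ring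
    · rw [if_neg (fun h => hv h.1), if_pos hy, if_neg hv]; ring
    · rw [if_neg (fun h => hv h.1), if_neg hy]; ring
  rw [Finset.sum_congr rfl fun y _ => h1 y, Finset.sum_add_distrib, sum_psi,
    Finset.sum_ite_eq' Finset.univ (0 : ZMod 3) (fun _ => (if v = 0 then (3 * k : ℂ) else 0)),
    if_pos (Finset.mem_univ _)]
  unfold gg
  push_cast
  split_ifs <;> ring

/-- additive functions on `F^n` in coordinates -/
theorem hom_coord (g : (Fin n → ZMod 3) →+ ZMod 3) (v : Fin n → ZMod 3) :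
    g v = ∑ j, g (Pi.single j 1) * v j := by
  have h1 : v = ∑ j, v j • (Pi.single j (1 : ZMod 3) : Fin n → ZMod 3) := by
    funext i
    rw [Finset.sum_apply, Finset.sum_eq_single i]
    · simp
    · intro j _ hj
      simp [Pi.single_eq_of_ne hj.symm]
    · intro h; exact absurd (Finset.mem_univ _) h
  conv_lhs => rw [h1]
  rw [map_sum]
  refine Finset.sum_congr rfl fun j _ => ?_
  rw [smul_hom, mul_comm]

/-- **The spectral function of a core in coordinates.** -/
theorem hV_coord (ω : L → (Fin n → ZMod 3) → (Fin n → ZMod 3) → ZMod 3)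
    (hx : ∀ a x x' y, ω a (x + x') y = ω a x y + ω a x' y)
    (halt : ∀ a x y, ω a x y = - ω a y x) (k : Fin n → ℕ) (x x' : Fin n → ZMod 3) :
    hV ω (coordH n) (fun j => 3 * k j + 1) (dotH x) (dotH x') =
      ∑ a : L, ∑ v : Fin n → ZMod 3, psi (∑ j, x j * v j) *
        ((∏ j, gg (k j) (v j) (ω a v (Pi.single j 1) + x' j) : ℤ) : ℂ) := by
  classical
  have hcard : (Fintype.card (Fin n → ZMod 3) : ℂ) = 3 ^ n := by
    rw [Fintype.card_fun, ZMod.card, Fintype.card_fin]; push_cast; rfl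
  have h3 : (3 : ℂ) ^ n ≠ 0 := pow_ne_zero _ (by norm_num)
  rw [hV, hcard, div_eq_iff h3, Finset.sum_mul]
  refine Finset.sum_congr rfl fun a _ => ?_
  rw [Finset.sum_mul]
  refine Finset.sum_congr rfl fun v _ => ?_
  have hy : ∀ y y', ω a v (y + y') = ω a v y + ω a v y' := by
    intro y y'
    rw [halt, hx, halt a y v, halt a y' v]; ring
  set cf : Fin n → ZMod 3 := fun j => ω a v (Pi.single j 1) + x' j with hcf
  have e1 : ∀ v' : Fin n → ZMod 3, ω a v v' + dotH x' v' = ∑ j, cf j * v' j := by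
    intro v'
    have h4 := hom_coord (AddMonoidHom.mk' (fun y => ω a v y) hy) v'
    have h5 : ω a v v' = ∑ j, ω a v (Pi.single j 1) * v' j := h4
    rw [h5, dotH_apply, ← Finset.sum_add_distrib]
    exact Finset.sum_congr rfl fun j _ => by rw [hcf]; ring
  have e2 : ∀ v' : Fin n → ZMod 3, wt (coordH n) (fun j => 3 * k j + 1) v v' *
      psi (ω a v v' + dotH x v + dotH x' v') =
      psi (∑ j, x j * v j) * ∏ j, ((if v j = 0 ∧ v' j = 0 then ((3 * k j + 1 : ℕ) : ℂ) else 1) *
        psi (cf j * v' j)) := by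
    intro v'
    have h6 : ω a v v' + dotH x v + dotH x' v' = dotH x v + (ω a v v' + dotH x' v') := by ring
    rw [h6, psi_add, e1, psi_sum, Finset.prod_mul_distrib, dotH_apply]
    unfold wt
    have h7 : ∀ j, (if (coordH n j) v = 0 ∧ (coordH n j) v' = 0 then
        (((fun j => 3 * k j + 1 : Fin n → ℕ) j : ℕ) : ℂ) else 1) =
        (if v j = 0 ∧ v' j = 0 then ((3 * k j + 1 : ℕ) : ℂ) else 1) := fun j => rfl
    rw [Finset.prod_congr rfl fun j _ => h7 j]
    ring
  rw [Finset.sum_congr rfl fun v' _ => e2 v', ← Finset.mul_sum, mul_assoc]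
  congr 1
  have e3 : ∑ v' : Fin n → ZMod 3, ∏ j, ((if v j = 0 ∧ v' j = 0 then
      ((3 * k j + 1 : ℕ) : ℂ) else 1) * psi (cf j * v' j)) =
      ∏ j, ∑ y : ZMod 3, ((if v j = 0 ∧ y = 0 then ((3 * k j + 1 : ℕ) : ℂ) else 1) *
        psi (cf j * y)) := by
    rw [Finset.prod_univ_sum, Fintype.piFinset_univ]
  rw [e3, Finset.prod_congr rfl fun j _ => sum_gg (k j) (v j) (cf j), Finset.prod_mul_distrib,
    Finset.prod_const, Finset.card_univ, Fintype.card_fin]
  push_cast
  ring

/-- the integer sum -/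
def hZ (ω : L → (Fin n → ZMod 3) → (Fin n → ZMod 3) → ZMod 3) (k : Fin n → ℕ)
    (x x' : Fin n → ZMod 3) : ℤ :=
  ∑ a : L, ∑ v : Fin n → ZMod 3, cc (∑ j, x j * v j) *
    ∏ j, gg (k j) (v j) (ω a v (Pi.single j 1) + x' j)

theorem gg_neg (k : ℕ) (v c : ZMod 3) : gg k (-v) c = gg k v c := by
  unfold gg; rw [if_congr neg_eq_zero rfl rfl]

/-- **integer version** -/
theorem hV_int (ω : L → (Fin n → ZMod 3) → (Fin n → ZMod 3) → ZMod 3)
    (hL : ∀ a a' x y, ω (a + a') x y = ω a x y + ω a' x y)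
    (hx : ∀ a x x' y, ω a (x + x') y = ω a x y + ω a x' y)
    (halt : ∀ a x y, ω a x y = - ω a y x) (k : Fin n → ℕ) (x x' : Fin n → ZMod 3) :
    2 * hV ω (coordH n) (fun j => 3 * k j + 1) (dotH x) (dotH x') =
      ((hZ ω k x x' : ℤ) : ℂ) := by
  have hnegL : ∀ a x y, ω (-a) x y = - ω a x y := by
    intro a x y
    have h0 : ω 0 x y = 0 := by
      have := hL 0 0 x y
      rw [add_zero] at this
      simpa using this
    have := hL a (-a) x y
    rw [add_neg_cancel, h0] at this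
    exact (neg_eq_of_add_eq_zero_right this.symm).symm
  have hnegX : ∀ a x y, ω a (-x) y = - ω a x y := by
    intro a x y
    have h0 : ω a 0 y = 0 := by
      have := hx a 0 0 y
      rw [add_zero] at this
      simpa using this
    have := hx a x (-x) y
    rw [add_neg_cancel, h0] at this
    exact (neg_eq_of_add_eq_zero_right this.symm).symm
  rw [hV_coord ω hx halt k x x']
  have h1 : ∑ a : L, ∑ v : Fin n → ZMod 3, psi (∑ j, x j * v j) *
        ((∏ j, gg (k j) (v j) (ω a v (Pi.single j 1) + x' j) : ℤ) : ℂ) =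
      ∑ a : L, ∑ v : Fin n → ZMod 3, psi (-(∑ j, x j * v j)) *
        ((∏ j, gg (k j) (v j) (ω a v (Pi.single j 1) + x' j) : ℤ) : ℂ) := by
    rw [← Equiv.sum_comp (Equiv.neg L)]
    refine Finset.sum_congr rfl fun a _ => ?_
    rw [← Equiv.sum_comp (Equiv.neg (Fin n → ZMod 3))]
    refine Finset.sum_congr rfl fun v _ => ?_
    have e1 : ∑ j, x j * (Equiv.neg (Fin n → ZMod 3)) v j = -(∑ j, x j * v j) := by
      rw [← Finset.sum_neg_distrib]
      refine Finset.sum_congr rfl fun j _ => ?_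
      rw [Equiv.neg_apply, Pi.neg_apply]; ring
    rw [e1]
    congr 2
    refine Finset.prod_congr rfl fun j _ => ?_
    rw [Equiv.neg_apply, Equiv.neg_apply, hnegL, hnegX, neg_neg, Pi.neg_apply, gg_neg]
  rw [two_mul]
  conv_lhs => enter [2]; rw [h1]
  rw [← Finset.sum_add_distrib, hZ]
  push_cast
  refine Finset.sum_congr rfl fun a _ => ?_
  rw [← Finset.sum_add_distrib]
  refine Finset.sum_congr rfl fun v _ => ?_
  rw [cc_eq]; ring

end

end Pool.Agent.Lib.MP_cfac74_al.Ch
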