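import Pool.Agent.Lib.MP_cfac74_al.Dec.Main

/-!
# MP_cfac74_al : the chain theorem (definitions)

`F = ZMod 3`, `psi x = ζ ^ x`.
Core: `V`, space of alternating forms `ω : L → V → V → F`, decorations `(f j, m j)`.
-/

set_option autoImplicit false

namespace Pool.Agent.Lib.MP_cfac74_al.Ch

open Finset Pool.Agent.Lib.MP_cfac74_al.Dec

/-- additive character of `ZMod 3` -/
noncomputable def psi (x : ZMod 3) : ℂ := ZMod.stdAddChar x

def J2 (p q : ZMod 3 × ZMod 3) : ZMod 3 := p.1 * q.2 - p.2 * q.1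

/-- spectral function of a decorated plane (one form `J2`, decoration `c ↦ c.1` with parameter `M`);
`p`, `q` = coefficient vectors of two functionals -/
noncomputable def hC (M : ℕ) (p q : ZMod 3 × ZMod 3) : ℂ :=
  (∑ a : ZMod 3, ∑ c : ZMod 3 × ZMod 3, ∑ d : ZMod 3 × ZMod 3,
    (if c.1 = 0 ∧ d.1 = 0 then (M : ℂ) else 1) *
      psi (a * J2 c d + (p.1 * c.1 + p.2 * c.2) + (q.1 * d.1 + q.2 * d.2))) / 9

section

variable {V L J : Type} [AddCommGroup V] [AddCommGroup L] [Fintype V] [Fintype L]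
  [Module (ZMod 3) L] [Fintype J]

/-- weight of the decorations -/
noncomputable def wt (f : J → V →+ ZMod 3) (m : J → ℕ) (v v' : V) : ℂ :=
  ∏ j, (if f j v = 0 ∧ f j v' = 0 then (m j : ℂ) else 1)

/-- spectral function of the core -/
noncomputable def hV (ω : L → V → V → ZMod 3) (f : J → V →+ ZMod 3) (m : J → ℕ)
    (x x' : V →+ ZMod 3) : ℂ :=
  (∑ a : L, ∑ v : V, ∑ v' : V, wt f m v v' * psi (ω a v v' + x v + x' v')) / Fintype.card V

/-- `N_i` -/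
noncomputable def NN (H : (V →+ ZMod 3) → (V →+ ZMod 3) → ℂ) (M : ℕ → ℕ) (β : V →+ ZMod 3)
    (βC : ℕ → ZMod 3 × ZMod 3) (i : ℕ) : ℂ :=
  ∑ u : ZMod 3, ∑ u' : ZMod 3, H (u • β) (u' • β) *
    ∏ j ∈ range i, hC (M j) (u • βC j) (u' • βC j)

/-- the chain `K_0 = T0`, `K_{i+1} = 9 (M_i + 8) K_i + 2 M_i N_i` -/
noncomputable def KK (H : (V →+ ZMod 3) → (V →+ ZMod 3) → ℂ) (M : ℕ → ℕ) (β : ℕ → V →+ ZMod 3)
    (βC : ℕ → ℕ → ZMod 3 × ZMod 3) : ℕ → ℂ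
  | 0 => H 0 0
  | i + 1 => 9 * ((M i : ℂ) + 8) * KK H M β βC i + 2 * (M i : ℂ) * NN H M (β i) (βC i) i

/-- `N'` (the top generator) -/
noncomputable def NT (H : (V →+ ZMod 3) → (V →+ ZMod 3) → ℂ) (M : ℕ → ℕ) (b b' : V →+ ZMod 3)
    (c c' : ℕ → ZMod 3 × ZMod 3) (s : ℕ) : ℂ :=
  ∑ p : ZMod 3 × ZMod 3, ∑ q : ZMod 3 × ZMod 3,
    psi (-(J2 p q)) * H (p.1 • b + p.2 • b') (q.1 • b + q.2 • b') *
      ∏ j ∈ range s, hC (M j) (p.1 • c j + p.2 • c' j) (q.1 • c j + q.2 • c' j)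

end

end Pool.Agent.Lib.MP_cfac74_al.Ch
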