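import Mathlib

/-!
# MP_cfac74_al : enumeration of `F^n` with digit codes (fast in the kernel)
-/

set_option autoImplicit false

namespace Pool.Agent.Lib.MP_cfac74_al.Ch

open Finset

/-- `1` if `x = 0`, else `0` -/
def isz (x : ℕ) : ℕ := Nat.rec (motive := fun _ => ℕ) 1 (fun _ _ => 0) x

theorem isz_eq (x : ℕ) : isz x = if x = 0 then 1 else 0 := by
  cases x <;> rfl

/-- `z` if `x = 0`, else `0` -/
def ifz (x z : ℕ) : ℕ := Nat.rec (motive := fun _ => ℕ) z (fun _ _ => 0) x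

theorem ifz_eq (x z : ℕ) : ifz x z = if x = 0 then z else 0 := by
  cases x <;> rfl

/-- the weight of a vector with code `v` and form vector with code `c` -/
noncomputable def wgt (zs : List ℕ) : ℕ → ℕ → ℕ :=
  List.rec (motive := fun _ => ℕ → ℕ → ℕ) (fun _ _ => 1)
    (fun z _ ih c v => Nat.rec (motive := fun _ => ℕ) 0
      (fun g _ => Nat.mul (Nat.succ g) (ih (Nat.div c 32) (Nat.div v 32)))
      (Nat.add (isz (Nat.mod (Nat.mod c 32) 3)) (ifz (Nat.mod v 32) z))) zs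

theorem wgt_nil (c v : ℕ) : wgt [] c v = 1 := rfl

theorem wgt_cons (z : ℕ) (zs : List ℕ) (c v : ℕ) :
    wgt (z :: zs) c v = ((if c % 32 % 3 = 0 then 1 else 0) + (if v % 32 = 0 then z else 0)) *
      wgt zs (c / 32) (v / 32) := by
  have h : wgt (z :: zs) c v = Nat.rec (motive := fun _ => ℕ) 0
      (fun g _ => Nat.mul (Nat.succ g) (wgt zs (Nat.div c 32) (Nat.div v 32)))
      (Nat.add (isz (Nat.mod (Nat.mod c 32) 3)) (ifz (Nat.mod v 32) z)) := rfl
  have h2 : Nat.add (isz (Nat.mod (Nat.mod c 32) 3)) (ifz (Nat.mod v 32) z) =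
      (if c % 32 % 3 = 0 then 1 else 0) + (if v % 32 = 0 then z else 0) := by
    rw [isz_eq, ifz_eq]; rfl
  rw [h, h2]
  generalize (if c % 32 % 3 = 0 then 1 else 0) + (if v % 32 = 0 then z else 0) = g
  cases g with
  | zero => simp
  | succ g => rfl

/-- enumeration of all vectors: the list of all `(v, weight)` of nonzero weight -/
noncomputable def go (zs rows : List ℕ) : ℕ → ℕ → List (ℕ × ℕ) → List (ℕ × ℕ) :=
  List.rec (motive := fun _ => ℕ → ℕ → List (ℕ × ℕ) → List (ℕ × ℕ))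
    (fun c v acc => Nat.rec (motive := fun _ => List (ℕ × ℕ)) acc
      (fun w _ => (v, Nat.succ w) :: acc) (wgt zs c v))
    (fun r _ ih c v acc => ih c (Nat.mul v 32) (ih (Nat.add c r) (Nat.add (Nat.mul v 32) 1)
      (ih (Nat.add c (Nat.add r r)) (Nat.add (Nat.mul v 32) 2) acc))) rows

/-- weighted sum over the list -/
def lsum (F : ℕ → ℤ) (l : List (ℕ × ℕ)) : ℤ := (l.map (fun p => F p.1 * (p.2 : ℤ))).sum

theorem lsum_cons (F : ℕ → ℤ) (p : ℕ × ℕ) (l : List (ℕ × ℕ)) :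
    lsum F (p :: l) = F p.1 * (p.2 : ℤ) + lsum F l := by
  unfold lsum; rw [List.map_cons, List.sum_cons]

/-- the row codes, last row first -/
def rowsL (r : ℕ → ℕ) : ℕ → List ℕ
  | 0 => []
  | m + 1 => r m :: rowsL r m

theorem sum_zmod3 (g : ZMod 3 → ℤ) : ∑ x : ZMod 3, g x = g 0 + g 1 + g 2 :=
  Fin.sum_univ_three g

theorem sum_snoc (m : ℕ) (f : (Fin (m + 1) → ZMod 3) → ℤ) :
    ∑ u : Fin (m + 1) → ZMod 3, f u =
      ∑ d : ZMod 3, ∑ u : Fin m → ZMod 3, f (Fin.snoc (α := fun _ => ZMod 3) u d) := by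
  rw [← Equiv.sum_comp (Fin.snocEquiv (fun _ : Fin (m + 1) => ZMod 3)), Fintype.sum_prod_type]
  rfl

theorem go_sum (zs : List ℕ) (r : ℕ → ℕ) (F : ℕ → ℤ) (m : ℕ) : ∀ (c v : ℕ)
    (acc : List (ℕ × ℕ)), lsum F (go zs (rowsL r m) c v acc) = lsum F acc +
      ∑ u : Fin m → ZMod 3, F (32 ^ m * v + ∑ i, (u i).val * 32 ^ (i : ℕ)) *
        (wgt zs (c + ∑ i, (u i).val * r i) (32 ^ m * v + ∑ i, (u i).val * 32 ^ (i : ℕ)) : ℤ) := by
  induction m with
  | zero =>
    intro c v acc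
    have h : go zs (rowsL r 0) c v acc = Nat.rec (motive := fun _ => List (ℕ × ℕ)) acc
      (fun w _ => (v, Nat.succ w) :: acc) (wgt zs c v) := rfl
    rw [h, Fintype.sum_unique]
    simp only [Finset.univ_eq_empty, Finset.sum_empty, add_zero, pow_zero, one_mul]
    generalize wgt zs c v = g
    cases g with
    | zero => simp
    | succ g =>
      change lsum F ((v, Nat.succ g) :: acc) = _
      rw [lsum_cons, add_comm]
  | succ m ih =>
    intro c v acc
    have h : go zs (rowsL r (m + 1)) c v acc =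
        go zs (rowsL r m) c (v * 32) (go zs (rowsL r m) (c + r m) (v * 32 + 1)
          (go zs (rowsL r m) (c + (r m + r m)) (v * 32 + 2) acc)) := rfl
    rw [h, ih, ih, ih, sum_snoc, sum_zmod3]
    have e : ∀ (d : ZMod 3) (c' v' : ℕ), c' = c + d.val * r m → v' = v * 32 + d.val →
        ∑ u : Fin m → ZMod 3, F (32 ^ m * v' + ∑ i, (u i).val * 32 ^ (i : ℕ)) *
        (wgt zs (c' + ∑ i, (u i).val * r i) (32 ^ m * v' + ∑ i, (u i).val * 32 ^ (i : ℕ)) : ℤ) =
        ∑ u : Fin m → ZMod 3, F (32 ^ (m + 1) * v + ∑ i : Fin (m + 1),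
          ((Fin.snoc (α := fun _ => ZMod 3) u d : Fin (m + 1) → ZMod 3) i).val * 32 ^ (i : ℕ)) *
        (wgt zs (c + ∑ i : Fin (m + 1),
          ((Fin.snoc (α := fun _ => ZMod 3) u d : Fin (m + 1) → ZMod 3) i).val * r i)
          (32 ^ (m + 1) * v + ∑ i : Fin (m + 1),
          ((Fin.snoc (α := fun _ => ZMod 3) u d : Fin (m + 1) → ZMod 3) i).val *
            32 ^ (i : ℕ)) : ℤ) := by
      rintro d c' v' rfl rfl
      refine Finset.sum_congr rfl fun u _ => ?_
      have e1 : ∑ i : Fin (m + 1), ((Fin.snoc (α := fun _ => ZMod 3) u d :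
          Fin (m + 1) → ZMod 3) i).val * 32 ^ (i : ℕ) =
          (∑ i : Fin m, (u i).val * 32 ^ (i : ℕ)) + d.val * 32 ^ m := by
        rw [Fin.sum_univ_castSucc]
        congr 1
        · exact Finset.sum_congr rfl fun i _ => by rw [Fin.snoc_castSucc, Fin.val_castSucc]
        · rw [Fin.snoc_last, Fin.val_last]
      have e2 : ∑ i : Fin (m + 1), ((Fin.snoc (α := fun _ => ZMod 3) u d :
          Fin (m + 1) → ZMod 3) i).val * r i =
          (∑ i : Fin m, (u i).val * r i) + d.val * r m := by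
        rw [Fin.sum_univ_castSucc]
        congr 1
        · exact Finset.sum_congr rfl fun i _ => by rw [Fin.snoc_castSucc, Fin.val_castSucc]
        · rw [Fin.snoc_last, Fin.val_last]
      rw [e1, e2]
      have e3 : 32 ^ (m + 1) * v + ((∑ i : Fin m, (u i).val * 32 ^ (i : ℕ)) + d.val * 32 ^ m) =
          32 ^ m * (v * 32 + d.val) + ∑ i : Fin m, (u i).val * 32 ^ (i : ℕ) := by ring
      have e4 : c + ((∑ i : Fin m, (u i).val * r i) + d.val * r m) =
          c + d.val * r m + ∑ i : Fin m, (u i).val * r i := by ring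
      rw [e3, e4]
    have v0 : (0 : ZMod 3).val = 0 := rfl
    have v1 : (1 : ZMod 3).val = 1 := rfl
    have v2 : (2 : ZMod 3).val = 2 := rfl
    rw [e 0 c (v * 32) (by rw [v0]; ring) (by rw [v0]; ring),
      e 1 (c + r m) (v * 32 + 1) (by rw [v1]; ring) (by rw [v1]),
      e 2 (c + (r m + r m)) (v * 32 + 2) (by rw [v2]; ring) (by rw [v2])]
    ring

/-- the weight in terms of digits -/
theorem wgt_digits (n : ℕ) : ∀ (z D u : Fin n → ℕ), (∀ i, D i < 32) → (∀ i, u i < 32) →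
    wgt (List.ofFn z) (∑ i, D i * 32 ^ (i : ℕ)) (∑ i, u i * 32 ^ (i : ℕ)) =
      ∏ i, ((if D i % 3 = 0 then 1 else 0) + (if u i = 0 then z i else 0)) := by
  induction n with
  | zero =>
    intro z D u _ _
    rw [List.ofFn_zero, wgt_nil]; simp
  | succ n ih =>
    intro z D u hD hu
    rw [List.ofFn_succ, Fin.sum_univ_succ, Fin.sum_univ_succ, wgt_cons, Fin.prod_univ_succ]
    have e : ∀ f : Fin (n + 1) → ℕ, f 0 * 32 ^ ((0 : Fin (n + 1)) : ℕ) +
        ∑ i : Fin n, f i.succ * 32 ^ ((i.succ : Fin (n + 1)) : ℕ) =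
        f 0 + 32 * ∑ i : Fin n, f i.succ * 32 ^ (i : ℕ) := by
      intro f
      rw [Fin.val_zero, pow_zero, mul_one, Finset.mul_sum]
      congr 1
      exact Finset.sum_congr rfl fun i _ => by rw [Fin.val_succ, pow_succ]; ring
    rw [e D, e u]
    have m1 : ∀ (a b : ℕ), a < 32 → (a + 32 * b) % 32 = a := by
      intro a b h; omega
    have m2 : ∀ (a b : ℕ), a < 32 → (a + 32 * b) / 32 = b := by
      intro a b h; omega
    rw [m1 _ _ (hD 0), m1 _ _ (hu 0), m2 _ _ (hD 0), m2 _ _ (hu 0),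
      ih (fun i => z i.succ) (fun i => D i.succ) (fun i => u i.succ) (fun i => hD _)
        (fun i => hu _)]

end Pool.Agent.Lib.MP_cfac74_al.Ch
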