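import Pool.Agent.Lib.MP_cfac74_al.Ch.Coord

/-!
# MP_cfac74_al : cores with a pencil of forms on `F^n`
-/

set_option autoImplicit false
set_option linter.unusedSectionVars false

namespace Pool.Agent.Lib.MP_cfac74_al.Ch

open Finset Pool.Agent.Lib.MP_cfac74_al.Dec

section

variable {n : ℕ}

/-- the form with matrix `A` -/
def bil (A : Fin n → Fin n → ZMod 3) (x y : Fin n → ZMod 3) : ZMod 3 :=
  ∑ i, ∑ j, A i j * x i * y j

/-- the pencil of two forms -/
def om (A B : Fin n → Fin n → ZMod 3) (a : ZMod 3 × ZMod 3) (x y : Fin n → ZMod 3) : ZMod 3 :=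
  bil (fun i j => a.1 * A i j + a.2 * B i j) x y

theorem om_addL (A B : Fin n → Fin n → ZMod 3) (a a' : ZMod 3 × ZMod 3)
    (x y : Fin n → ZMod 3) : om A B (a + a') x y = om A B a x y + om A B a' x y := by
  unfold om bil
  rw [← Finset.sum_add_distrib]
  refine Finset.sum_congr rfl fun i _ => ?_
  rw [← Finset.sum_add_distrib]
  refine Finset.sum_congr rfl fun j _ => ?_
  rw [Prod.fst_add, Prod.snd_add]; ring

theorem om_addX (A B : Fin n → Fin n → ZMod 3) (a : ZMod 3 × ZMod 3)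
    (x x' y : Fin n → ZMod 3) : om A B a (x + x') y = om A B a x y + om A B a x' y := by
  unfold om bil
  rw [← Finset.sum_add_distrib]
  refine Finset.sum_congr rfl fun i _ => ?_
  rw [← Finset.sum_add_distrib]
  refine Finset.sum_congr rfl fun j _ => ?_
  rw [Pi.add_apply]; ring

theorem om_alt (A B : Fin n → Fin n → ZMod 3) (hA : ∀ i j, A i j = - A j i)
    (hB : ∀ i j, B i j = - B j i) (a : ZMod 3 × ZMod 3) (x y : Fin n → ZMod 3) :
    om A B a x y = - om A B a y x := by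
  unfold om bil
  rw [Finset.sum_comm, ← Finset.sum_neg_distrib]
  refine Finset.sum_congr rfl fun i _ => ?_
  rw [← Finset.sum_neg_distrib]
  refine Finset.sum_congr rfl fun j _ => ?_
  change (a.1 * A j i + a.2 * B j i) * x j * y i = -((a.1 * A i j + a.2 * B i j) * y i * x j)
  rw [hA i j, hB i j]; ring

/-- the vector `v A` -/
def vm (A : Fin n → Fin n → ZMod 3) (v : Fin n → ZMod 3) (j : Fin n) : ZMod 3 :=
  ∑ i, A i j * v i

theorem om_single (A B : Fin n → Fin n → ZMod 3) (a : ZMod 3 × ZMod 3) (v : Fin n → ZMod 3)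
    (j : Fin n) :
    om A B a v (Pi.single j 1) = vm (fun i j => a.1 * A i j + a.2 * B i j) v j := by
  classical
  unfold om bil vm
  refine Finset.sum_congr rfl fun i _ => ?_
  rw [Finset.sum_eq_single j]
  · rw [Pi.single_eq_same, mul_one]
  · intro k _ hk
    rw [Pi.single_eq_of_ne hk, mul_zero]
  · intro h; exact absurd (Finset.mem_univ _) h

/-- the contribution of the form with matrix `A` (twice) -/
def Sg (A : Fin n → Fin n → ZMod 3) (k : Fin n → ℕ) (x x' : Fin n → ZMod 3) : ℤ :=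
  ∑ v : Fin n → ZMod 3, cc (∑ j, x j * v j) * ∏ j, gg (k j) (v j) (vm A v j + x' j)

theorem Sg_neg (A : Fin n → Fin n → ZMod 3) (k : Fin n → ℕ) (x x' : Fin n → ZMod 3) :
    Sg (fun i j => - A i j) k x x' = Sg A k x x' := by
  unfold Sg
  rw [← Equiv.sum_comp (Equiv.neg (Fin n → ZMod 3))]
  refine Finset.sum_congr rfl fun v _ => ?_
  have e1 : ∑ j, x j * (Equiv.neg (Fin n → ZMod 3)) v j = -(∑ j, x j * v j) := by
    rw [← Finset.sum_neg_distrib]
    refine Finset.sum_congr rfl fun j _ => ?_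
    rw [Equiv.neg_apply, Pi.neg_apply]; ring
  have e2 : cc (-(∑ j, x j * v j)) = cc (∑ j, x j * v j) := by
    unfold cc; rw [if_congr neg_eq_zero rfl rfl]
  rw [e1, e2]
  congr 1
  refine Finset.prod_congr rfl fun j _ => ?_
  have e3 : vm (fun i j => - A i j) ((Equiv.neg (Fin n → ZMod 3)) v) j = vm A v j := by
    unfold vm
    refine Finset.sum_congr rfl fun i _ => ?_
    rw [Equiv.neg_apply, Pi.neg_apply]; ring
  rw [e3, Equiv.neg_apply, Pi.neg_apply, gg_neg]

/-- the contribution of the zero form -/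
def Pz (k : Fin n → ℕ) (x x' : Fin n → ZMod 3) : ℤ :=
  ∏ j, ((if x j = 0 ∧ x' j = 0 then 3 else 0) + (k j : ℤ))

theorem sum_psi_gg (k : ℕ) (x c : ZMod 3) :
    ∑ y : ZMod 3, psi (x * y) * ((gg k y c : ℤ) : ℂ) =
      (((if x = 0 ∧ c = 0 then 3 else 0) + (k : ℤ) : ℤ) : ℂ) := by
  have h1 : ∀ y : ZMod 3, psi (x * y) * ((gg k y c : ℤ) : ℂ) =
      psi (x * y) * (if c = 0 then 1 else 0) + (if y = 0 then (k : ℂ) else 0) := by
    intro y
    unfold gg
    push_cast
    rw [mul_add]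
    congr 1
    by_cases hy : y = 0
    · rw [hy, mul_zero, psi_zero, if_pos rfl, one_mul]
    · rw [if_neg hy, mul_zero]
  rw [Finset.sum_congr rfl fun y _ => h1 y, Finset.sum_add_distrib, ← Finset.sum_mul, sum_psi,
    Finset.sum_ite_eq' Finset.univ (0 : ZMod 3) (fun _ => (k : ℂ)), if_pos (Finset.mem_univ _)]
  push_cast
  by_cases hx : x = 0 <;> by_cases hc : c = 0 <;> simp [hx, hc]

theorem Sg_zero (k : Fin n → ℕ) (x x' : Fin n → ZMod 3) :
    Sg (fun _ _ => 0) k x x' = 2 * Pz k x x' := by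
  classical
  have h0 : ∀ (v : Fin n → ZMod 3) j, vm (fun _ _ => 0) v j = 0 := by
    intro v j; unfold vm; exact Finset.sum_eq_zero fun i _ => zero_mul _
  have hp : ∀ z : Fin n → ZMod 3, ∑ v : Fin n → ZMod 3, psi (∑ j, z j * v j) *
      ((∏ j, gg (k j) (v j) (x' j) : ℤ) : ℂ) = ((Pz k z x' : ℤ) : ℂ) := by
    intro z
    have h2 : ∀ v : Fin n → ZMod 3, psi (∑ j, z j * v j) *
      ((∏ j, gg (k j) (v j) (x' j) : ℤ) : ℂ) =
      ∏ j, (psi (z j * v j) * ((gg (k j) (v j) (x' j) : ℤ) : ℂ)) := by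
      intro v
      rw [psi_sum, Finset.prod_mul_distrib]
      push_cast
      rfl
    rw [Finset.sum_congr rfl fun v _ => h2 v]
    have h3 : ∑ v : Fin n → ZMod 3, ∏ j, (psi (z j * v j) * ((gg (k j) (v j) (x' j) : ℤ) : ℂ)) =
        ∏ j, ∑ y : ZMod 3, psi (z j * y) * ((gg (k j) y (x' j) : ℤ) : ℂ) := by
      rw [Finset.prod_univ_sum, Fintype.piFinset_univ]
    rw [h3]
    unfold Pz
    rw [Int.cast_prod]
    exact Finset.prod_congr rfl fun j _ => sum_psi_gg _ _ _
  have h4 : ((Sg (fun _ _ => 0) k x x' : ℤ) : ℂ) = ((2 * Pz k x x' : ℤ) : ℂ) := by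
    unfold Sg
    push_cast
    have h5 : ∀ v : Fin n → ZMod 3, ((cc (∑ j, x j * v j) : ℤ) : ℂ) *
        ∏ j, ((gg (k j) (v j) (vm (fun _ _ => 0) v j + x' j) : ℤ) : ℂ) =
        psi (∑ j, x j * v j) * ((∏ j, gg (k j) (v j) (x' j) : ℤ) : ℂ) +
        psi (∑ j, (-x) j * v j) * ((∏ j, gg (k j) (v j) (x' j) : ℤ) : ℂ) := by
      intro v
      have e1 : ∑ j, (-x) j * v j = -(∑ j, x j * v j) := by
        rw [← Finset.sum_neg_distrib]
        exact Finset.sum_congr rfl fun j _ => by rw [Pi.neg_apply]; ring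
      rw [cc_eq, e1, ← add_mul]
      push_cast
      congr 1
      exact Finset.prod_congr rfl fun j _ => by rw [h0, zero_add]
    rw [Finset.sum_congr rfl fun v _ => h5 v, Finset.sum_add_distrib, hp, hp]
    have e2 : Pz k (-x) x' = Pz k x x' := by
      unfold Pz
      refine Finset.prod_congr rfl fun j _ => ?_
      rw [Pi.neg_apply, if_congr (and_congr_left' neg_eq_zero) rfl rfl]
    rw [e2]; ring
  exact_mod_cast h4

/-- **the spectral function of the pencil** -/
def Hs (A B : Fin n → Fin n → ZMod 3) (k : Fin n → ℕ) (x x' : Fin n → ZMod 3) : ℤ :=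
  Pz k x x' + (Sg A k x x' + Sg B k x x' + Sg (fun i j => A i j + B i j) k x x' +
    Sg (fun i j => A i j - B i j) k x x')

theorem hZ_eq (A B : Fin n → Fin n → ZMod 3) (k : Fin n → ℕ) (x x' : Fin n → ZMod 3) :
    hZ (om A B) k x x' = 2 * Hs A B k x x' := by
  have h1 : hZ (om A B) k x x' =
      ∑ a : ZMod 3 × ZMod 3, Sg (fun i j => a.1 * A i j + a.2 * B i j) k x x' := by
    unfold hZ Sg
    refine Finset.sum_congr rfl fun a _ => Finset.sum_congr rfl fun v _ => ?_
    congr 1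
    exact Finset.prod_congr rfl fun j _ => by rw [om_single]
  have h2 : ∀ G : ZMod 3 × ZMod 3 → ℤ, ∑ a : ZMod 3 × ZMod 3, G a =
      G (0, 0) + (G (1, 0) + G (2, 0)) + (G (0, 1) + G (0, 2)) + (G (1, 1) + G (2, 2)) +
        (G (1, 2) + G (2, 1)) := by
    intro G
    rw [Fintype.sum_prod_type]
    have h3 : ∀ g : ZMod 3 → ℤ, ∑ x : ZMod 3, g x = g 0 + g 1 + g 2 :=
      fun g => Fin.sum_univ_three g
    rw [h3, h3, h3, h3]
    ring
  rw [h1, h2]
  have e00 : (fun i j => ((0 : ZMod 3), (0 : ZMod 3)).1 * A i j + ((0 : ZMod 3), (0 : ZMod 3)).2 * B i j) =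
      (fun _ _ => 0 : Fin n → Fin n → ZMod 3) := by
    funext i j; simp
  have e10 : (fun i j => ((1 : ZMod 3), (0 : ZMod 3)).1 * A i j + ((1 : ZMod 3), (0 : ZMod 3)).2 * B i j) = A := by
    funext i j; simp
  have m2 : (2 : ZMod 3) = -1 := by decide
  have e20 : (fun i j => ((2 : ZMod 3), (0 : ZMod 3)).1 * A i j + ((2 : ZMod 3), (0 : ZMod 3)).2 * B i j) =
      (fun i j => - A i j) := by
    funext i j; simp [m2]
  have e01 : (fun i j => ((0 : ZMod 3), (1 : ZMod 3)).1 * A i j + ((0 : ZMod 3), (1 : ZMod 3)).2 * B i j) = B := by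
    funext i j; simp
  have e02 : (fun i j => ((0 : ZMod 3), (2 : ZMod 3)).1 * A i j + ((0 : ZMod 3), (2 : ZMod 3)).2 * B i j) =
      (fun i j => - B i j) := by
    funext i j; simp [m2]
  have e11 : (fun i j => ((1 : ZMod 3), (1 : ZMod 3)).1 * A i j + ((1 : ZMod 3), (1 : ZMod 3)).2 * B i j) =
      (fun i j => A i j + B i j) := by
    funext i j; simp
  have e22 : (fun i j => ((2 : ZMod 3), (2 : ZMod 3)).1 * A i j + ((2 : ZMod 3), (2 : ZMod 3)).2 * B i j) =
      (fun i j => - ((fun i j => A i j + B i j) i j)) := by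
    funext i j; simp only [m2]; ring
  have e12 : (fun i j => ((1 : ZMod 3), (2 : ZMod 3)).1 * A i j + ((1 : ZMod 3), (2 : ZMod 3)).2 * B i j) =
      (fun i j => A i j - B i j) := by
    funext i j; simp only [m2]; ring
  have e21 : (fun i j => ((2 : ZMod 3), (1 : ZMod 3)).1 * A i j + ((2 : ZMod 3), (1 : ZMod 3)).2 * B i j) =
      (fun i j => - ((fun i j => A i j - B i j) i j)) := by
    funext i j; simp only [m2]; ring
  rw [e00, e10, e20, e01, e02, e11, e22, e12, e21, Sg_neg, Sg_neg, Sg_neg, Sg_neg, Sg_zero]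
  unfold Hs
  ring

theorem hV_om (A B : Fin n → Fin n → ZMod 3) (hA : ∀ i j, A i j = - A j i)
    (hB : ∀ i j, B i j = - B j i) (k : Fin n → ℕ) (x x' : Fin n → ZMod 3) :
    hV (om A B) (coordH n) (fun j => 3 * k j + 1) (dotH x) (dotH x') = ((Hs A B k x x' : ℤ) : ℂ) := by
  have h := hV_int (om A B) (om_addL A B) (om_addX A B) (om_alt A B hA hB) k x x'
  rw [hZ_eq] at h
  push_cast at h
  exact mul_left_cancel₀ (by norm_num : (2 : ℂ) ≠ 0) h

/-- coordinates of a functional -/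
def crd (g : (Fin n → ZMod 3) →+ ZMod 3) (j : Fin n) : ZMod 3 := g (Pi.single j 1)

theorem dotH_crd (g : (Fin n → ZMod 3) →+ ZMod 3) : dotH (crd g) = g := by
  refine DFunLike.ext _ _ fun v => ?_
  rw [dotH_apply, hom_coord g v]
  rfl

theorem crd_dotH (x : Fin n → ZMod 3) : crd (dotH x) = x := by
  classical
  funext j
  unfold crd
  rw [dotH_apply, Finset.sum_eq_single j]
  · rw [Pi.single_eq_same, mul_one]
  · intro k _ hk
    rw [Pi.single_eq_of_ne hk, mul_zero]
  · intro h; exact absurd (Finset.mem_univ _) h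

/-- the spectral function on functionals -/
def Hf (A B : Fin n → Fin n → ZMod 3) (k : Fin n → ℕ)
    (x x' : (Fin n → ZMod 3) →+ ZMod 3) : ℤ := Hs A B k (crd x) (crd x')

theorem hV_Hf (A B : Fin n → Fin n → ZMod 3) (hA : ∀ i j, A i j = - A j i)
    (hB : ∀ i j, B i j = - B j i) (k : Fin n → ℕ) (x x' : (Fin n → ZMod 3) →+ ZMod 3) :
    hV (om A B) (coordH n) (fun j => 3 * k j + 1) x x' = ((Hf A B k x x' : ℤ) : ℂ) := by
  unfold Hf
  rw [← hV_om A B hA hB, dotH_crd, dotH_crd]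

end

end Pool.Agent.Lib.MP_cfac74_al.Ch
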