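import Pool.Agent.Lib.MP_cfac74_al.Ch.Enum
import Pool.Agent.Lib.MP_cfac74_al.Ch.Geo

/-!
# MP_cfac74_al : evaluation of the spectral function of a core in the kernel
-/

set_option autoImplicit false
set_option linter.unusedSectionVars false

namespace Pool.Agent.Lib.MP_cfac74_al.Ch

open Finset Pool.Agent.Lib.MP_cfac74_al.Dec

/-! ### the middle digit of a product of codes -/

/-- forward code of a list of digits -/
noncomputable def cdF (l : List ℕ) : ℕ :=
  List.rec (motive := fun _ => ℕ) 0 (fun d _ ih => Nat.add d (Nat.mul 32 ih)) l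

/-- reversed code of a list of digits -/
noncomputable def cdR (l : List ℕ) : ℕ → ℕ :=
  List.rec (motive := fun _ => ℕ → ℕ) (fun a => a) (fun d _ ih a => ih (Nat.add d (Nat.mul 32 a))) l

theorem cdF_ofFn (n : ℕ) : ∀ D : Fin n → ℕ, cdF (List.ofFn D) = ∑ i, D i * 32 ^ (i : ℕ) := by
  induction n with
  | zero => intro D; rw [List.ofFn_zero]; simp [cdF]
  | succ n ih =>
    intro D
    rw [List.ofFn_succ, Fin.sum_univ_succ]
    have h : cdF (D 0 :: List.ofFn fun i => D i.succ) = D 0 + 32 * cdF (List.ofFn fun i => D i.succ) :=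
      rfl
    rw [h, ih, Fin.val_zero, pow_zero, mul_one, Finset.mul_sum]
    congr 1
    exact Finset.sum_congr rfl fun i _ => by rw [Fin.val_succ, pow_succ]; ring

/-- reversed code -/
def xrev : (n : ℕ) → (Fin n → ℕ) → ℕ
  | 0, _ => 0
  | n + 1, x => 32 * xrev n (fun i => x i.castSucc) + x (Fin.last n)

theorem cdR_append (l : List ℕ) (d : ℕ) : ∀ a, cdR (l ++ [d]) a = d + 32 * cdR l a := by
  induction l with
  | nil => intro a; rfl
  | cons e l ih => intro a; exact ih _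

theorem cdR_ofFn (n : ℕ) : ∀ x : Fin n → ℕ, cdR (List.ofFn x) 0 = xrev n x := by
  induction n with
  | zero => intro x; rw [List.ofFn_zero]; rfl
  | succ n ih =>
    intro x
    have h : List.ofFn x = (List.ofFn fun i : Fin n => x i.castSucc) ++ [x (Fin.last n)] := by
      rw [List.ofFn_succ', List.concat_eq_append]
    rw [h, cdR_append, ih, xrev]
    ring

theorem code_bound (n : ℕ) : ∀ u : Fin n → ℕ, (∀ i, u i ≤ 2) →
    31 * (∑ i, u i * 32 ^ (i : ℕ)) + 2 ≤ 2 * 32 ^ n := by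
  induction n with
  | zero => intro u _; simp
  | succ n ih =>
    intro u hu
    rw [Fin.sum_univ_castSucc]
    have h1 := ih (fun i => u i.castSucc) (fun i => hu _)
    have h2 := hu (Fin.last n)
    have h3 : u (Fin.last n) * 32 ^ n ≤ 2 * 32 ^ n := Nat.mul_le_mul_right _ h2
    rw [Fin.val_last]
    have h4 : ∑ i : Fin n, u i.castSucc * 32 ^ ((i.castSucc : Fin (n + 1)) : ℕ) =
      ∑ i : Fin n, u i.castSucc * 32 ^ (i : ℕ) := rfl
    rw [h4, pow_succ]
    omega

theorem prod_form (m : ℕ) : ∀ x u : Fin (m + 1) → ℕ, (∀ i, x i ≤ 2) → (∀ i, u i ≤ 2) →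
    ∃ low high : ℕ, xrev (m + 1) x * (∑ i, u i * 32 ^ (i : ℕ)) =
      low + 32 ^ m * ((∑ i, x i * u i) + 32 * high) ∧ 31 * low + 4 * m ≤ 4 * m * 32 ^ m := by
  induction m with
  | zero =>
    intro x u _ _
    refine ⟨0, 0, ?_, by simp⟩
    simp [xrev]
  | succ m ih =>
    intro x u hx hu
    obtain ⟨low, high, h1, h2⟩ := ih (fun i => x i.castSucc) (fun i => u i.castSucc)
      (fun i => hx _) (fun i => hu _)
    set X := xrev (m + 1) (fun i => x i.castSucc) with hX
    set U := ∑ i : Fin (m + 1), u i.castSucc * 32 ^ (i : ℕ) with hU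
    set a := x (Fin.last (m + 1)) with ha
    set b := u (Fin.last (m + 1)) with hb
    have hUb := code_bound (m + 1) (fun i => u i.castSucc) (fun i => hu _)
    rw [← hU] at hUb
    have ha2 : a ≤ 2 := hx _
    refine ⟨32 * low + a * U, high + X * b, ?_, ?_⟩
    · have e1 : xrev (m + 1 + 1) x = 32 * X + a := rfl
      have e3 : ∑ i : Fin (m + 1 + 1), u i * 32 ^ (i : ℕ) = U + b * 32 ^ (m + 1) := by
        rw [Fin.sum_univ_castSucc]; rfl
      have e4 : ∑ i : Fin (m + 1 + 1), x i * u i =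
          (∑ i : Fin (m + 1), x i.castSucc * u i.castSucc) + a * b := by
        rw [Fin.sum_univ_castSucc]
      rw [e1, e3, e4]
      calc (32 * X + a) * (U + b * 32 ^ (m + 1))
          = 32 * (X * U) + a * U + (32 * X + a) * (b * 32 ^ (m + 1)) := by ring
        _ = _ := by rw [h1]; ring
    · have h3 : a * U ≤ 2 * U := Nat.mul_le_mul_right _ ha2
      have h4 : (32 : ℕ) ^ (m + 1) = 32 * 32 ^ m := by rw [pow_succ]; ring
      rw [h4] at hUb ⊢
      have h5 : 4 * (m + 1) * (32 * 32 ^ m) = 32 * (4 * m * 32 ^ m) + 128 * 32 ^ m := by ring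
      rw [h5]
      have h6 : 4 * m * 32 ^ m = 4 * (m * 32 ^ m) := by ring
      omega

theorem dot_digit (n : ℕ) (hn : 0 < n) (hn7 : n ≤ 7) (x u : Fin n → ℕ) (hx : ∀ i, x i ≤ 2)
    (hu : ∀ i, u i ≤ 2) :
    xrev n x * (∑ i, u i * 32 ^ (i : ℕ)) / 32 ^ (n - 1) % 32 = ∑ i, x i * u i := by
  obtain ⟨m, rfl⟩ : ∃ m, n = m + 1 := ⟨n - 1, by omega⟩
  obtain ⟨low, high, h1, h2⟩ := prod_form m x u hx hu
  rw [h1, Nat.add_sub_cancel]
  have hp : 0 < 32 ^ m := by positivity
  have hlow : low < 32 ^ m := by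
    have : 4 * m * 32 ^ m ≤ 24 * 32 ^ m := Nat.mul_le_mul_right _ (by omega)
    omega
  have hdot : ∑ i, x i * u i < 32 := by
    have : ∑ i, x i * u i ≤ ∑ _i : Fin (m + 1), 4 :=
      Finset.sum_le_sum fun i _ => Nat.mul_le_mul (hx i) (hu i)
    rw [Finset.sum_const, Finset.card_univ, Fintype.card_fin, smul_eq_mul] at this
    omega
  rw [Nat.add_mul_div_left _ _ hp, Nat.div_eq_of_lt hlow, zero_add, Nat.add_mul_mod_self_left,
    Nat.mod_eq_of_lt hdot]

/-! ### selection -/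

/-- sum of the weights of the vectors orthogonal to `x` -/
noncomputable def sel (pw xr : ℕ) (l : List (ℕ × ℕ)) : ℕ :=
  List.rec (motive := fun _ => ℕ) 0 (fun p _ ih =>
    Nat.rec (motive := fun _ => ℕ) (Nat.add p.2 ih) (fun _ _ => ih)
      (Nat.mod (Nat.mod (Nat.div (Nat.mul xr p.1) pw) 32) 3)) l

/-- sum of all weights -/
noncomputable def tot (l : List (ℕ × ℕ)) : ℕ :=
  List.rec (motive := fun _ => ℕ) 0 (fun p _ ih => Nat.add p.2 ih) l

theorem sel_eq (pw xr : ℕ) (l : List (ℕ × ℕ)) :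
    ((sel pw xr l : ℕ) : ℤ) = lsum (fun v => if xr * v / pw % 32 % 3 = 0 then 1 else 0) l := by
  induction l with
  | nil => rfl
  | cons p l ih =>
    rw [lsum_cons, ← ih]
    have h : sel pw xr (p :: l) = Nat.rec (motive := fun _ => ℕ) (Nat.add p.2 (sel pw xr l))
      (fun _ _ => sel pw xr l) (xr * p.1 / pw % 32 % 3) := rfl
    rw [h]
    generalize xr * p.1 / pw % 32 % 3 = g
    cases g with
    | zero =>
      change ((p.2 + sel pw xr l : ℕ) : ℤ) = _
      simp
    | succ g =>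
      change ((sel pw xr l : ℕ) : ℤ) = _
      simp

theorem tot_eq (l : List (ℕ × ℕ)) : ((tot l : ℕ) : ℤ) = lsum (fun _ => 1) l := by
  induction l with
  | nil => rfl
  | cons p l ih =>
    rw [lsum_cons, ← ih]
    change ((p.2 + tot l : ℕ) : ℤ) = _
    push_cast; ring

/-! ### link with `Sg` -/

section

variable {n : ℕ}

/-- digits of a vector -/
def dl (x : Fin n → ZMod 3) : List ℕ := List.ofFn fun j => (x j).val

/-- row codes of a matrix -/
def rowC (A : Fin n → Fin n → ZMod 3) (i : ℕ) : ℕ :=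
  if h : i < n then ∑ j : Fin n, (A ⟨i, h⟩ j).val * 32 ^ (j : ℕ) else 0

theorem rowC_fin (A : Fin n → Fin n → ZMod 3) (i : Fin n) :
    rowC A i = ∑ j : Fin n, (A i j).val * 32 ^ (j : ℕ) := by
  unfold rowC; rw [dif_pos i.2]

theorem val_le_two (x : ZMod 3) : x.val ≤ 2 := by
  have := ZMod.val_lt x; omega

theorem natCast_val3 (x : ZMod 3) : ((x.val : ℕ) : ZMod 3) = x := ZMod.natCast_zmod_val x

theorem mod3_iff (a : ℕ) : a % 3 = 0 ↔ (a : ZMod 3) = 0 := by
  rw [ZMod.natCast_eq_zero_iff]; omega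

/-- the leaf: product of local factors -/
theorem leaf_eq (hn7 : n ≤ 7) (A : Fin n → Fin n → ZMod 3) (k : Fin n → ℕ)
    (x' v : Fin n → ZMod 3) :
    ((wgt (List.ofFn k) (cdF (dl x') + ∑ i, (v i).val * rowC A i)
      (∑ i, (v i).val * 32 ^ (i : ℕ)) : ℕ) : ℤ) =
      ∏ j, gg (k j) (v j) (vm A v j + x' j) := by
  have h1 : cdF (dl x') + ∑ i, (v i).val * rowC A i =
      ∑ j : Fin n, ((x' j).val + ∑ i, (v i).val * (A i j).val) * 32 ^ (j : ℕ) := by
    unfold dl
    rw [cdF_ofFn]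
    simp_rw [rowC_fin, add_mul, Finset.sum_add_distrib, Finset.mul_sum, Finset.sum_mul]
    congr 1
    rw [Finset.sum_comm]
    exact Finset.sum_congr rfl fun j _ => Finset.sum_congr rfl fun i _ => by ring
  rw [h1, wgt_digits]
  · push_cast
    refine Finset.prod_congr rfl fun j _ => ?_
    unfold gg
    have e1 : ((x' j).val + ∑ i, (v i).val * (A i j).val) % 3 = 0 ↔ vm A v j + x' j = 0 := by
      rw [mod3_iff]
      push_cast
      simp_rw [natCast_val3]
      unfold vm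
      have : x' j + ∑ i, v i * A i j = ∑ i, A i j * v i + x' j := by
        rw [add_comm]
        congr 1
        exact Finset.sum_congr rfl fun i _ => mul_comm _ _
      rw [this]
    have e2 : (v j).val = 0 ↔ v j = 0 := ZMod.val_eq_zero _
    by_cases c1 : vm A v j + x' j = 0 <;> by_cases c2 : v j = 0
    · rw [if_pos (e1.2 c1), if_pos (e2.2 c2), if_pos c1, if_pos c2]
    · rw [if_pos (e1.2 c1), if_neg (fun h => c2 (e2.1 h)), if_pos c1, if_neg c2]
    · rw [if_neg (fun h => c1 (e1.1 h)), if_pos (e2.2 c2), if_neg c1, if_pos c2]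
    · rw [if_neg (fun h => c1 (e1.1 h)), if_neg (fun h => c2 (e2.1 h)), if_neg c1, if_neg c2]
  · intro j
    have h2 : ∑ i, (v i).val * (A i j).val ≤ ∑ _i : Fin n, 4 :=
      Finset.sum_le_sum fun i _ => Nat.mul_le_mul (val_le_two _) (val_le_two _)
    rw [Finset.sum_const, Finset.card_univ, Fintype.card_fin, smul_eq_mul] at h2
    have h3 := val_le_two (x' j)
    omega
  · intro j
    have := val_le_two (v j)
    omega

theorem go_all (hn7 : n ≤ 7) (A : Fin n → Fin n → ZMod 3) (k : Fin n → ℕ)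
    (x' : Fin n → ZMod 3) (F : ℕ → ℤ) (acc : List (ℕ × ℕ)) :
    lsum F (go (List.ofFn k) (rowsL (rowC A) n) (cdF (dl x')) 0 acc) = lsum F acc +
      ∑ v : Fin n → ZMod 3, F (∑ i, (v i).val * 32 ^ (i : ℕ)) *
        ∏ j, gg (k j) (v j) (vm A v j + x' j) := by
  rw [go_sum]
  congr 1
  refine Finset.sum_congr rfl fun v _ => ?_
  rw [mul_zero, zero_add, leaf_eq hn7]

theorem sel_dot (hn : 0 < n) (hn7 : n ≤ 7) (x v : Fin n → ZMod 3) :
    (cdR (dl x) 0 * (∑ i, (v i).val * 32 ^ (i : ℕ)) / 32 ^ (n - 1) % 32 % 3 = 0) ↔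
      ∑ j, x j * v j = 0 := by
  unfold dl
  rw [cdR_ofFn, dot_digit n hn hn7 _ _ (fun i => val_le_two _) (fun i => val_le_two _), mod3_iff]
  push_cast
  simp_rw [natCast_val3]

theorem Sg_split (A : Fin n → Fin n → ZMod 3) (k : Fin n → ℕ) (x x' : Fin n → ZMod 3) :
    Sg A k x x' = 3 * (∑ v : Fin n → ZMod 3, (if ∑ j, x j * v j = 0 then 1 else 0) *
        ∏ j, gg (k j) (v j) (vm A v j + x' j)) -
      ∑ v : Fin n → ZMod 3, ∏ j, gg (k j) (v j) (vm A v j + x' j) := by
  unfold Sg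
  rw [Finset.mul_sum, ← Finset.sum_sub_distrib]
  refine Finset.sum_congr rfl fun v _ => ?_
  unfold cc
  split_ifs <;> ring

/-- the support list of four forms -/
noncomputable def sup4 (zs R1 R2 R3 R4 : List ℕ) (c : ℕ) : List (ℕ × ℕ) :=
  go zs R1 c 0 (go zs R2 c 0 (go zs R3 c 0 (go zs R4 c 0 [])))

/-- the contribution of the zero form -/
noncomputable def pin (zs : List ℕ) : List ℕ → List ℕ → ℕ :=
  List.rec (motive := fun _ => List ℕ → List ℕ → ℕ) (fun _ _ => 1)
    (fun z _ ih x y => Nat.mul (Nat.add (ifz (Nat.add (x.headD 0) (y.headD 0)) 3) z)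
      (ih x.tail y.tail)) zs

theorem pin_ofFn (m : ℕ) : ∀ (z x y : Fin m → ℕ), pin (List.ofFn z) (List.ofFn x) (List.ofFn y) =
    ∏ j, ((if x j = 0 ∧ y j = 0 then 3 else 0) + z j) := by
  induction m with
  | zero => intro z x y; simp [pin]
  | succ m ih =>
    intro z x y
    rw [List.ofFn_succ, List.ofFn_succ, List.ofFn_succ, Fin.prod_univ_succ]
    have h : pin (z 0 :: List.ofFn fun i => z i.succ) (x 0 :: List.ofFn fun i => x i.succ)
        (y 0 :: List.ofFn fun i => y i.succ) =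
        (ifz (x 0 + y 0) 3 + z 0) * pin (List.ofFn fun i => z i.succ)
          (List.ofFn fun i => x i.succ) (List.ofFn fun i => y i.succ) := rfl
    rw [h, ih, ifz_eq]
    congr 2
    by_cases h1 : x 0 = 0 <;> by_cases h2 : y 0 = 0 <;> simp [h1, h2]

theorem Pz_eq (k : Fin n → ℕ) (x x' : Fin n → ZMod 3) :
    Pz k x x' = ((pin (List.ofFn k) (dl x) (dl x') : ℕ) : ℤ) := by
  unfold dl
  rw [pin_ofFn]
  unfold Pz
  push_cast
  refine Finset.prod_congr rfl fun j _ => ?_
  rw [if_congr (and_congr (ZMod.val_eq_zero (x j)) (ZMod.val_eq_zero (x' j))) rfl rfl]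

/-- **evaluation of the spectral function** -/
theorem Hs_ev (hn : 0 < n) (hn7 : n ≤ 7) (A B : Fin n → Fin n → ZMod 3) (k : Fin n → ℕ)
    (x x' : Fin n → ZMod 3) :
    let S := sup4 (List.ofFn k) (rowsL (rowC A) n) (rowsL (rowC B) n)
      (rowsL (rowC fun i j => A i j + B i j) n) (rowsL (rowC fun i j => A i j - B i j) n)
      (cdF (dl x'))
    Hs A B k x x' = ((pin (List.ofFn k) (dl x) (dl x') + 3 * sel (32 ^ (n - 1)) (cdR (dl x) 0) S
      : ℕ) : ℤ) - ((tot S : ℕ) : ℤ) := by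
  intro S
  push_cast
  rw [sel_eq, tot_eq, ← Pz_eq]
  simp only [S, sup4]
  rw [go_all hn7, go_all hn7, go_all hn7, go_all hn7, go_all hn7, go_all hn7, go_all hn7,
    go_all hn7]
  unfold Hs
  rw [Sg_split A, Sg_split B, Sg_split (fun i j => A i j + B i j), Sg_split (fun i j => A i j - B i j)]
  have h0 : ∀ F : ℕ → ℤ, lsum F [] = 0 := fun F => rfl
  rw [h0, h0]
  simp only [one_mul]
  simp_rw [sel_dot hn hn7]
  ring

end

end Pool.Agent.Lib.MP_cfac74_al.Ch
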