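import Pool.Agent.Lib.MP_cfac74_al.Ch.Psi

/-!
# MP_cfac74_al : the spectral function of a decorated plane, explicitly
-/

set_option autoImplicit false

namespace Pool.Agent.Lib.MP_cfac74_al.Ch

open Finset Pool.Agent.Lib.MP_cfac74_al.Dec

/-- the integer value of `hC` -/
def hCz (M : ℕ) (p q : ZMod 3 × ZMod 3) : ℤ :=
  cc (J2 p q) + (if p.2 = 0 ∧ q.2 = 0 then 3 * ((M : ℤ) - 1) else 0) +
    (if p = 0 ∧ q = 0 then 9 else 0)

theorem sum_sum_plane (a : ZMod 3) (ha : a = 1 ∨ a = 2) (p q : ZMod 3 × ZMod 3) :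
    ∑ c : ZMod 3 × ZMod 3, ∑ d : ZMod 3 × ZMod 3, psi (a * J2 c d) * psi (dot p c + dot q d) =
      9 * psi (-(a * J2 p q)) := by
  have haa : a * a = 1 := by rcases ha with rfl | rfl <;> decide
  have h1 : ∀ c : ZMod 3 × ZMod 3, ∑ d : ZMod 3 × ZMod 3,
      psi (a * J2 c d) * psi (dot p c + dot q d) =
      if c = (-(a * q.2), a * q.1) then 9 * psi (dot p c) else 0 := by
    intro c
    have h2 : ∀ d : ZMod 3 × ZMod 3, psi (a * J2 c d) * psi (dot p c + dot q d) =
        psi (dot p c) * psi (dot (q.1 - a * c.2, q.2 + a * c.1) d) := by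
      intro d
      rw [← psi_add, ← psi_add]
      congr 1
      simp only [dot, J2]; ring
    rw [Finset.sum_congr rfl fun d _ => h2 d, ← Finset.mul_sum, sum_dot]
    by_cases h : c = (-(a * q.2), a * q.1)
    · have h3 : ((q.1 - a * c.2, q.2 + a * c.1) : ZMod 3 × ZMod 3) = 0 := by
        rw [h, Prod.mk_eq_zero]
        constructor
        · change q.1 - a * (a * q.1) = 0
          linear_combination (-q.1) * haa
        · change q.2 + a * (-(a * q.2)) = 0
          linear_combination (-q.2) * haa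
      rw [if_pos h, if_pos h3]; ring
    · have h3 : ((q.1 - a * c.2, q.2 + a * c.1) : ZMod 3 × ZMod 3) ≠ 0 := by
        intro h4
        rw [Prod.mk_eq_zero] at h4
        apply h
        refine Prod.ext ?_ ?_
        · change c.1 = -(a * q.2)
          linear_combination (-c.1) * haa + a * h4.2
        · change c.2 = a * q.1
          linear_combination (-c.2) * haa - a * h4.1
      rw [if_neg h, if_neg h3, mul_zero]
  rw [Finset.sum_congr rfl fun c _ => h1 c, Finset.sum_ite_eq' Finset.univ (-(a * q.2), a * q.1)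
    (fun c => 9 * psi (dot p c)), if_pos (Finset.mem_univ _)]
  congr 2
  simp only [dot, J2]; ring

theorem sum_first_zero (p q : ZMod 3 × ZMod 3) :
    ∑ c : ZMod 3 × ZMod 3, ∑ d : ZMod 3 × ZMod 3,
      ((if c.1 = 0 then (1 : ℂ) else 0) * (if d.1 = 0 then (1 : ℂ) else 0)) *
        psi (dot p c + dot q d) = if p.2 = 0 ∧ q.2 = 0 then 9 else 0 := by
  have h1 : ∀ p : ZMod 3 × ZMod 3, ∑ c : ZMod 3 × ZMod 3,
      (if c.1 = 0 then (1 : ℂ) else 0) * psi (dot p c) = if p.2 = 0 then 3 else 0 := by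
    intro p
    rw [Fintype.sum_prod_type, Finset.sum_eq_single (0 : ZMod 3)]
    · rw [← sum_psi]
      refine Finset.sum_congr rfl fun y _ => ?_
      rw [if_pos rfl, one_mul]
      congr 1
      simp only [dot]; ring
    · intro x _ hx
      exact Finset.sum_eq_zero fun y _ => by rw [if_neg hx, zero_mul]
    · intro h; exact absurd (Finset.mem_univ _) h
  have h2 : ∀ c d : ZMod 3 × ZMod 3,
      ((if c.1 = 0 then (1 : ℂ) else 0) * (if d.1 = 0 then (1 : ℂ) else 0)) *
        psi (dot p c + dot q d) =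
      ((if c.1 = 0 then (1 : ℂ) else 0) * psi (dot p c)) *
        ((if d.1 = 0 then (1 : ℂ) else 0) * psi (dot q d)) := by
    intro c d; rw [psi_add]; ring
  simp_rw [h2]
  rw [← Finset.sum_mul_sum, h1, h1]
  by_cases hp : p.2 = 0 <;> by_cases hq : q.2 = 0 <;> simp [hp, hq]
  norm_num

/-- **explicit values of `hC`** -/
theorem hC_val (M : ℕ) (p q : ZMod 3 × ZMod 3) : hC M p q = ((hCz M p q : ℤ) : ℂ) := by
  have h0 : ∀ a : ZMod 3, ∑ c : ZMod 3 × ZMod 3, ∑ d : ZMod 3 × ZMod 3,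
      cw M c d * (psi (a * J2 c d) * psi (dot p c + dot q d)) =
      ∑ c : ZMod 3 × ZMod 3, ∑ d : ZMod 3 × ZMod 3, psi (a * J2 c d) * psi (dot p c + dot q d) +
      ((M : ℂ) - 1) * (if p.2 = 0 ∧ q.2 = 0 then 9 else 0) := by
    intro a
    rw [← sum_first_zero, Finset.mul_sum, ← Finset.sum_add_distrib]
    refine Finset.sum_congr rfl fun c _ => ?_
    rw [Finset.mul_sum, ← Finset.sum_add_distrib]
    refine Finset.sum_congr rfl fun d _ => ?_
    unfold cw
    by_cases hc : c.1 = 0 <;> by_cases hd : d.1 = 0 <;> simp [hc, hd]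
    have : a * J2 c d = 0 := by simp [J2, hc, hd]
    rw [this, psi_zero]; ring
  have h1 := hC_eq M p q
  have h2 : ∑ a : ZMod 3, ∑ c : ZMod 3 × ZMod 3, ∑ d : ZMod 3 × ZMod 3,
      cw M c d * (psi (a * J2 c d) * psi (dot p c + dot q d)) =
      ∑ c : ZMod 3 × ZMod 3, ∑ d : ZMod 3 × ZMod 3,
        cw M c d * (psi (0 * J2 c d) * psi (dot p c + dot q d)) +
      ∑ c : ZMod 3 × ZMod 3, ∑ d : ZMod 3 × ZMod 3,
        cw M c d * (psi (1 * J2 c d) * psi (dot p c + dot q d)) +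
      ∑ c : ZMod 3 × ZMod 3, ∑ d : ZMod 3 × ZMod 3,
        cw M c d * (psi (2 * J2 c d) * psi (dot p c + dot q d)) :=
    Fin.sum_univ_three (fun a : ZMod 3 => ∑ c : ZMod 3 × ZMod 3, ∑ d : ZMod 3 × ZMod 3,
      cw M c d * (psi (a * J2 c d) * psi (dot p c + dot q d)))
  rw [h2, h0, h0, h0, sum_sum_plane 1 (Or.inl rfl), sum_sum_plane 2 (Or.inr rfl)] at h1
  have h3 : ∑ c : ZMod 3 × ZMod 3, ∑ d : ZMod 3 × ZMod 3,
      psi (0 * J2 c d) * psi (dot p c + dot q d) = if p = 0 ∧ q = 0 then 81 else 0 := by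
    have h4 : ∀ c d : ZMod 3 × ZMod 3, psi (0 * J2 c d) * psi (dot p c + dot q d) =
        psi (dot p c) * psi (dot q d) := by
      intro c d; rw [zero_mul, psi_zero, one_mul, psi_add]
    simp_rw [h4]
    rw [← Finset.sum_mul_sum, sum_dot, sum_dot]
    by_cases hp : p = 0 <;> by_cases hq : q = 0 <;> simp [hp, hq]
    norm_num
  rw [h3] at h1
  have h5 : psi (-(1 * J2 p q)) + psi (-(2 * J2 p q)) = ((cc (J2 p q) : ℤ) : ℂ) := by
    rw [cc_eq]
    have : (2 : ZMod 3) = -1 := by decide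
    rw [this, one_mul, neg_mul, one_mul, neg_neg, add_comm]
  have h6 : (9 : ℂ) * hC M p q = 9 * ((hCz M p q : ℤ) : ℂ) := by
    rw [← h1, hCz]
    push_cast
    rw [← h5]
    split_ifs <;> ring
  exact mul_left_cancel₀ (by norm_num : (9 : ℂ) ≠ 0) h6

end Pool.Agent.Lib.MP_cfac74_al.Ch
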