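import Mathlib

/-!
# MP_cfac74_al : packed arrays of natural numbers
-/

set_option autoImplicit false

namespace Pool.Agent.Lib.MP_cfac74_al.Ch

open Finset

/-- the packed array `f 0, ..., f (N-1)` in base `R` -/
def La (R N : ℕ) (f : ℕ → ℕ) : ℕ := ∑ i ∈ range N, f i * R ^ i

theorem La_zero (R : ℕ) (f : ℕ → ℕ) : La R 0 f = 0 := by unfold La; simp

theorem La_succ (R N : ℕ) (f : ℕ → ℕ) : La R (N + 1) f = La R N f + f N * R ^ N := by
  unfold La; rw [Finset.sum_range_succ]

theorem La_congr {R N : ℕ} {f g : ℕ → ℕ} (h : ∀ i < N, f i = g i) : La R N f = La R N g :=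
  Finset.sum_congr rfl fun i hi => by rw [h i (Finset.mem_range.1 hi)]

theorem La_add (R N : ℕ) (f g : ℕ → ℕ) : La R N (fun i => f i + g i) = La R N f + La R N g := by
  unfold La; rw [← Finset.sum_add_distrib]
  exact Finset.sum_congr rfl fun i _ => add_mul _ _ _

theorem La_mul (R N a : ℕ) (f : ℕ → ℕ) : La R N (fun i => a * f i) = a * La R N f := by
  unfold La; rw [Finset.mul_sum]
  exact Finset.sum_congr rfl fun i _ => mul_assoc _ _ _

theorem La_append (R N M : ℕ) (f : ℕ → ℕ) :
    La R (N + M) f = La R N f + R ^ N * La R M (fun i => f (N + i)) := by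
  induction M with
  | zero => rw [add_zero, La_zero, mul_zero, add_zero]
  | succ M ih =>
    rw [← add_assoc, La_succ, ih, La_succ, pow_add]; ring

/-- trailing zeros -/
theorem La_extend (R N M : ℕ) (f : ℕ → ℕ) (h : ∀ i, N ≤ i → f i = 0) :
    La R (N + M) f = La R N f := by
  rw [La_append]
  have : La R M (fun i => f (N + i)) = 0 := by
    unfold La
    exact Finset.sum_eq_zero fun i _ => by
      change f (N + i) * R ^ i = 0
      rw [h (N + i) (Nat.le_add_right _ _), zero_mul]
  rw [this, mul_zero, add_zero]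

/-- multiplication by a power of the base -/
theorem La_shift (R N k : ℕ) (f : ℕ → ℕ) :
    R ^ k * La R N f = La R (k + N) (fun i => if i < k then 0 else f (i - k)) := by
  rw [La_append]
  have h1 : La R k (fun i => if i < k then 0 else f (i - k)) = 0 := by
    unfold La
    exact Finset.sum_eq_zero fun i hi => by
      change (if i < k then 0 else f (i - k)) * R ^ i = 0
      rw [if_pos (Finset.mem_range.1 hi), zero_mul]
  have h2 : La R N (fun i => if k + i < k then 0 else f (k + i - k)) = La R N f :=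
    La_congr fun i _ => by rw [if_neg (by omega), Nat.add_sub_cancel_left]
  rw [h1, h2, zero_add]

theorem La_lt (R N : ℕ) (f : ℕ → ℕ) (h : ∀ i < N, f i < R) : La R N f < R ^ N := by
  induction N with
  | zero => rw [La_zero, pow_zero]; exact Nat.one_pos
  | succ N ih =>
    rw [La_succ, pow_succ]
    have h1 := ih fun i hi => h i (by omega)
    have h2 : f N + 1 ≤ R := h N (by omega)
    calc La R N f + f N * R ^ N < R ^ N + f N * R ^ N := by omega
      _ = (f N + 1) * R ^ N := by ring
      _ ≤ R * R ^ N := Nat.mul_le_mul_right _ h2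
      _ = R ^ N * R := by ring

theorem La_mod (R N M : ℕ) (f : ℕ → ℕ) (h : ∀ i < N, f i < R) :
    La R (N + M) f % R ^ N = La R N f := by
  rw [La_append, Nat.add_mul_mod_self_left, Nat.mod_eq_of_lt (La_lt R N f h)]

theorem La_div (R N M : ℕ) (hR : 0 < R) (f : ℕ → ℕ) (h : ∀ i < N, f i < R) :
    La R (N + M) f / R ^ N = La R M (fun i => f (N + i)) := by
  rw [La_append, Nat.add_mul_div_left _ _ (Nat.pow_pos hR), Nat.div_eq_of_lt (La_lt R N f h),
    zero_add]

/-- division by a power of the base when the first entries vanish -/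
theorem La_unshift (R N k : ℕ) (hR : 0 < R) (f : ℕ → ℕ) (h : ∀ i < k, f i = 0)
    (h' : ∀ i, N ≤ i → f i = 0) : La R N f / R ^ k = La R N (fun i => f (i + k)) := by
  have h1 : La R N f = La R (k + N) f := by
    rw [add_comm, La_extend R N k f h']
  rw [h1, La_div R k N hR f (fun i hi => by rw [h i hi]; exact hR)]
  exact La_congr fun i _ => by rw [add_comm]

/-- reading one entry -/
theorem La_get (R N : ℕ) (hR : 0 < R) (f : ℕ → ℕ) (h : ∀ i < N, f i < R) (x : ℕ) (hx : x < N) :
    La R N f / R ^ x % R = f x := by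
  obtain ⟨M, rfl⟩ : ∃ M, N = x + (M + 1) := ⟨N - x - 1, by omega⟩
  rw [La_div R x (M + 1) hR f (fun i hi => h i (by omega))]
  have h2 : La R (M + 1) (fun i => f (x + i)) = f x + R * La R M (fun i => f (x + 1 + i)) := by
    rw [add_comm M 1, La_append]
    have : La R 1 (fun i => f (x + i)) = f x := by
      rw [La_succ, La_zero, pow_zero, mul_one, zero_add, add_zero]
    rw [this, pow_one]
    congr 2
    exact La_congr fun i _ => by rw [add_assoc]
  rw [h2, Nat.add_mul_mod_self_left, Nat.mod_eq_of_lt (h x hx)]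

/-- equality of entries from equality of arrays -/
theorem La_inj (R N : ℕ) (hR : 0 < R) (f g : ℕ → ℕ) (hf : ∀ i < N, f i < R)
    (hg : ∀ i < N, g i < R) (h : La R N f = La R N g) (x : ℕ) (hx : x < N) : f x = g x := by
  rw [← La_get R N hR f hf x hx, ← La_get R N hR g hg x hx, h]

/-! ### masks -/

theorem land_split (r a b a' b' : ℕ) (ha : a < 2 ^ r) (ha' : a' < 2 ^ r) :
    (a + b * 2 ^ r) &&& (a' + b' * 2 ^ r) = (a &&& a') + (b &&& b') * 2 ^ r := by
  have h0 : a &&& a' < 2 ^ r := lt_of_le_of_lt Nat.and_le_left ha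
  have e : ∀ x y : ℕ, x < 2 ^ r → x + y * 2 ^ r = y <<< r ||| x := by
    intro x y hx
    rw [Nat.shiftLeft_eq, ← Nat.mul_comm (2 ^ r) y, Nat.add_comm,
      Nat.two_pow_add_eq_or_of_lt hx]
  rw [e _ _ ha, e _ _ ha', e _ _ h0]
  apply Nat.eq_of_testBit_eq
  intro i
  simp only [Nat.testBit_and, Nat.testBit_or, Nat.testBit_shiftLeft]
  by_cases hi : r ≤ i
  · have t : ∀ x, x < 2 ^ r → x.testBit i = false := fun x hx =>
      Nat.testBit_lt_two_pow (lt_of_lt_of_le hx (Nat.pow_le_pow_right (by norm_num) hi))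
    rw [t a ha, t a' ha']
    simp [hi]
  · simp [hi]

theorem La_land (r N : ℕ) (f g : ℕ → ℕ) (hf : ∀ i < N, f i < 2 ^ r) (hg : ∀ i < N, g i < 2 ^ r) :
    La (2 ^ r) N f &&& La (2 ^ r) N g = La (2 ^ r) N (fun i => f i &&& g i) := by
  induction N with
  | zero => simp [La_zero]
  | succ N ih =>
    rw [La_succ, La_succ, La_succ, ← ih (fun i hi => hf i (by omega)) (fun i hi => hg i (by omega)),
      ← pow_mul]
    apply land_split
    · rw [pow_mul]; exact La_lt _ _ f fun i hi => hf i (by omega)
    · rw [pow_mul]; exact La_lt _ _ g fun i hi => hg i (by omega)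

/-- full mask of a set of indices -/
def mk (r : ℕ) (P : ℕ → Prop) [DecidablePred P] (i : ℕ) : ℕ := if P i then 2 ^ r - 1 else 0

theorem La_mask (r N : ℕ) (f : ℕ → ℕ) (P : ℕ → Prop) [DecidablePred P]
    (hf : ∀ i < N, f i < 2 ^ r) :
    La (2 ^ r) N f &&& La (2 ^ r) N (mk r P) = La (2 ^ r) N (fun i => if P i then f i else 0) := by
  rw [La_land r N f _ hf]
  · refine La_congr fun i hi => ?_
    unfold mk
    split_ifs with h
    · rw [Nat.and_two_pow_sub_one_eq_mod, Nat.mod_eq_of_lt (hf i hi)]
    · exact Nat.and_zero _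
  · intro i _
    unfold mk
    have : 0 < 2 ^ r := by positivity
    split_ifs
    · omega
    · exact this

/-- masks may be longer than the array -/
theorem La_mask_le (r N M : ℕ) (f : ℕ → ℕ) (P : ℕ → Prop) [DecidablePred P]
    (hf : ∀ i < N, f i < 2 ^ r) :
    La (2 ^ r) N f &&& La (2 ^ r) (N + M) (mk r P) =
      La (2 ^ r) N (fun i => if P i then f i else 0) := by
  have h1 : La (2 ^ r) N f = La (2 ^ r) (N + M) (fun i => if i < N then f i else 0) := by
    rw [La_extend _ _ _ _ (fun i hi => if_neg (by omega))]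
    exact La_congr fun i hi => by rw [if_pos hi]
  rw [h1, La_mask]
  · have h2 : La (2 ^ r) (N + M) (fun i => if P i then (if i < N then f i else 0) else 0) =
        La (2 ^ r) N (fun i => if P i then (if i < N then f i else 0) else 0) := by
      apply La_extend
      intro i hi
      rw [if_neg (show ¬ i < N by omega), ite_self]
    rw [h2]
    exact La_congr fun i hi => by rw [if_pos hi]
  · intro i _
    have : 0 < 2 ^ r := by positivity
    split_ifs with h
    · exact hf i h
    · exact this

end Pool.Agent.Lib.MP_cfac74_al.Ch
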