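import Pool.Agent.Lib.MP_cfac74_al.Ch.SetL

/-!
# MP_cfac74_al : one extra decorated line
-/

set_option autoImplicit false
set_option linter.unusedSectionVars false

namespace Pool.Agent.Lib.MP_cfac74_al.Ch

open Finset Pool.Agent.Lib.MP_cfac74_al.Dec

section

variable {V L J : Type} [AddCommGroup V] [AddCommGroup L] [Fintype V] [Fintype L]
  [Module (ZMod 3) V] [Module (ZMod 3) L] [Fintype J]

/-- local factor of the extra line, `m' = 3 Q + 1` -/
def eL (Q : ℕ) (y y' : ZMod 3) : ℤ := (if y = 0 ∧ y' = 0 then 3 else 0) + (Q : ℤ)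

/-- forms of the product -/
def omL (ω : L → V → V → ZMod 3) (a : L) (x y : V × ZMod 3) : ZMod 3 := ω a x.1 y.1

/-- functionals of the product -/
def fL (f : J → V →+ ZMod 3) : Option J → (V × ZMod 3) →+ ZMod 3
  | none => AddMonoidHom.snd V (ZMod 3)
  | some j => (f j).comp (AddMonoidHom.fst V (ZMod 3))

/-- norms of the product -/
def mL (m : J → ℕ) (Q : ℕ) : Option J → ℕ
  | none => 3 * Q + 1
  | some j => m j

/-- restriction of a functional to the core -/
def resV (x : (V × ZMod 3) →+ ZMod 3) : V →+ ZMod 3 := x.comp (AddMonoidHom.inl V (ZMod 3))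

/-- restriction of a functional to the line -/
def resL (x : (V × ZMod 3) →+ ZMod 3) : ZMod 3 := x (0, 1)

theorem res_apply (x : (V × ZMod 3) →+ ZMod 3) (v : V) (u : ZMod 3) :
    x (v, u) = resV x v + resL x * u := by
  have h1 : ((v, u) : V × ZMod 3) = (v, 0) + u • (0, 1) := by
    rw [Prod.smul_mk, smul_zero, smul_eq_mul, mul_one, Prod.mk_add_mk, add_zero, zero_add]
  rw [h1, map_add, smul_hom, mul_comm u]
  rfl

theorem sum_line (Q : ℕ) (y y' : ZMod 3) :
    ∑ u : ZMod 3, ∑ u' : ZMod 3, (if u = 0 ∧ u' = 0 then ((3 * Q + 1 : ℕ) : ℂ) else 1) *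
      psi (y * u + y' * u') = 3 * ((eL Q y y' : ℤ) : ℂ) := by
  have h1 : ∀ u u' : ZMod 3, (if u = 0 ∧ u' = 0 then ((3 * Q + 1 : ℕ) : ℂ) else 1) *
      psi (y * u + y' * u') = psi (y * u) * psi (y' * u') +
        (if u = 0 then (if u' = 0 then (3 * Q : ℂ) else 0) else 0) := by
    intro u u'
    by_cases hu : u = 0 <;> by_cases hu' : u' = 0
    · rw [if_pos ⟨hu, hu'⟩, if_pos hu, if_pos hu', hu, hu', mul_zero, mul_zero, add_zero, psi_zero]
      push_cast; ring
    · rw [if_neg (fun h => hu' h.2), if_pos hu, if_neg hu', psi_add]; ring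
    · rw [if_neg (fun h => hu h.1), if_neg hu, psi_add]; ring
    · rw [if_neg (fun h => hu h.1), if_neg hu, psi_add]; ring
  have h2 : ∑ u : ZMod 3, ∑ u' : ZMod 3, (if u = 0 ∧ u' = 0 then ((3 * Q + 1 : ℕ) : ℂ) else 1) *
      psi (y * u + y' * u') = (∑ u : ZMod 3, psi (y * u)) * (∑ u' : ZMod 3, psi (y' * u')) +
        ∑ u : ZMod 3, ∑ u' : ZMod 3, (if u = 0 then (if u' = 0 then (3 * Q : ℂ) else 0) else 0) := by
    rw [Finset.sum_mul_sum, ← Finset.sum_add_distrib]
    refine Finset.sum_congr rfl fun u _ => ?_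
    rw [← Finset.sum_add_distrib]
    exact Finset.sum_congr rfl fun u' _ => h1 u u'
  have h3 : ∑ u : ZMod 3, ∑ u' : ZMod 3, (if u = 0 then (if u' = 0 then (3 * Q : ℂ) else 0) else 0)
      = 3 * Q := by
    rw [Finset.sum_eq_single (0 : ZMod 3)]
    · rw [Finset.sum_eq_single (0 : ZMod 3)]
      · simp
      · intro b _ hb; simp [hb]
      · intro h; exact absurd (Finset.mem_univ _) h
    · intro b _ hb; simp [hb]
    · intro h; exact absurd (Finset.mem_univ _) h
  rw [h2, h3, sum_psi, sum_psi]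
  unfold eL
  by_cases hy : y = 0 <;> by_cases hy' : y' = 0 <;> simp [hy, hy'] <;> ring

theorem hV_line (ω : L → V → V → ZMod 3) (f : J → V →+ ZMod 3) (m : J → ℕ) (Q : ℕ)
    (x x' : (V × ZMod 3) →+ ZMod 3) :
    hV (omL ω) (fL f) (mL m Q) x x' =
      hV ω f m (resV x) (resV x') * ((eL Q (resL x) (resL x') : ℤ) : ℂ) := by
  have hc : (Fintype.card (V × ZMod 3) : ℂ) = Fintype.card V * 3 := by
    rw [Fintype.card_prod, ZMod.card]; push_cast; rfl
  have h0 : (Fintype.card V : ℂ) ≠ 0 := Nat.cast_ne_zero.2 Fintype.card_ne_zero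
  have hw : ∀ p q : V × ZMod 3, wt (fL f) (mL m Q) p q =
      (if p.2 = 0 ∧ q.2 = 0 then ((3 * Q + 1 : ℕ) : ℂ) else 1) * wt f m p.1 q.1 := by
    intro p q
    unfold wt
    rw [Fintype.prod_option]
    rfl
  have h1 : ∀ a : L, ∑ p : V × ZMod 3, ∑ q : V × ZMod 3, wt (fL f) (mL m Q) p q *
      psi (omL ω a p q + x p + x' q) =
      (∑ v : V, ∑ v' : V, wt f m v v' * psi (ω a v v' + resV x v + resV x' v')) *
        (3 * ((eL Q (resL x) (resL x') : ℤ) : ℂ)) := by
    intro a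
    rw [← sum_line, Fintype.sum_prod_type, Finset.sum_mul_sum]
    refine Finset.sum_congr rfl fun v _ => ?_
    refine Finset.sum_congr rfl fun u _ => ?_
    rw [Fintype.sum_prod_type, Finset.sum_mul_sum]
    refine Finset.sum_congr rfl fun v' _ => ?_
    refine Finset.sum_congr rfl fun u' _ => ?_
    rw [hw, res_apply, res_apply]
    have e : omL ω a (v, u) (v', u') + (resV x v + resL x * u) + (resV x' v' + resL x' * u') =
        (ω a v v' + resV x v + resV x' v') + (resL x * u + resL x' * u') := by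
      unfold omL; ring
    rw [e, psi_add]
    ring
  unfold hV
  rw [Finset.sum_congr rfl fun a _ => h1 a, ← Finset.sum_mul, hc]
  field_simp

/-- the integer spectral function of the product -/
def HL (H : (V →+ ZMod 3) → (V →+ ZMod 3) → ℤ) (Q : ℕ) (x x' : (V × ZMod 3) →+ ZMod 3) : ℤ :=
  H (resV x) (resV x') * eL Q (resL x) (resL x')

/-- values of `N'` for a core with an extra decorated line -/
def TIntE (H : (V →+ ZMod 3) → (V →+ ZMod 3) → ℤ) (M : ℕ → ℕ) (Q s : ℕ) : Set ℤ :=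
  {z | ∃ (b b' : V →+ ZMod 3) (y y' : ZMod 3) (c c' : ℕ → ZMod 3 × ZMod 3),
    z = H 0 0 * ((Q : ℤ) + 3) * PP M s +
      8 * (∑ i : Fin 4, H ((lineC i).1 • b + (lineC i).2 • b') 0 *
        eL Q ((lineC i).1 * y + (lineC i).2 * y') 0 *
        ∏ j ∈ range s, hCz (M j) ((lineC i).1 • c j + (lineC i).2 • c' j) 0) -
      24 * (H b b' * eL Q y y' * ∏ j ∈ range s, hCz (M j) (c j) (c' j))}

/-- extension of a functional -/
def extF (b : V →+ ZMod 3) (y : ZMod 3) : (V × ZMod 3) →+ ZMod 3 :=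
  b.comp (AddMonoidHom.fst V (ZMod 3)) +
    ((AddMonoidHom.mulLeft y).comp (AddMonoidHom.snd V (ZMod 3)))

theorem resV_ext (b : V →+ ZMod 3) (y : ZMod 3) : resV (extF b y) = b := by
  refine DFunLike.ext _ _ fun v => ?_
  change b v + y * 0 = b v
  rw [mul_zero, add_zero]

theorem resL_ext (b : V →+ ZMod 3) (y : ZMod 3) : resL (extF b y) = y := by
  change b 0 + y * 1 = y
  rw [map_zero, zero_add, mul_one]

theorem resV_zero : resV (0 : (V × ZMod 3) →+ ZMod 3) = 0 := rfl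

theorem resL_zero : resL (0 : (V × ZMod 3) →+ ZMod 3) = 0 := rfl

theorem resV_comb (x x' : (V × ZMod 3) →+ ZMod 3) (α β : ZMod 3) :
    resV (α • x + β • x') = α • resV x + β • resV x' := rfl

theorem resL_comb (x x' : (V × ZMod 3) →+ ZMod 3) (α β : ZMod 3) :
    resL (α • x + β • x') = α * resL x + β * resL x' := rfl

theorem eL_zero (Q : ℕ) : eL Q 0 0 = (Q : ℤ) + 3 := by
  unfold eL; rw [if_pos ⟨rfl, rfl⟩]; ring

theorem NInt_line (H : (V →+ ZMod 3) → (V →+ ZMod 3) → ℤ) (M : ℕ → ℕ) (Q i : ℕ) {z : ℤ}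
    (h : z ∈ NInt H M i) : ((Q : ℤ) + 3) * z ∈ NInt (HL H Q) M i := by
  obtain ⟨β, βC, rfl⟩ := h
  refine ⟨extF β 0, βC, ?_⟩
  unfold HL
  rw [resV_ext, resL_ext, resV_zero, resL_zero, eL_zero]
  ring

theorem KInt_line (H : (V →+ ZMod 3) → (V →+ ZMod 3) → ℤ) (M : ℕ → ℕ) (Q s : ℕ) :
    ∀ {z : ℤ}, z ∈ KInt H M s → ((Q : ℤ) + 3) * z ∈ KInt (HL H Q) M s := by
  induction s with
  | zero =>
    intro z h
    have h' : z = H 0 0 := h
    change ((Q : ℤ) + 3) * z = HL H Q 0 0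
    unfold HL
    rw [resV_zero, resL_zero, eL_zero, h']; ring
  | succ s ih =>
    intro z h
    obtain ⟨K, hK, N, hN, h⟩ := h
    refine ⟨_, ih hK, _, NInt_line H M Q s hN, ?_⟩
    rw [h]; ring

theorem TInt_line (H : (V →+ ZMod 3) → (V →+ ZMod 3) → ℤ) (M : ℕ → ℕ) (Q s : ℕ) {z : ℤ}
    (h : z ∈ TIntE H M Q s) : z ∈ TInt (HL H Q) M s := by
  obtain ⟨b, b', y, y', c, c', rfl⟩ := h
  refine ⟨extF b y, extF b' y', c, c', ?_⟩
  unfold HL
  simp only [resV_comb, resL_comb, resV_ext, resL_ext, resV_zero, resL_zero, eL_zero]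

theorem TIntE_ext (H : (V →+ ZMod 3) → (V →+ ZMod 3) → ℤ) (M : ℕ → ℕ) (Q i : ℕ) {z : ℤ}
    (h : z ∈ TIntE H M Q i) : (3 * (M i : ℤ) + 8) * z ∈ TIntE H M Q (i + 1) := by
  obtain ⟨b, b', y, y', c, c', rfl⟩ := h
  refine ⟨b, b', y, y', Function.update c i 0, Function.update c' i 0, ?_⟩
  have h0 : ∀ l : ZMod 3 × ZMod 3, ∏ j ∈ range (i + 1),
      hCz (M j) (l.1 • Function.update c i 0 j + l.2 • Function.update c' i 0 j) 0 =
      (∏ j ∈ range i, hCz (M j) (l.1 • c j + l.2 • c' j) 0) * (3 * (M i : ℤ) + 8) := by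
    intro l
    rw [Finset.prod_range_succ, Function.update_self, Function.update_self, smul_zero, smul_zero,
      add_zero, hCz_zero]
    congr 1
    refine Finset.prod_congr rfl fun j hj => ?_
    rw [Function.update_of_ne (by have := Finset.mem_range.1 hj; omega),
      Function.update_of_ne (by have := Finset.mem_range.1 hj; omega)]
  rw [prod_update, hCz_zero, PP_succ]
  simp_rw [h0]
  rw [mul_sub, mul_add]
  congr 1
  · congr 1
    · ring
    · rw [Finset.mul_sum, Finset.mul_sum, Finset.mul_sum]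
      exact Finset.sum_congr rfl fun j _ => by ring
  · ring

/-- **the chain theorem with an extra decorated line** -/
theorem good_of_setsE (hV3 : Odd (Nat.card V))
    (ω : L → V → V → ZMod 3)
    (hL : ∀ a a' x y, ω (a + a') x y = ω a x y + ω a' x y)
    (hx : ∀ a x x' y, ω a (x + x') y = ω a x y + ω a x' y)
    (halt : ∀ a x y, ω a x y = - ω a y x)
    (f : J → V →+ ZMod 3) (m : J → ℕ) (hm : ∀ j, Nm (m j)) (h1 : ∀ j, m j % 3 = 1)
    (Hz : (V →+ ZMod 3) → (V →+ ZMod 3) → ℤ) (hz : ∀ x x', hV ω f m x x' = ((Hz x x' : ℤ) : ℂ))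
    (Q : ℕ) (hQ : Nm (3 * Q + 1))
    (s : ℕ) (hs : 0 < s) (M : ℕ → ℕ) (hM : ∀ i, i < s → Nm (M i)) (hM1 : ∀ i, i < s → M i % 3 = 1)
    {K N : ℤ} (hK : K ∈ KInt Hz M s) (hN : N ∈ TIntE Hz M Q s) (t : ℕ)
    (ht : 9 * (t : ℤ) = 9 * (((Q : ℤ) + 3) * K) + 2 * N) : Good t := by
  refine good_of_sets (V := V × ZMod 3) (L := L) (J := Option J) ?_ (omL ω) ?_ ?_ ?_ (fL f)
    (mL m Q) ?_ ?_ (HL Hz Q) ?_ s hs M hM hM1 (KInt_line Hz M Q s hK) (TInt_line Hz M Q s hN) t ht
  · rw [Nat.card_prod, Nat.card_zmod]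
    exact hV3.mul (by decide)
  · intro a a' x y; exact hL _ _ _ _
  · intro a x x' y; exact hx _ _ _ _
  · intro a x y; exact halt _ _ _
  · rintro (_ | j)
    · exact hQ
    · exact hm j
  · rintro (_ | j)
    · change (3 * Q + 1) % 3 = 1
      omega
    · exact h1 j
  · intro x x'
    rw [hV_line, hz]
    unfold HL
    push_cast
    rfl

end

end Pool.Agent.Lib.MP_cfac74_al.Ch
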