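import Pool.Agent.Lib.MP_cfac74_al.Ch.Chain
import Pool.Agent.Lib.MP_cfac74_al.Ch.HC

/-!
# MP_cfac74_al : GL2-invariance of the spectral functions, evaluation of `NN` and `NT`
-/

set_option autoImplicit false
set_option linter.unusedSectionVars false

namespace Pool.Agent.Lib.MP_cfac74_al.Ch

open Finset Pool.Agent.Lib.MP_cfac74_al.Dec

theorem cc_mul (a x : ZMod 3) (ha : a ≠ 0) : cc (a * x) = cc x := by
  unfold cc
  by_cases hx : x = 0
  · rw [hx, mul_zero]
  · rw [if_neg hx, if_neg (mul_ne_zero ha hx)]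

/-- vanishing of a pair is invariant under invertible substitutions -/
theorem pair_zero_iff {V : Type} [AddCommGroup V] [Module (ZMod 3) V] (α β γ δ : ZMod 3)
    (hD : α * δ - β * γ ≠ 0) (x y : V) :
    (α • x + γ • y = 0 ∧ β • x + δ • y = 0) ↔ (x = 0 ∧ y = 0) := by
  constructor
  · rintro ⟨h1, h2⟩
    have e1 : (α * δ - β * γ) • x = 0 := by
      have : δ • (α • x + γ • y) - γ • (β • x + δ • y) = (α * δ - β * γ) • x := by module
      rw [← this, h1, h2, smul_zero, smul_zero, sub_zero]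
    have e2 : (α * δ - β * γ) • y = 0 := by
      have : α • (β • x + δ • y) - β • (α • x + γ • y) = (α * δ - β * γ) • y := by module
      rw [← this, h1, h2, smul_zero, smul_zero, sub_zero]
    exact ⟨(smul_eq_zero.1 e1).resolve_left hD, (smul_eq_zero.1 e2).resolve_left hD⟩
  · rintro ⟨rfl, rfl⟩
    simp

/-- GL2-invariance of the planes -/
theorem hC_gl2 (M : ℕ) (α β γ δ : ZMod 3) (hD : α * δ - β * γ ≠ 0) (p q : ZMod 3 × ZMod 3) :
    hC M (α • p + γ • q) (β • p + δ • q) = hC M p q := by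
  rw [hC_val, hC_val]
  congr 1
  unfold hCz
  have e1 : J2 (α • p + γ • q) (β • p + δ • q) = (α * δ - β * γ) * J2 p q := by
    simp only [J2, Prod.fst_add, Prod.snd_add, Prod.smul_fst, Prod.smul_snd, smul_eq_mul]; ring
  rw [e1, cc_mul _ _ hD]
  have e2 : ((α • p + γ • q).2 = 0 ∧ (β • p + δ • q).2 = 0) ↔ (p.2 = 0 ∧ q.2 = 0) :=
    pair_zero_iff α β γ δ hD p.2 q.2
  rw [if_congr e2 rfl rfl, if_congr (pair_zero_iff α β γ δ hD p q) rfl rfl]

section

variable {V L J : Type} [AddCommGroup V] [AddCommGroup L] [Fintype V] [Fintype L]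
  [Module (ZMod 3) V] [Module (ZMod 3) L] [Fintype J]

theorem smul_hom (u : ZMod 3) (x : V →+ ZMod 3) (v : V) : x (u • v) = u * x v := by
  have hall : ∀ u : ZMod 3, u = 0 ∨ u = 1 ∨ u = 2 := by decide
  rcases hall u with rfl | rfl | rfl
  · rw [zero_smul, map_zero, zero_mul]
  · rw [one_smul, one_mul]
  · have : (2 : ZMod 3) • v = v + v := two_smul _ v
    rw [this, map_add]; ring

theorem form_smul (ω : V → V → ZMod 3) (hx : ∀ x x' y, ω (x + x') y = ω x y + ω x' y)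
    (u : ZMod 3) (x y : V) : ω (u • x) y = u * ω x y :=
  smul_hom u (AddMonoidHom.mk' (fun x => ω x y) (fun x x' => hx x x' y)) x

/-- substitution as an equivalence of `V × V` -/
def gl2Equiv (V : Type) [AddCommGroup V] [Module (ZMod 3) V] (α β γ δ : ZMod 3)
    (hD : α * δ - β * γ ≠ 0) : (V × V) ≃ (V × V) where
  toFun p := (α • p.1 + β • p.2, γ • p.1 + δ • p.2)
  invFun p := ((α * δ - β * γ)⁻¹ • (δ • p.1 - β • p.2), (α * δ - β * γ)⁻¹ • (α • p.2 - γ • p.1))
  left_inv p := by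
    refine Prod.ext ?_ ?_
    · change (α * δ - β * γ)⁻¹ • (δ • (α • p.1 + β • p.2) - β • (γ • p.1 + δ • p.2)) = p.1
      have : δ • (α • p.1 + β • p.2) - β • (γ • p.1 + δ • p.2) = (α * δ - β * γ) • p.1 := by
        module
      rw [this, smul_smul, inv_mul_cancel₀ hD, one_smul]
    · change (α * δ - β * γ)⁻¹ • (α • (γ • p.1 + δ • p.2) - γ • (α • p.1 + β • p.2)) = p.2
      have : α • (γ • p.1 + δ • p.2) - γ • (α • p.1 + β • p.2) = (α * δ - β * γ) • p.2 := by
        module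
      rw [this, smul_smul, inv_mul_cancel₀ hD, one_smul]
  right_inv p := by
    set D := α * δ - β * γ with hDD
    refine Prod.ext ?_ ?_
    · change α • (D⁻¹ • (δ • p.1 - β • p.2)) + β • (D⁻¹ • (α • p.2 - γ • p.1)) = p.1
      have : α • (D⁻¹ • (δ • p.1 - β • p.2)) + β • (D⁻¹ • (α • p.2 - γ • p.1)) =
          (D⁻¹ * (α * δ - β * γ)) • p.1 := by module
      rw [this, ← hDD, inv_mul_cancel₀ hD, one_smul]
    · change γ • (D⁻¹ • (δ • p.1 - β • p.2)) + δ • (D⁻¹ • (α • p.2 - γ • p.1)) = p.2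
      have : γ • (D⁻¹ • (δ • p.1 - β • p.2)) + δ • (D⁻¹ • (α • p.2 - γ • p.1)) =
          (D⁻¹ * (α * δ - β * γ)) • p.2 := by module
      rw [this, ← hDD, inv_mul_cancel₀ hD, one_smul]

/-- GL2-invariance of the core -/
theorem hV_gl2 (ω : L → V → V → ZMod 3)
    (hL : ∀ a a' x y, ω (a + a') x y = ω a x y + ω a' x y)
    (hx : ∀ a x x' y, ω a (x + x') y = ω a x y + ω a x' y)
    (halt : ∀ a x y, ω a x y = - ω a y x)
    (f : J → V →+ ZMod 3) (m : J → ℕ) (α β γ δ : ZMod 3) (hD : α * δ - β * γ ≠ 0)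
    (x x' : V →+ ZMod 3) :
    hV ω f m (α • x + γ • x') (β • x + δ • x') = hV ω f m x x' := by
  set D := α * δ - β * γ with hDD
  have hself : ∀ a v, ω a v v = 0 := by
    intro a v
    have h := halt a v v
    have h2 : ∀ z : ZMod 3, z = -z → z = 0 := by decide
    exact h2 _ h
  have hy : ∀ a x y y', ω a x (y + y') = ω a x y + ω a x y' := by
    intro a x y y'
    rw [halt, hx, halt a y x, halt a y' x]; ring
  have hsm : ∀ u a x y, ω (u • a) x y = u * ω a x y := by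
    intro u a x y
    have hall : ∀ u : ZMod 3, u = 0 ∨ u = 1 ∨ u = 2 := by decide
    have h0 : ω 0 x y = 0 := by
      have := hL 0 0 x y
      rw [add_zero] at this
      simpa using this
    rcases hall u with rfl | rfl | rfl
    · rw [zero_smul, h0, zero_mul]
    · rw [one_smul, one_mul]
    · have : (2 : ZMod 3) • a = a + a := two_smul _ a
      rw [this, hL]; ring
  have key : ∀ a (v v' : V), ω a (α • v + β • v') (γ • v + δ • v') = D * ω a v v' := by
    intro a v v'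
    rw [hx, hy, hy, form_smul (ω a) (hx a), form_smul (ω a) (hx a), form_smul (ω a) (hx a),
      form_smul (ω a) (hx a)]
    have e1 : ∀ u x y, ω a x (u • y) = u * ω a x y := by
      intro u x y
      rw [halt, form_smul (ω a) (hx a), halt a y x]; ring
    rw [e1, e1, e1, e1, hself, hself, halt a v' v, hDD]; ring
  have hwt : ∀ v v' : V, wt f m (α • v + β • v') (γ • v + δ • v') = wt f m v v' := by
    intro v v'
    unfold wt
    refine Finset.prod_congr rfl fun j _ => if_congr ?_ rfl rfl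
    rw [map_add, map_add, smul_hom, smul_hom, smul_hom, smul_hom]
    exact pair_zero_iff α γ β δ (by rw [mul_comm γ β]; exact hD) (f j v) (f j v')
  unfold hV
  congr 1
  -- substitute in the sum over `a` and over the pair
  have e0 : ∀ y y' : V →+ ZMod 3, ∑ a : L, ∑ v : V, ∑ v' : V, wt f m v v' *
      psi (ω a v v' + y v + y' v') = ∑ a : L, ∑ p : V × V, wt f m p.1 p.2 *
      psi (ω a p.1 p.2 + y p.1 + y' p.2) := by
    intro y y'
    exact Finset.sum_congr rfl fun a _ => (Fintype.sum_prod_type' (fun v v' : V => wt f m v v' *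
      psi (ω a v v' + y v + y' v'))).symm
  rw [e0, e0]
  have hDinv : D⁻¹ ≠ 0 := inv_ne_zero hD
  let E : L ≃ L :=
    { toFun := fun a => D • a
      invFun := fun a => D⁻¹ • a
      left_inv := fun a => by
        change D⁻¹ • (D • a) = a
        rw [smul_smul, inv_mul_cancel₀ hD, one_smul]
      right_inv := fun a => by
        change D • (D⁻¹ • a) = a
        rw [smul_smul, mul_inv_cancel₀ hD, one_smul] }
  rw [← Equiv.sum_comp E]
  refine Finset.sum_congr rfl fun a _ => ?_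
  conv_rhs => rw [← Equiv.sum_comp (gl2Equiv V α β γ δ hD)]
  refine Finset.sum_congr rfl fun p _ => ?_
  have e1 : gl2Equiv V α β γ δ hD p = (α • p.1 + β • p.2, γ • p.1 + δ • p.2) := rfl
  rw [e1]
  change wt f m p.1 p.2 * psi (ω (D • a) p.1 p.2 + _ + _) =
    wt f m (α • p.1 + β • p.2) (γ • p.1 + δ • p.2) *
      psi (ω a (α • p.1 + β • p.2) (γ • p.1 + δ • p.2) + x (α • p.1 + β • p.2) +
        x' (γ • p.1 + δ • p.2))
  rw [hwt, key, hsm]
  congr 2
  have e2 : (α • x + γ • x') p.1 = α * x p.1 + γ * x' p.1 := rfl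
  have e3 : (β • x + δ • x') p.2 = β * x p.2 + δ * x' p.2 := rfl
  rw [e2, e3, map_add, map_add, smul_hom, smul_hom, smul_hom, smul_hom]; ring

/-- invariance of a spectral function under GL2 -/
def GLinv (H : (V →+ ZMod 3) → (V →+ ZMod 3) → ℂ) : Prop :=
  ∀ α β γ δ : ZMod 3, α * δ - β * γ ≠ 0 → ∀ x x' : V →+ ZMod 3,
    H (α • x + γ • x') (β • x + δ • x') = H x x'

theorem hV_GLinv (ω : L → V → V → ZMod 3)
    (hL : ∀ a a' x y, ω (a + a') x y = ω a x y + ω a' x y)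
    (hx : ∀ a x x' y, ω a (x + x') y = ω a x y + ω a x' y)
    (halt : ∀ a x y, ω a x y = - ω a y x)
    (f : J → V →+ ZMod 3) (m : J → ℕ) : GLinv (hV ω f m) :=
  fun α β γ δ hD x x' => hV_gl2 ω hL hx halt f m α β γ δ hD x x'

theorem GLinv.line {H : (V →+ ZMod 3) → (V →+ ZMod 3) → ℂ} (hH : GLinv H) (u u' : ZMod 3)
    (hu : ¬ (u = 0 ∧ u' = 0)) (x : V →+ ZMod 3) : H (u • x) (u' • x) = H x 0 := by
  by_cases h : u = 0
  · have hu' : u' ≠ 0 := fun h' => hu ⟨h, h'⟩
    have := hH u u' 1 0 (by rw [h]; simpa using hu') x 0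
    rw [smul_zero, smul_zero, add_zero, add_zero] at this
    exact this
  · have := hH u u' 0 1 (by simpa using h) x 0
    rw [smul_zero, smul_zero, add_zero, add_zero] at this
    exact this

theorem hC_line (M : ℕ) (u u' : ZMod 3) (hu : ¬ (u = 0 ∧ u' = 0)) (p : ZMod 3 × ZMod 3) :
    hC M (u • p) (u' • p) = hC M p 0 := by
  by_cases h : u = 0
  · have hu' : u' ≠ 0 := fun h' => hu ⟨h, h'⟩
    have := hC_gl2 M u u' 1 0 (by rw [h]; simpa using hu') p 0
    rw [smul_zero, smul_zero, add_zero, add_zero] at this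
    exact this
  · have := hC_gl2 M u u' 0 1 (by simpa using h) p 0
    rw [smul_zero, smul_zero, add_zero, add_zero] at this
    exact this

theorem hC_zero (M : ℕ) : hC M 0 0 = 3 * (M : ℂ) + 8 := by
  rw [hC_val]
  unfold hCz
  have : cc (J2 0 0) = 2 := by decide
  rw [this, if_pos ⟨rfl, rfl⟩, if_pos ⟨rfl, rfl⟩]
  push_cast; ring

/-- **value of `N_i`** -/
theorem NN_val {H : (V →+ ZMod 3) → (V →+ ZMod 3) → ℂ} (hH : GLinv H) (M : ℕ → ℕ)
    (β : V →+ ZMod 3) (βC : ℕ → ZMod 3 × ZMod 3) (i : ℕ) :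
    NN H M β βC i = H 0 0 * (∏ j ∈ range i, (3 * (M j : ℂ) + 8)) +
      8 * (H β 0 * ∏ j ∈ range i, hC (M j) (βC j) 0) := by
  unfold NN
  rw [← Fintype.sum_prod_type' (fun u u' : ZMod 3 => H (u • β) (u' • β) *
    ∏ j ∈ range i, hC (M j) (u • βC j) (u' • βC j)),
    ← Finset.add_sum_erase _ _ (Finset.mem_univ (0 : ZMod 3 × ZMod 3))]
  congr 1
  · have e1 : H ((0 : ZMod 3 × ZMod 3).1 • β) ((0 : ZMod 3 × ZMod 3).2 • β) = H 0 0 := by
      change H ((0 : ZMod 3) • β) ((0 : ZMod 3) • β) = H 0 0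
      rw [zero_smul]
    rw [e1]
    refine congrArg (fun z => H 0 0 * z) (Finset.prod_congr rfl fun j _ => ?_)
    have : hC (M j) ((0 : ZMod 3 × ZMod 3).1 • βC j) ((0 : ZMod 3 × ZMod 3).2 • βC j) =
        hC (M j) 0 0 := by
      change hC (M j) ((0 : ZMod 3) • βC j) ((0 : ZMod 3) • βC j) = _
      rw [zero_smul]
    rw [this, hC_zero]
  · have e1 : ∀ u ∈ Finset.univ.erase (0 : ZMod 3 × ZMod 3), H (u.1 • β) (u.2 • β) *
        ∏ j ∈ range i, hC (M j) (u.1 • βC j) (u.2 • βC j) =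
        H β 0 * ∏ j ∈ range i, hC (M j) (βC j) 0 := by
      intro u hu
      have hu2 : ¬ (u.1 = 0 ∧ u.2 = 0) := fun h =>
        (Finset.mem_erase.1 hu).1 (Prod.ext h.1 h.2)
      rw [hH.line u.1 u.2 hu2]
      exact congrArg (fun z => H β 0 * z)
        (Finset.prod_congr rfl fun j _ => hC_line (M j) u.1 u.2 hu2 (βC j))
    rw [Finset.sum_congr rfl e1, Finset.sum_const, Finset.card_erase_of_mem (Finset.mem_univ _),
      nsmul_eq_mul]
    have : (Finset.univ : Finset (ZMod 3 × ZMod 3)).card = 9 := by decide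
    rw [this]; norm_num

/-- coefficients of the four lines -/
def lineC : Fin 4 → ZMod 3 × ZMod 3
  | 0 => (1, 0)
  | 1 => (0, 1)
  | 2 => (1, 1)
  | 3 => (1, 2)

/-- **value of `N'`** -/
theorem NT_val {H : (V →+ ZMod 3) → (V →+ ZMod 3) → ℂ} (hH : GLinv H) (M : ℕ → ℕ)
    (b b' : V →+ ZMod 3) (c c' : ℕ → ZMod 3 × ZMod 3) (s : ℕ) :
    NT H M b b' c c' s = H 0 0 * (∏ j ∈ range s, (3 * (M j : ℂ) + 8)) +
      8 * (∑ i : Fin 4, H ((lineC i).1 • b + (lineC i).2 • b') 0 *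
        ∏ j ∈ range s, hC (M j) ((lineC i).1 • c j + (lineC i).2 • c' j) 0) -
      24 * (H b b' * ∏ j ∈ range s, hC (M j) (c j) (c' j)) := by
  unfold NT
  set Y : (ZMod 3 × ZMod 3) → (ZMod 3 × ZMod 3) → ℂ := fun p q =>
    H (p.1 • b + p.2 • b') (q.1 • b + q.2 • b') *
      ∏ j ∈ range s, hC (M j) (p.1 • c j + p.2 • c' j) (q.1 • c j + q.2 • c' j) with hY
  have h0 : ∑ p : ZMod 3 × ZMod 3, ∑ q : ZMod 3 × ZMod 3,
      psi (-(J2 p q)) * H (p.1 • b + p.2 • b') (q.1 • b + q.2 • b') *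
      ∏ j ∈ range s, hC (M j) (p.1 • c j + p.2 • c' j) (q.1 • c j + q.2 • c' j) =
      ∑ pq : (ZMod 3 × ZMod 3) × (ZMod 3 × ZMod 3), psi (-(J2 pq.1 pq.2)) * Y pq.1 pq.2 := by
    rw [Fintype.sum_prod_type (α₁ := ZMod 3 × ZMod 3) (α₂ := ZMod 3 × ZMod 3)]
    refine Finset.sum_congr rfl fun p _ => Finset.sum_congr rfl fun q _ => ?_
    simp only [hY]; ring
  rw [h0]
  -- values of `Y`
  have y0 : Y 0 0 = H 0 0 * (∏ j ∈ range s, (3 * (M j : ℂ) + 8)) := by
    have e1 : H ((0 : ZMod 3 × ZMod 3).1 • b + (0 : ZMod 3 × ZMod 3).2 • b')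
        ((0 : ZMod 3 × ZMod 3).1 • b + (0 : ZMod 3 × ZMod 3).2 • b') = H 0 0 := by
      change H ((0 : ZMod 3) • b + (0 : ZMod 3) • b') ((0 : ZMod 3) • b + (0 : ZMod 3) • b') = _
      rw [zero_smul, zero_smul, add_zero]
    simp only [hY]
    rw [e1]
    refine congrArg (fun z => H 0 0 * z) (Finset.prod_congr rfl fun j _ => ?_)
    have : hC (M j) ((0 : ZMod 3 × ZMod 3).1 • c j + (0 : ZMod 3 × ZMod 3).2 • c' j)
        ((0 : ZMod 3 × ZMod 3).1 • c j + (0 : ZMod 3 × ZMod 3).2 • c' j) = hC (M j) 0 0 := by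
      change hC (M j) ((0 : ZMod 3) • c j + (0 : ZMod 3) • c' j)
        ((0 : ZMod 3) • c j + (0 : ZMod 3) • c' j) = _
      rw [zero_smul, zero_smul, add_zero]
    rw [this, hC_zero]
  have yline : ∀ (u u' : ZMod 3) (l : ZMod 3 × ZMod 3), ¬ (u = 0 ∧ u' = 0) →
      Y (u • l) (u' • l) = H (l.1 • b + l.2 • b') 0 *
        ∏ j ∈ range s, hC (M j) (l.1 • c j + l.2 • c' j) 0 := by
    intro u u' l hu
    simp only [hY]
    have e1 : (u • l).1 • b + (u • l).2 • b' = u • (l.1 • b + l.2 • b') := by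
      rw [smul_add, smul_smul, smul_smul]; rfl
    have e2 : (u' • l).1 • b + (u' • l).2 • b' = u' • (l.1 • b + l.2 • b') := by
      rw [smul_add, smul_smul, smul_smul]; rfl
    rw [e1, e2, hH.line u u' hu]
    refine congrArg (fun z => H (l.1 • b + l.2 • b') 0 * z) (Finset.prod_congr rfl fun j _ => ?_)
    have e3 : (u • l).1 • c j + (u • l).2 • c' j = u • (l.1 • c j + l.2 • c' j) := by
      rw [smul_add, smul_smul, smul_smul]; rfl
    have e4 : (u' • l).1 • c j + (u' • l).2 • c' j = u' • (l.1 • c j + l.2 • c' j) := by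
      rw [smul_add, smul_smul, smul_smul]; rfl
    rw [e3, e4, hC_line _ u u' hu]
  have yfull : ∀ p q : ZMod 3 × ZMod 3, J2 p q ≠ 0 →
      Y p q = H b b' * ∏ j ∈ range s, hC (M j) (c j) (c' j) := by
    intro p q hpq
    simp only [hY]
    have hD : p.1 * q.2 - q.1 * p.2 ≠ 0 := by
      intro h; apply hpq; simp only [J2]; rw [← h]; ring
    rw [hH p.1 q.1 p.2 q.2 hD b b']
    exact congrArg (fun z => H b b' * z)
      (Finset.prod_congr rfl fun j _ => hC_gl2 (M j) p.1 q.1 p.2 q.2 hD (c j) (c' j))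
  -- decomposition of the sum
  set S : Finset ((ZMod 3 × ZMod 3) × (ZMod 3 × ZMod 3)) :=
    Finset.univ.filter (fun pq => J2 pq.1 pq.2 = 0) with hS
  rw [← Finset.sum_filter_add_sum_filter_not Finset.univ
    (fun pq : (ZMod 3 × ZMod 3) × (ZMod 3 × ZMod 3) => J2 pq.1 pq.2 = 0)]
  have hdecS : (Finset.univ.filter (fun pq : (ZMod 3 × ZMod 3) × (ZMod 3 × ZMod 3) =>
      J2 pq.1 pq.2 = 0)) = {(0, 0)} ∪ (Finset.univ : Finset (Fin 4)).biUnion (fun i =>
        ((Finset.univ : Finset (ZMod 3 × ZMod 3)).erase 0).image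
          (fun u => (u.1 • lineC i, u.2 • lineC i))) := by decide
  have hfull : ∑ pq ∈ Finset.univ.filter (fun pq : (ZMod 3 × ZMod 3) × (ZMod 3 × ZMod 3) =>
      ¬ J2 pq.1 pq.2 = 0), psi (-(J2 pq.1 pq.2)) * Y pq.1 pq.2 =
      - 24 * (H b b' * ∏ j ∈ range s, hC (M j) (c j) (c' j)) := by
    have e1 : ∀ pq ∈ Finset.univ.filter (fun pq : (ZMod 3 × ZMod 3) × (ZMod 3 × ZMod 3) =>
      ¬ J2 pq.1 pq.2 = 0), psi (-(J2 pq.1 pq.2)) * Y pq.1 pq.2 =
        psi (-(J2 pq.1 pq.2)) * (H b b' * ∏ j ∈ range s, hC (M j) (c j) (c' j)) := by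
      intro pq hpq
      rw [yfull _ _ (Finset.mem_filter.1 hpq).2]
    rw [Finset.sum_congr rfl e1, ← Finset.sum_mul]
    congr 1
    -- sum of psi over pairs with nonzero determinant
    have e2 : ∑ pq ∈ Finset.univ.filter (fun pq : (ZMod 3 × ZMod 3) × (ZMod 3 × ZMod 3) =>
      ¬ J2 pq.1 pq.2 = 0), psi (-(J2 pq.1 pq.2)) =
      ∑ pq : (ZMod 3 × ZMod 3) × (ZMod 3 × ZMod 3), psi (-(J2 pq.1 pq.2)) -
      ∑ pq ∈ Finset.univ.filter (fun pq : (ZMod 3 × ZMod 3) × (ZMod 3 × ZMod 3) =>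
        J2 pq.1 pq.2 = 0), psi (-(J2 pq.1 pq.2)) := by
      rw [← Finset.sum_filter_add_sum_filter_not Finset.univ
        (fun pq : (ZMod 3 × ZMod 3) × (ZMod 3 × ZMod 3) => J2 pq.1 pq.2 = 0)
        (fun pq => psi (-(J2 pq.1 pq.2)))]
      ring
    have e3 : ∑ pq ∈ Finset.univ.filter (fun pq : (ZMod 3 × ZMod 3) × (ZMod 3 × ZMod 3) =>
        J2 pq.1 pq.2 = 0), psi (-(J2 pq.1 pq.2)) = 33 := by
      have : ∀ pq ∈ Finset.univ.filter (fun pq : (ZMod 3 × ZMod 3) × (ZMod 3 × ZMod 3) =>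
        J2 pq.1 pq.2 = 0), psi (-(J2 pq.1 pq.2)) = 1 := by
        intro pq hpq
        rw [(Finset.mem_filter.1 hpq).2, neg_zero, psi_zero]
      rw [Finset.sum_congr rfl this, Finset.sum_const]
      have h33 : (Finset.univ.filter (fun pq : (ZMod 3 × ZMod 3) × (ZMod 3 × ZMod 3) =>
        J2 pq.1 pq.2 = 0)).card = 33 := by decide
      rw [h33, nsmul_eq_mul]; norm_num
    have e4 : ∑ pq : (ZMod 3 × ZMod 3) × (ZMod 3 × ZMod 3), psi (-(J2 pq.1 pq.2)) = 9 := by
      have := psi_J2 0 0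
      have h5 : ∀ p q : ZMod 3 × ZMod 3, psi (-(J2 p q)) * psi (dot p 0 + dot q 0) =
          psi (-(J2 p q)) := by
        intro p q
        have : dot p 0 + dot q 0 = 0 := by simp [dot]
        rw [this, psi_zero, mul_one]
      simp_rw [h5] at this
      rw [Fintype.sum_prod_type, this]
      have : J2 (0 : ZMod 3 × ZMod 3) 0 = 0 := by decide
      rw [this, psi_zero, mul_one]
    rw [e2, e3, e4]; norm_num
  have hzero : ∑ pq ∈ Finset.univ.filter (fun pq : (ZMod 3 × ZMod 3) × (ZMod 3 × ZMod 3) =>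
      J2 pq.1 pq.2 = 0), psi (-(J2 pq.1 pq.2)) * Y pq.1 pq.2 =
      H 0 0 * (∏ j ∈ range s, (3 * (M j : ℂ) + 8)) +
      8 * (∑ i : Fin 4, H ((lineC i).1 • b + (lineC i).2 • b') 0 *
        ∏ j ∈ range s, hC (M j) ((lineC i).1 • c j + (lineC i).2 • c' j) 0) := by
    have e1 : ∑ pq ∈ Finset.univ.filter (fun pq : (ZMod 3 × ZMod 3) × (ZMod 3 × ZMod 3) =>
        J2 pq.1 pq.2 = 0), psi (-(J2 pq.1 pq.2)) * Y pq.1 pq.2 =
        ∑ pq ∈ Finset.univ.filter (fun pq : (ZMod 3 × ZMod 3) × (ZMod 3 × ZMod 3) =>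
        J2 pq.1 pq.2 = 0), Y pq.1 pq.2 := by
      refine Finset.sum_congr rfl fun pq hpq => ?_
      rw [(Finset.mem_filter.1 hpq).2, neg_zero, psi_zero, one_mul]
    rw [e1, hdecS, Finset.sum_union (by decide), Finset.sum_singleton, y0]
    congr 1
    rw [Finset.sum_biUnion (by
      intro i _ j _ hij
      change Disjoint _ _
      revert i j
      decide), Finset.mul_sum]
    refine Finset.sum_congr rfl fun i _ => ?_
    rw [Finset.sum_image (by
      intro u hu v hv huv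
      revert i u v
      decide)]
    have e2 : ∀ u ∈ (Finset.univ : Finset (ZMod 3 × ZMod 3)).erase 0,
        Y (u.1 • lineC i) (u.2 • lineC i) = H ((lineC i).1 • b + (lineC i).2 • b') 0 *
        ∏ j ∈ range s, hC (M j) ((lineC i).1 • c j + (lineC i).2 • c' j) 0 := by
      intro u hu
      have hu2 : ¬ (u.1 = 0 ∧ u.2 = 0) := fun h =>
        (Finset.mem_erase.1 hu).1 (Prod.ext h.1 h.2)
      exact yline u.1 u.2 (lineC i) hu2
    rw [Finset.sum_congr rfl e2, Finset.sum_const, nsmul_eq_mul]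
    have : ((Finset.univ : Finset (ZMod 3 × ZMod 3)).erase 0).card = 8 := by decide
    rw [this]; norm_num
  rw [hzero, hfull]; ring

end

end Pool.Agent.Lib.MP_cfac74_al.Ch
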