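import Pool.Agent.Lib.MP_cfac74_al.Ch.Ysum

/-!
# MP_cfac74_al : the sums over the planes of the chain
-/

set_option autoImplicit false

namespace Pool.Agent.Lib.MP_cfac74_al.Ch

open Finset Pool.Agent.Lib.MP_cfac74_al.Dec

/-- the planes part for top index `i` -/
theorem plane_top {s : ℕ} (M : ℕ → ℕ) (i : Fin s) (p q : ℕ → ZMod 3 × ZMod 3) :
    ∑ a : Fin s → ZMod 3, ∑ c : Fin s → ZMod 3 × ZMod 3, ∑ d : Fin s → ZMod 3 × ZMod 3,
      (if a i ≠ 0 ∧ ∀ j : Fin s, i < j → a j = 0 then (1 : ℂ) else 0) *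
        ((∏ j : Fin s, cw (M j) (c j) (d j)) * (psi (∑ j, a j * J2 (c j) (d j)) *
          psi (∑ j : Fin s, if j.1 < i.1 then dot (p j) (c j) + dot (q j) (d j) else 0))) =
      (∏ j ∈ range i.1, 9 * hC (M j) (p j) (q j)) * (18 * (M i.1 : ℂ)) *
        ∏ j ∈ Ico (i.1 + 1) s, 9 * ((M j : ℂ) + 8) := by
  classical
  set τ : ℕ → ZMod 3 → ℂ := fun j x => if j < i.1 then 1 else
    if j = i.1 then (if x ≠ 0 then 1 else 0) else (if x = 0 then 1 else 0) with hτ
  set φ : ℕ → ZMod 3 → ZMod 3 × ZMod 3 → ZMod 3 × ZMod 3 → ℂ := fun j x c d =>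
    τ j x * (cw (M j) c d * (psi (x * J2 c d) *
      psi (if j < i.1 then dot (p j) c + dot (q j) d else 0))) with hφ
  have h0 : ∀ a : Fin s → ZMod 3, (if a i ≠ 0 ∧ ∀ j : Fin s, i < j → a j = 0 then (1 : ℂ)
      else 0) = ∏ j : Fin s, τ j (a j) := by
    intro a
    by_cases h : a i ≠ 0 ∧ ∀ j : Fin s, i < j → a j = 0
    · rw [if_pos h]
      symm
      refine Finset.prod_eq_one fun j _ => ?_
      simp only [hτ]
      rcases lt_trichotomy j.1 i.1 with h1 | h1 | h1
      · rw [if_pos h1]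
      · rw [if_neg (by omega), if_pos h1]
        have : j = i := Fin.ext h1
        rw [this, if_pos h.1]
      · rw [if_neg (by omega), if_neg (by omega), if_pos (h.2 j h1)]
    · rw [if_neg h]
      symm
      rw [Finset.prod_eq_zero_iff]
      by_cases h1 : a i ≠ 0
      · have h2 : ∃ j : Fin s, i < j ∧ a j ≠ 0 := by
          by_contra hcon
          push Not at hcon
          exact h ⟨h1, hcon⟩
        obtain ⟨j, hj, hj2⟩ := h2
        refine ⟨j, Finset.mem_univ _, ?_⟩
        rw [Fin.lt_def] at hj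
        simp only [hτ]
        rw [if_neg (by omega), if_neg (by omega), if_neg hj2]
      · refine ⟨i, Finset.mem_univ _, ?_⟩
        simp only [hτ]
        rw [if_neg (by omega), if_pos trivial, if_neg h1]
  have h1 : ∀ (a : Fin s → ZMod 3) (c d : Fin s → ZMod 3 × ZMod 3),
      (if a i ≠ 0 ∧ ∀ j : Fin s, i < j → a j = 0 then (1 : ℂ) else 0) *
        ((∏ j : Fin s, cw (M j) (c j) (d j)) * (psi (∑ j, a j * J2 (c j) (d j)) *
          psi (∑ j : Fin s, if j.1 < i.1 then dot (p j) (c j) + dot (q j) (d j) else 0))) =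
      ∏ j : Fin s, φ j (a j) (c j) (d j) := by
    intro a c d
    rw [h0, psi_sum, psi_sum, ← Finset.prod_mul_distrib, ← Finset.prod_mul_distrib,
      ← Finset.prod_mul_distrib]
  simp_rw [h1]
  rw [triple_sum (fun j : Fin s => φ j), prod_split s i.1 i.2
    (fun j => ∑ x, ∑ c, ∑ d, φ j x c d)]
  congr 1
  · congr 1
    · refine Finset.prod_congr rfl fun j hj => ?_
      rw [Finset.mem_range] at hj
      rw [← hC_eq]
      refine Finset.sum_congr rfl fun x _ => Finset.sum_congr rfl fun c _ =>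
        Finset.sum_congr rfl fun d _ => ?_
      simp only [hφ, hτ]
      rw [if_pos hj, if_pos hj, one_mul]
    · have h2 : ∀ x, ∑ c, ∑ d, φ i.1 x c d = if x ≠ 0 then 9 * (M i.1 : ℂ) else 0 := by
        intro x
        by_cases hx : x ≠ 0
        · rw [if_pos hx, ← sum_cw_J2 (M i.1) x hx]
          refine Finset.sum_congr rfl fun c _ => Finset.sum_congr rfl fun d _ => ?_
          simp only [hφ, hτ]
          rw [if_neg (lt_irrefl _), if_pos trivial, if_pos hx, if_neg (lt_irrefl _), psi_zero]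
          ring
        · rw [if_neg hx]
          refine Finset.sum_eq_zero fun c _ => Finset.sum_eq_zero fun d _ => ?_
          simp only [hφ, hτ]
          rw [if_neg (lt_irrefl _), if_pos trivial, if_neg hx, zero_mul]
      simp_rw [h2]
      have h3 : ∑ x : ZMod 3, (if x ≠ 0 then 9 * (M i.1 : ℂ) else 0) = 2 * (9 * (M i.1 : ℂ)) := by
        rw [← Finset.sum_filter, Finset.sum_const]
        have : (Finset.univ.filter (fun x : ZMod 3 => x ≠ 0)).card = 2 := by decide
        rw [this, nsmul_eq_mul]; norm_num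
      rw [h3]; ring
  · refine Finset.prod_congr rfl fun j hj => ?_
    rw [Finset.mem_Ico] at hj
    rw [← sum_cw_zero]
    rw [Finset.sum_eq_single (0 : ZMod 3)]
    · refine Finset.sum_congr rfl fun c _ => Finset.sum_congr rfl fun d _ => ?_
      simp only [hφ, hτ]
      rw [if_neg (by omega), if_neg (by omega), if_pos trivial, if_neg (by omega), zero_mul, psi_zero]
      ring
    · intro x _ hx
      refine Finset.sum_eq_zero fun c _ => Finset.sum_eq_zero fun d _ => ?_
      simp only [hφ, hτ]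
      rw [if_neg (by omega), if_neg (by omega), if_neg hx, zero_mul]
    · intro h5; exact absurd (Finset.mem_univ _) h5

/-- the planes part for `a = 0` -/
theorem plane_zero {s : ℕ} (M : ℕ → ℕ) :
    ∑ c : Fin s → ZMod 3 × ZMod 3, ∑ d : Fin s → ZMod 3 × ZMod 3,
      (∏ j : Fin s, cw (M j) (c j) (d j)) = ∏ j ∈ range s, 9 * ((M j : ℂ) + 8) := by
  classical
  have h := triple_sum (s := s) (A := Unit) (fun j (_ : Unit) c d => cw (M j) c d)
  simp only [Finset.univ_unique, Finset.sum_singleton] at h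
  rw [h, Finset.prod_range]
  exact Finset.prod_congr rfl fun j _ => sum_cw_zero _

/-- the planes part without restriction -/
theorem plane_full {s : ℕ} (M : ℕ → ℕ) (p q : ℕ → ZMod 3 × ZMod 3) :
    ∑ a : Fin s → ZMod 3, ∑ c : Fin s → ZMod 3 × ZMod 3, ∑ d : Fin s → ZMod 3 × ZMod 3,
        ((∏ j : Fin s, cw (M j) (c j) (d j)) * (psi (∑ j, a j * J2 (c j) (d j)) *
          psi (∑ j : Fin s, (dot (p j) (c j) + dot (q j) (d j))))) =
      ∏ j ∈ range s, 9 * hC (M j) (p j) (q j) := by
  classical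
  have h1 : ∀ (a : Fin s → ZMod 3) (c d : Fin s → ZMod 3 × ZMod 3),
        ((∏ j : Fin s, cw (M j) (c j) (d j)) * (psi (∑ j, a j * J2 (c j) (d j)) *
          psi (∑ j : Fin s, (dot (p j) (c j) + dot (q j) (d j))))) =
      ∏ j : Fin s, (cw (M j) (c j) (d j) * (psi (a j * J2 (c j) (d j)) *
        psi (dot (p j) (c j) + dot (q j) (d j)))) := by
    intro a c d
    rw [psi_sum, psi_sum, ← Finset.prod_mul_distrib, ← Finset.prod_mul_distrib]
  simp_rw [h1]
  rw [triple_sum (fun (j : Fin s) x c d => cw (M j) c d * (psi (x * J2 c d) *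
        psi (dot (p j) c + dot (q j) d))), Finset.prod_range]
  exact Finset.prod_congr rfl fun j _ => hC_eq _ _ _

/-- closed form of the chain -/
theorem KK_closed {V : Type} [AddCommGroup V] (H : (V →+ ZMod 3) → (V →+ ZMod 3) → ℂ)
    (M : ℕ → ℕ) (β : ℕ → V →+ ZMod 3) (βC : ℕ → ℕ → ZMod 3 × ZMod 3) (s : ℕ) :
    KK H M β βC s = 9 ^ s * (∏ j ∈ range s, ((M j : ℂ) + 8)) * H 0 0 +
      ∑ i ∈ range s, 9 ^ (s - 1 - i) * (∏ j ∈ Ico (i + 1) s, ((M j : ℂ) + 8)) *
        (2 * (M i : ℂ) * NN H M (β i) (βC i) i) := by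
  induction s with
  | zero => simp [KK]
  | succ s ih =>
    rw [KK, ih, Finset.prod_range_succ, Finset.sum_range_succ, mul_add, Finset.mul_sum]
    have h1 : (9 : ℂ) ^ (s + 1 - 1 - s) * (∏ j ∈ Ico (s + 1) (s + 1), ((M j : ℂ) + 8)) = 1 := by
      simp
    rw [h1, one_mul, ← add_assoc]
    congr 1
    congr 1
    · rw [pow_succ]; ring
    · refine Finset.sum_congr rfl fun i hi => ?_
      rw [Finset.mem_range] at hi
      rw [Finset.prod_Ico_succ_top (by omega : i + 1 ≤ s)]
      have h2 : s + 1 - 1 - i = (s - 1 - i) + 1 := by omega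
      rw [h2, pow_succ]; ring

end Pool.Agent.Lib.MP_cfac74_al.Ch
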