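import Pool.Agent.Lib.MP_cfac74_al.Ch.Ev
import Pool.Agent.Lib.MP_cfac74_al.Ch.Lane

/-!
# MP_cfac74_al : the spectral function as a polynomial in the decorations
-/

set_option autoImplicit false
set_option linter.unusedSectionVars false

namespace Pool.Agent.Lib.MP_cfac74_al.Ch

open Finset Pool.Agent.Lib.MP_cfac74_al.Dec

/-- the monomial with exponent set `S` (bit mask) -/
def kS (n : ℕ) (z : ℕ → ℕ) (S : ℕ) : ℕ := ∏ j ∈ range n, if S.testBit j then z j else 1

theorem kS_succ_low (n : ℕ) (z : ℕ → ℕ) (S : ℕ) (h : S < 2 ^ n) : kS (n + 1) z S = kS n z S := by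
  unfold kS
  rw [Finset.prod_range_succ, Nat.testBit_lt_two_pow h]
  simp

theorem kS_succ_high (n : ℕ) (z : ℕ → ℕ) (S : ℕ) (h : S < 2 ^ n) :
    kS (n + 1) z (2 ^ n + S) = kS n z S * z n := by
  unfold kS
  rw [Finset.prod_range_succ, Nat.testBit_two_pow_add_eq, Nat.testBit_lt_two_pow h]
  simp only [Bool.not_false, if_true]
  congr 1
  refine Finset.prod_congr rfl fun j hj => ?_
  rw [Nat.testBit_two_pow_add_gt (Finset.mem_range.1 hj)]

theorem prod_expand (n : ℕ) (a b : ℕ → ℤ) : ∏ j ∈ range n, (a j + b j) =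
    ∑ S ∈ range (2 ^ n), ∏ j ∈ range n, if S.testBit j then b j else a j := by
  induction n with
  | zero => simp
  | succ n ih =>
    have h1 : 2 ^ (n + 1) = 2 ^ n + 2 ^ n := by ring
    rw [h1, Finset.sum_range_add, Finset.prod_range_succ, ih, mul_add, Finset.sum_mul,
      Finset.sum_mul]
    congr 1
    · refine Finset.sum_congr rfl fun S hS => ?_
      rw [Finset.prod_range_succ, Nat.testBit_lt_two_pow (Finset.mem_range.1 hS)]
      simp
    · refine Finset.sum_congr rfl fun S hS => ?_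
      rw [Finset.prod_range_succ, Nat.testBit_two_pow_add_eq,
        Nat.testBit_lt_two_pow (Finset.mem_range.1 hS)]
      simp only [Bool.not_false, if_true]
      congr 1
      refine Finset.prod_congr rfl fun j hj => ?_
      rw [Nat.testBit_two_pow_add_gt (Finset.mem_range.1 hj)]

/-- multi-affine function with natural coefficients bounded by `C` -/
def MA (n C : ℕ) (f : (ℕ → ℕ) → ℤ) : Prop :=
  ∃ c : ℕ → ℕ, (∀ S, c S ≤ C) ∧ ∀ z, f z = ∑ S ∈ range (2 ^ n), (c S : ℤ) * (kS n z S : ℤ)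

theorem MA_add {n C D : ℕ} {f g : (ℕ → ℕ) → ℤ} (hf : MA n C f) (hg : MA n D g) :
    MA n (C + D) (fun z => f z + g z) := by
  obtain ⟨c, hc, hc'⟩ := hf
  obtain ⟨d, hd, hd'⟩ := hg
  refine ⟨fun S => c S + d S, fun S => Nat.add_le_add (hc S) (hd S), fun z => ?_⟩
  change f z + g z = _
  rw [hc', hd', ← Finset.sum_add_distrib]
  exact Finset.sum_congr rfl fun S _ => by push_cast; ring

theorem MA_mul {n C : ℕ} {f : (ℕ → ℕ) → ℤ} (a : ℕ) (hf : MA n C f) :
    MA n (a * C) (fun z => (a : ℤ) * f z) := by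
  obtain ⟨c, hc, hc'⟩ := hf
  refine ⟨fun S => a * c S, fun S => Nat.mul_le_mul_left _ (hc S), fun z => ?_⟩
  change (a : ℤ) * f z = _
  rw [hc', Finset.mul_sum]
  exact Finset.sum_congr rfl fun S _ => by push_cast; ring

theorem MA_mono {n C D : ℕ} {f : (ℕ → ℕ) → ℤ} (h : C ≤ D) (hf : MA n C f) : MA n D f := by
  obtain ⟨c, hc, hc'⟩ := hf
  exact ⟨c, fun S => (hc S).trans h, hc'⟩

theorem MA_zero (n C : ℕ) : MA n C (fun _ => 0) :=
  ⟨fun _ => 0, fun _ => Nat.zero_le _, fun z => by simp⟩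

theorem MA_sum {n C : ℕ} {ι : Type} (s : Finset ι) (f : ι → (ℕ → ℕ) → ℤ)
    (h : ∀ i ∈ s, MA n C (f i)) : MA n (s.card * C) (fun z => ∑ i ∈ s, f i z) := by
  classical
  induction s using Finset.induction_on with
  | empty =>
    simp only [Finset.sum_empty]
    exact MA_zero _ _
  | insert a s ha ih =>
    have h1 := MA_add (h a (Finset.mem_insert_self _ _))
      (ih fun i hi => h i (Finset.mem_insert_of_mem hi))
    rw [Finset.card_insert_of_notMem ha]
    refine MA_mono (le_of_eq (by ring)) ?_ (C := C + s.card * C)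
    refine (show (fun z => ∑ i ∈ insert a s, f i z) = fun z => f a z + ∑ i ∈ s, f i z from ?_) ▸ h1
    funext z
    rw [Finset.sum_insert ha]

theorem MA_prod (n b : ℕ) (α β : Fin n → ℕ) (hα : ∀ j, α j ≤ b) (hβ : ∀ j, β j ≤ b) :
    MA n (b ^ n) (fun z => ∏ j : Fin n, ((α j : ℤ) + (β j : ℤ) * (z j : ℤ))) := by
  set α' : ℕ → ℕ := fun j => if h : j < n then α ⟨j, h⟩ else 0 with hα'
  set β' : ℕ → ℕ := fun j => if h : j < n then β ⟨j, h⟩ else 0 with hβ'
  have h1 : ∀ j, α' j ≤ b := by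
    intro j; simp only [hα']; split_ifs
    · exact hα _
    · exact Nat.zero_le _
  have h2 : ∀ j, β' j ≤ b := by
    intro j; simp only [hβ']; split_ifs
    · exact hβ _
    · exact Nat.zero_le _
  refine ⟨fun S => ∏ j ∈ range n, if S.testBit j then β' j else α' j, fun S => ?_, fun z => ?_⟩
  · have : ∏ j ∈ range n, (if S.testBit j then β' j else α' j) ≤ ∏ _j ∈ range n, b := by
      refine Finset.prod_le_prod' fun j _ => ?_
      split_ifs
      · exact h2 j
      · exact h1 j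
    rwa [Finset.prod_const, Finset.card_range] at this
  · have h3 : ∏ j : Fin n, ((α j : ℤ) + (β j : ℤ) * (z j : ℤ)) =
        ∏ j ∈ range n, ((α' j : ℤ) + (β' j : ℤ) * (z j : ℤ)) := by
      rw [← Fin.prod_univ_eq_prod_range (fun j => (α' j : ℤ) + (β' j : ℤ) * (z j : ℤ))]
      refine Finset.prod_congr rfl fun j _ => ?_
      simp only [hα', hβ', Fin.is_lt, dif_pos, Fin.eta]
    simp only
    rw [h3, prod_expand]
    refine Finset.sum_congr rfl fun S _ => ?_
    unfold kS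
    push_cast
    rw [← Finset.prod_mul_distrib]
    refine Finset.prod_congr rfl fun j _ => ?_
    split_ifs <;> simp

/-! ### packed variables -/

/-- packed variables -/
def Zp (W m : ℕ) (j : ℕ) : ℕ := if j < m then W ^ 2 ^ j else 0

theorem kS_zero {n m : ℕ} {z : ℕ → ℕ} (hz : ∀ j, m ≤ j → z j = 0) {S : ℕ} (h1 : 2 ^ m ≤ S)
    (h2 : S < 2 ^ n) : kS n z S = 0 := by
  obtain ⟨i, hi, hb⟩ := Nat.exists_ge_and_testBit_of_ge_two_pow h1
  have hin : i < n := by
    by_contra hcon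
    have := Nat.testBit_lt_two_pow (lt_of_lt_of_le h2 (Nat.pow_le_pow_right (by norm_num)
      (not_lt.1 hcon)))
    rw [this] at hb
    exact absurd hb (by simp)
  unfold kS
  refine Finset.prod_eq_zero (Finset.mem_range.2 hin) ?_
  rw [if_pos hb, hz i hi]

theorem kS_low {n m : ℕ} (hmn : m ≤ n) (z : ℕ → ℕ) {S : ℕ} (h : S < 2 ^ m) :
    kS n z S = kS m z S := by
  induction n, hmn using Nat.le_induction with
  | base => rfl
  | succ n hn ih =>
    rw [kS_succ_low n z S (lt_of_lt_of_le h (Nat.pow_le_pow_right (by norm_num) hn)), ih]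

theorem kS_congr {m : ℕ} {z z' : ℕ → ℕ} (h : ∀ j < m, z j = z' j) (S : ℕ) :
    kS m z S = kS m z' S := by
  unfold kS
  exact Finset.prod_congr rfl fun j hj => by rw [h j (Finset.mem_range.1 hj)]

theorem kS_pow (W m : ℕ) : ∀ S, S < 2 ^ m → kS m (fun j => W ^ 2 ^ j) S = W ^ S := by
  induction m with
  | zero =>
    intro S hS
    have : S = 0 := by simpa using hS
    subst this
    simp [kS]
  | succ m ih =>
    intro S hS
    by_cases h : S < 2 ^ m
    · rw [kS_succ_low m _ S h, ih S h]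
    · obtain ⟨T, rfl⟩ : ∃ T, S = 2 ^ m + T := ⟨S - 2 ^ m, by omega⟩
      have hT : T < 2 ^ m := by
        have : 2 ^ (m + 1) = 2 ^ m + 2 ^ m := by ring
        omega
      rw [kS_succ_high m _ T hT, ih T hT, pow_add]
      ring

theorem MA_eval {n C : ℕ} {f : (ℕ → ℕ) → ℤ} (hf : MA n C f) (m : ℕ) (hmn : m ≤ n) :
    ∃ c : ℕ → ℕ, (∀ S, c S ≤ C) ∧ ∀ z, (∀ j, m ≤ j → z j = 0) →
      f z = ((∑ S ∈ range (2 ^ m), c S * kS m z S : ℕ) : ℤ) := by
  obtain ⟨c, hc, hc'⟩ := hf
  refine ⟨c, hc, fun z hz => ?_⟩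
  rw [hc']
  have h1 : 2 ^ n = 2 ^ m + (2 ^ n - 2 ^ m) := by
    have : 2 ^ m ≤ 2 ^ n := Nat.pow_le_pow_right (by norm_num) hmn
    omega
  rw [h1, Finset.sum_range_add]
  have h2 : ∑ x ∈ range (2 ^ n - 2 ^ m), (c (2 ^ m + x) : ℤ) * (kS n z (2 ^ m + x) : ℤ) = 0 := by
    refine Finset.sum_eq_zero fun x hx => ?_
    have hx' := Finset.mem_range.1 hx
    rw [kS_zero hz (by omega) (by omega)]
    simp
  rw [h2, add_zero]
  push_cast
  refine Finset.sum_congr rfl fun S hS => ?_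
  rw [kS_low hmn z (Finset.mem_range.1 hS)]

/-- **the value at packed variables determines all values** -/
theorem MA_packed {n C : ℕ} {f : (ℕ → ℕ) → ℤ} (hf : MA n C f) (m : ℕ) (hmn : m ≤ n) (W : ℕ)
    (hW : C < W) (P : ℕ) (hP : f (Zp W m) = (P : ℤ)) :
    ∀ z, (∀ j, m ≤ j → z j = 0) →
      f z = ((∑ S ∈ range (2 ^ m), (P / W ^ S % W) * kS m z S : ℕ) : ℤ) := by
  obtain ⟨c, hc, hc'⟩ := MA_eval hf m hmn
  have h1 : P = La W (2 ^ m) c := by
    have h2 := hc' (Zp W m) (fun j hj => if_neg (by omega))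
    rw [hP] at h2
    have h3 : P = ∑ S ∈ range (2 ^ m), c S * kS m (Zp W m) S := by exact_mod_cast h2
    rw [h3]
    unfold La
    refine Finset.sum_congr rfl fun S hS => ?_
    have h4 : kS m (Zp W m) S = kS m (fun j => W ^ 2 ^ j) S :=
      kS_congr (fun j hj => if_pos hj) S
    rw [h4, kS_pow W m S (Finset.mem_range.1 hS)]
  intro z hz
  rw [hc' z hz]
  congr 1
  refine Finset.sum_congr rfl fun S hS => ?_
  rw [h1, La_get W (2 ^ m) (by omega) c (fun i _ => lt_of_le_of_lt (hc i) hW) S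
    (Finset.mem_range.1 hS)]

/-! ### the spectral function -/

section

variable {n : ℕ}

/-- decorations as a function on `Fin n` -/
def kf (z : ℕ → ℕ) (j : Fin n) : ℕ := z j

/-- positive part -/
def TPz (A B : Fin n → Fin n → ZMod 3) (x x' : Fin n → ZMod 3) (z : ℕ → ℕ) : ℤ :=
  Pz (kf z) x x' + ((3 : ℕ) : ℤ) * (
    ((∑ v : Fin n → ZMod 3, (if ∑ j, x j * v j = 0 then 1 else 0) *
      ∏ j, gg (kf z j) (v j) (vm A v j + x' j)) +
    (∑ v : Fin n → ZMod 3, (if ∑ j, x j * v j = 0 then 1 else 0) *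
      ∏ j, gg (kf z j) (v j) (vm B v j + x' j))) +
    ((∑ v : Fin n → ZMod 3, (if ∑ j, x j * v j = 0 then 1 else 0) *
      ∏ j, gg (kf z j) (v j) (vm (fun i j => A i j + B i j) v j + x' j)) +
    (∑ v : Fin n → ZMod 3, (if ∑ j, x j * v j = 0 then 1 else 0) *
      ∏ j, gg (kf z j) (v j) (vm (fun i j => A i j - B i j) v j + x' j))))

/-- total -/
def TTz (A B : Fin n → Fin n → ZMod 3) (x' : Fin n → ZMod 3) (z : ℕ → ℕ) : ℤ :=
  ((∑ v : Fin n → ZMod 3, ∏ j, gg (kf z j) (v j) (vm A v j + x' j)) +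
    (∑ v : Fin n → ZMod 3, ∏ j, gg (kf z j) (v j) (vm B v j + x' j))) +
    ((∑ v : Fin n → ZMod 3,
      ∏ j, gg (kf z j) (v j) (vm (fun i j => A i j + B i j) v j + x' j)) +
    (∑ v : Fin n → ZMod 3,
      ∏ j, gg (kf z j) (v j) (vm (fun i j => A i j - B i j) v j + x' j)))

theorem MA_gg (v c : Fin n → ZMod 3) : MA n 1 (fun z => ∏ j, gg (kf z j) (v j) (c j)) := by
  have h := MA_prod n 1 (fun j => if c j = 0 then 1 else 0) (fun j => if v j = 0 then 1 else 0)
    (fun j => by split_ifs <;> norm_num) (fun j => by split_ifs <;> norm_num)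
  rw [one_pow] at h
  refine (show (fun z : ℕ → ℕ => ∏ j, gg (kf z j) (v j) (c j)) = _ from ?_) ▸ h
  funext z
  refine Finset.prod_congr rfl fun j _ => ?_
  unfold gg kf
  push_cast
  split_ifs <;> ring

theorem card_vec : (Finset.univ : Finset (Fin n → ZMod 3)).card = 3 ^ n := by
  rw [Finset.card_univ, Fintype.card_fun, ZMod.card, Fintype.card_fin]

theorem MA_tot1 (c : (Fin n → ZMod 3) → Fin n → ZMod 3) :
    MA n (3 ^ n) (fun z => ∑ v : Fin n → ZMod 3, ∏ j, gg (kf z j) (v j) (c v j)) := by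
  have h := MA_sum Finset.univ (fun v : Fin n → ZMod 3 => fun z => ∏ j, gg (kf z j) (v j) (c v j))
    (fun v _ => MA_gg v (c v))
  rwa [card_vec, mul_one] at h

theorem MA_sel1 (x : Fin n → ZMod 3) (c : (Fin n → ZMod 3) → Fin n → ZMod 3) :
    MA n (3 ^ n) (fun z => ∑ v : Fin n → ZMod 3, (if ∑ j, x j * v j = 0 then 1 else 0) *
      ∏ j, gg (kf z j) (v j) (c v j)) := by
  have h := MA_sum (C := 1) Finset.univ (fun v : Fin n → ZMod 3 => fun z =>
    (if ∑ j, x j * v j = 0 then (1 : ℤ) else 0) * ∏ j, gg (kf z j) (v j) (c v j))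
    (fun v _ => by
      by_cases hv : ∑ j, x j * v j = 0
      · simp only [if_pos hv, one_mul]
        exact MA_gg v (c v)
      · simp only [if_neg hv, zero_mul]
        exact MA_zero _ _)
  rwa [card_vec, mul_one] at h

theorem MA_Pz (x x' : Fin n → ZMod 3) : MA n (3 ^ n) (fun z => Pz (kf z) x x') := by
  have h := MA_prod n 3 (fun j => if x j = 0 ∧ x' j = 0 then 3 else 0) (fun _ => 1)
    (fun j => by split_ifs <;> norm_num) (fun j => by norm_num)
  refine (show (fun z : ℕ → ℕ => Pz (kf z) x x') = _ from ?_) ▸ h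
  funext z
  unfold Pz
  refine Finset.prod_congr rfl fun j _ => ?_
  unfold kf
  push_cast
  split_ifs <;> ring

theorem MA_TPz (A B : Fin n → Fin n → ZMod 3) (x x' : Fin n → ZMod 3) :
    MA n (13 * 3 ^ n) (TPz A B x x') := by
  have h := MA_add (MA_Pz x x') (MA_mul 3 (MA_add
    (MA_add (MA_sel1 x (fun v j => vm A v j + x' j)) (MA_sel1 x (fun v j => vm B v j + x' j)))
    (MA_add (MA_sel1 x (fun v j => vm (fun i j => A i j + B i j) v j + x' j))
      (MA_sel1 x (fun v j => vm (fun i j => A i j - B i j) v j + x' j)))))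
  exact MA_mono (le_of_eq (by ring)) h

theorem MA_TTz (A B : Fin n → Fin n → ZMod 3) (x' : Fin n → ZMod 3) :
    MA n (4 * 3 ^ n) (TTz A B x') := by
  have h := MA_add
    (MA_add (MA_tot1 (fun v j => vm A v j + x' j)) (MA_tot1 (fun v j => vm B v j + x' j)))
    (MA_add (MA_tot1 (fun v j => vm (fun i j => A i j + B i j) v j + x' j))
      (MA_tot1 (fun v j => vm (fun i j => A i j - B i j) v j + x' j)))
  exact MA_mono (le_of_eq (by ring)) h

theorem Hs_TP (A B : Fin n → Fin n → ZMod 3) (z : ℕ → ℕ) (x x' : Fin n → ZMod 3) :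
    Hs A B (kf z) x x' = TPz A B x x' z - TTz A B x' z := by
  unfold Hs TPz TTz
  rw [Sg_split A, Sg_split B, Sg_split (fun i j => A i j + B i j), Sg_split (fun i j => A i j - B i j)]
  push_cast
  ring

/-- the four lists of row codes -/
def RW (A B : Fin n → Fin n → ZMod 3) : List ℕ × List ℕ × List ℕ × List ℕ :=
  (rowsL (rowC A) n, rowsL (rowC B) n, rowsL (rowC fun i j => A i j + B i j) n,
    rowsL (rowC fun i j => A i j - B i j) n)

/-- the support list -/
noncomputable def supR (zs : List ℕ) (R : List ℕ × List ℕ × List ℕ × List ℕ) (c : ℕ) :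
    List (ℕ × ℕ) := sup4 zs R.1 R.2.1 R.2.2.1 R.2.2.2 c

theorem tot_TTz (hn7 : n ≤ 7) (A B : Fin n → Fin n → ZMod 3) (x' : Fin n → ZMod 3)
    (z : ℕ → ℕ) :
    ((tot (supR (List.ofFn (kf z : Fin n → ℕ)) (RW A B) (cdF (dl x'))) : ℕ) : ℤ) =
      TTz A B x' z := by
  rw [tot_eq]
  unfold supR RW sup4
  simp only
  rw [go_all hn7, go_all hn7, go_all hn7, go_all hn7]
  have h0 : ∀ F : ℕ → ℤ, lsum F [] = 0 := fun F => rfl
  rw [h0]
  unfold TTz
  simp only [one_mul]
  ring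

theorem sel_TPz (hn : 0 < n) (hn7 : n ≤ 7) (A B : Fin n → Fin n → ZMod 3)
    (x x' : Fin n → ZMod 3) (z : ℕ → ℕ) :
    ((pin (List.ofFn (kf z : Fin n → ℕ)) (dl x) (dl x') + 3 * sel (32 ^ (n - 1)) (cdR (dl x) 0)
      (supR (List.ofFn (kf z : Fin n → ℕ)) (RW A B) (cdF (dl x'))) : ℕ) : ℤ) =
      TPz A B x x' z := by
  push_cast
  rw [sel_eq, ← Pz_eq]
  unfold supR RW sup4
  simp only
  rw [go_all hn7, go_all hn7, go_all hn7, go_all hn7]
  have h0 : ∀ F : ℕ → ℤ, lsum F [] = 0 := fun F => rfl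
  rw [h0]
  unfold TPz
  simp_rw [sel_dot hn hn7]
  push_cast
  ring

end

end Pool.Agent.Lib.MP_cfac74_al.Ch
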