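import Pool.Agent.Lib.MP_cfac74_al.Ch.Def

/-!
# MP_cfac74_al : character sums over `ZMod 3`
-/

set_option autoImplicit false

namespace Pool.Agent.Lib.MP_cfac74_al.Ch

open Finset Pool.Agent.Lib.MP_cfac74_al.Dec

theorem psi_add (x y : ZMod 3) : psi (x + y) = psi x * psi y :=
  AddChar.map_add_eq_mul _ _ _

theorem psi_zero : psi 0 = 1 := AddChar.map_zero_eq_one _

theorem psi_sum {ι : Type*} (s : Finset ι) (g : ι → ZMod 3) :
    psi (∑ i ∈ s, g i) = ∏ i ∈ s, psi (g i) := by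
  classical
  induction s using Finset.induction_on with
  | empty => simp [psi_zero]
  | insert a s ha ih => rw [Finset.sum_insert ha, Finset.prod_insert ha, psi_add, ih]

/-- orthogonality -/
theorem sum_psi (k : ZMod 3) : ∑ x : ZMod 3, psi (k * x) = if k = 0 then 3 else 0 := by
  have h := AddChar.sum_mulShift (ψ := ZMod.stdAddChar (N := 3)) k (ZMod.isPrimitive_stdAddChar 3)
  have h2 : ∑ x : ZMod 3, psi (k * x) = ∑ x : ZMod 3, (ZMod.stdAddChar (x * k) : ℂ) :=
    Finset.sum_congr rfl fun x _ => by rw [psi, mul_comm]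
  rw [h2, h]
  split_ifs with hk
  · simp
  · simp

theorem cc_eq (x : ZMod 3) : ((cc x : ℤ) : ℂ) = psi x + psi (-x) := by
  have h := sum_psi 1
  have h1 : (1 : ZMod 3) ≠ 0 := by decide
  rw [if_neg h1] at h
  have h3 : psi 0 + psi 1 + psi 2 = 0 := by
    rw [← h]
    simp only [one_mul]
    exact (Fin.sum_univ_three (fun x : ZMod 3 => psi x)).symm
  rw [psi_zero] at h3
  have hall : ∀ x : ZMod 3, x = 0 ∨ x = 1 ∨ x = 2 := by decide
  have n1 : -(1 : ZMod 3) = 2 := by decide
  have n2 : -(2 : ZMod 3) = 1 := by decide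
  rcases hall x with rfl | rfl | rfl
  · rw [neg_zero, psi_zero]; norm_num [cc]
  · rw [n1]
    have : cc 1 = -1 := by decide
    rw [this]; push_cast; linear_combination -h3
  · rw [n2]
    have : cc 2 = -1 := by decide
    rw [this]; push_cast; linear_combination -h3

/-- linear sums over functions -/
theorem sum_lin (s : ℕ) (k : Fin s → ZMod 3) :
    ∑ z : Fin s → ZMod 3, psi (∑ l, k l * z l) = if k = 0 then 3 ^ s else 0 := by
  have h1 : ∑ z : Fin s → ZMod 3, psi (∑ l, k l * z l) =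
      ∏ l : Fin s, ∑ x : ZMod 3, psi (k l * x) := by
    rw [Finset.prod_univ_sum, Fintype.piFinset_univ]
    exact Finset.sum_congr rfl fun z _ => psi_sum _ _
  rw [h1]
  simp only [sum_psi]
  split_ifs with h
  · subst h; simp
  · have : ∃ l, k l ≠ 0 := by
      by_contra hcon
      push Not at hcon
      exact h (funext hcon)
    obtain ⟨l, hl⟩ := this
    exact Finset.prod_eq_zero (Finset.mem_univ l) (if_neg hl)

/-- products of sums over three functions -/
theorem triple_sum {s : ℕ} {A B C : Type} [Fintype A] [Fintype B] [Fintype C]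
    (φ : Fin s → A → B → C → ℂ) :
    ∑ a : Fin s → A, ∑ b : Fin s → B, ∑ c : Fin s → C, ∏ j, φ j (a j) (b j) (c j) =
      ∏ j, ∑ x : A, ∑ y : B, ∑ z : C, φ j x y z := by
  classical
  rw [Finset.prod_univ_sum, Fintype.piFinset_univ]
  refine Finset.sum_congr rfl fun a _ => ?_
  rw [Finset.prod_univ_sum, Fintype.piFinset_univ]
  refine Finset.sum_congr rfl fun b _ => ?_
  rw [Finset.prod_univ_sum, Fintype.piFinset_univ]

/-- splitting a product at an index -/
theorem prod_split (s i : ℕ) (hi : i < s) (G : ℕ → ℂ) :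
    ∏ j : Fin s, G j = (∏ j ∈ range i, G j) * G i * ∏ j ∈ Ico (i + 1) s, G j := by
  rw [← Finset.prod_range (fun j => G j), ← Finset.prod_range_mul_prod_Ico G hi,
    Finset.prod_range_succ]

/-! ### sums over planes -/

/-- dot product -/
def dot (p c : ZMod 3 × ZMod 3) : ZMod 3 := p.1 * c.1 + p.2 * c.2

theorem dot_add_left (p p' c : ZMod 3 × ZMod 3) : dot (p + p') c = dot p c + dot p' c := by
  simp only [dot, Prod.fst_add, Prod.snd_add]; ring

theorem dot_add_right (p c c' : ZMod 3 × ZMod 3) : dot p (c + c') = dot p c + dot p c' := by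
  simp only [dot, Prod.fst_add, Prod.snd_add]; ring

theorem dot_smul_left (u : ZMod 3) (p c : ZMod 3 × ZMod 3) : dot (u • p) c = u * dot p c := by
  simp only [dot, Prod.smul_fst, Prod.smul_snd, smul_eq_mul]; ring

theorem J2_add_left (p p' c : ZMod 3 × ZMod 3) : J2 (p + p') c = J2 p c + J2 p' c := by
  simp only [J2, Prod.fst_add, Prod.snd_add]; ring

theorem J2_antisymm (p c : ZMod 3 × ZMod 3) : J2 p c = - J2 c p := by
  simp only [J2]; ring

theorem sum_dot (p : ZMod 3 × ZMod 3) :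
    ∑ c : ZMod 3 × ZMod 3, psi (dot p c) = if p = 0 then 9 else 0 := by
  have h1 : ∑ c : ZMod 3 × ZMod 3, psi (dot p c) =
      (∑ x : ZMod 3, psi (p.1 * x)) * ∑ y : ZMod 3, psi (p.2 * y) := by
    rw [Fintype.sum_prod_type, Finset.sum_mul_sum]
    refine Finset.sum_congr rfl fun x _ => Finset.sum_congr rfl fun y _ => ?_
    rw [dot, psi_add]
  rw [h1, sum_psi, sum_psi]
  obtain ⟨a, b⟩ := p
  by_cases ha : a = 0 <;> by_cases hb : b = 0 <;> simp [ha, hb]
  norm_num

/-- Fourier expansion of the rank two form -/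
theorem psi_J2 (x y : ZMod 3 × ZMod 3) :
    ∑ p : ZMod 3 × ZMod 3, ∑ q : ZMod 3 × ZMod 3, psi (-(J2 p q)) * psi (dot p x + dot q y) =
      9 * psi (J2 x y) := by
  have h1 : ∀ p : ZMod 3 × ZMod 3, ∑ q : ZMod 3 × ZMod 3,
      psi (-(J2 p q)) * psi (dot p x + dot q y) =
      if p = (y.2, -y.1) then 9 * psi (dot p x) else 0 := by
    intro p
    have h2 : ∀ q : ZMod 3 × ZMod 3, psi (-(J2 p q)) * psi (dot p x + dot q y) =
        psi (dot p x) * psi (dot (p.2 + y.1, y.2 - p.1) q) := by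
      intro q
      rw [← psi_add, ← psi_add]
      congr 1
      simp only [dot, J2]; ring
    rw [Finset.sum_congr rfl fun q _ => h2 q, ← Finset.mul_sum, sum_dot]
    obtain ⟨p1, p2⟩ := p
    by_cases h : (p1, p2) = (y.2, -y.1)
    · rw [if_pos h]
      have h3 : ((p2 + y.1, y.2 - p1) : ZMod 3 × ZMod 3) = 0 := by
        rw [Prod.mk.injEq] at h
        rw [h.1, h.2]; simp
      change psi _ * (if (p2 + y.1, y.2 - p1) = (0 : ZMod 3 × ZMod 3) then 9 else 0) = _
      rw [if_pos h3]; ring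
    · rw [if_neg h]
      have h3 : ((p2 + y.1, y.2 - p1) : ZMod 3 × ZMod 3) ≠ 0 := by
        intro h4
        rw [Prod.mk_eq_zero] at h4
        apply h
        rw [Prod.mk.injEq]
        exact ⟨(sub_eq_zero.1 h4.2).symm, eq_neg_of_add_eq_zero_left h4.1⟩
      change psi _ * (if (p2 + y.1, y.2 - p1) = (0 : ZMod 3 × ZMod 3) then 9 else 0) = _
      rw [if_neg h3, mul_zero]
  rw [Finset.sum_congr rfl fun p _ => h1 p, Finset.sum_ite_eq' Finset.univ (y.2, -y.1)
    (fun p => 9 * psi (dot p x)), if_pos (Finset.mem_univ _)]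
  congr 2
  simp only [dot, J2]; ring

/-- plane weight -/
noncomputable def cw (M : ℕ) (c d : ZMod 3 × ZMod 3) : ℂ :=
  if c.1 = 0 ∧ d.1 = 0 then (M : ℂ) else 1

theorem cw_comm (M : ℕ) (c d : ZMod 3 × ZMod 3) : cw M c d = cw M d c := by
  unfold cw; exact if_congr and_comm rfl rfl

theorem hC_eq (M : ℕ) (p q : ZMod 3 × ZMod 3) :
    ∑ a : ZMod 3, ∑ c : ZMod 3 × ZMod 3, ∑ d : ZMod 3 × ZMod 3,
      cw M c d * (psi (a * J2 c d) * psi (dot p c + dot q d)) = 9 * hC M p q := by
  rw [hC, mul_div_cancel₀ _ (by norm_num : (9 : ℂ) ≠ 0)]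
  refine Finset.sum_congr rfl fun a _ => Finset.sum_congr rfl fun c _ =>
    Finset.sum_congr rfl fun d _ => ?_
  rw [← psi_add, cw]
  congr 2
  simp only [dot]; ring

/-- number of pairs with vanishing first coordinates -/
theorem sum_cw_zero (M : ℕ) : ∑ c : ZMod 3 × ZMod 3, ∑ d : ZMod 3 × ZMod 3, cw M c d =
    9 * ((M : ℂ) + 8) := by
  have h1 : ∀ c d : ZMod 3 × ZMod 3, cw M c d =
      1 + ((M : ℂ) - 1) * ((if c.1 = 0 then 1 else 0) * (if d.1 = 0 then 1 else 0)) := by
    intro c d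
    unfold cw
    by_cases hc : c.1 = 0 <;> by_cases hd : d.1 = 0 <;> simp [hc, hd]
  have h2 : ∑ c : ZMod 3 × ZMod 3, (if c.1 = 0 then (1 : ℂ) else 0) = 3 := by
    rw [Finset.sum_boole]
    have : (Finset.univ.filter (fun c : ZMod 3 × ZMod 3 => c.1 = 0)).card = 3 := by decide
    rw [this]; norm_num
  simp_rw [h1, Finset.sum_add_distrib, ← Finset.mul_sum, h2]
  rw [← Finset.sum_mul, h2]
  simp
  ring

theorem sum_cw_J2 (M : ℕ) (a : ZMod 3) (ha : a ≠ 0) :
    ∑ c : ZMod 3 × ZMod 3, ∑ d : ZMod 3 × ZMod 3, cw M c d * psi (a * J2 c d) = 9 * (M : ℂ) := by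
  have h1 : ∀ c d : ZMod 3 × ZMod 3, cw M c d * psi (a * J2 c d) =
      psi (a * J2 c d) +
        ((M : ℂ) - 1) * ((if c.1 = 0 then 1 else 0) * (if d.1 = 0 then 1 else 0)) := by
    intro c d
    unfold cw
    by_cases hc : c.1 = 0 <;> by_cases hd : d.1 = 0 <;> simp [hc, hd]
    have : a * J2 c d = 0 := by simp [J2, hc, hd]
    rw [this, psi_zero]; ring
  have h2 : ∑ c : ZMod 3 × ZMod 3, (if c.1 = 0 then (1 : ℂ) else 0) = 3 := by
    rw [Finset.sum_boole]
    have : (Finset.univ.filter (fun c : ZMod 3 × ZMod 3 => c.1 = 0)).card = 3 := by decide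
    rw [this]; norm_num
  have h3 : ∀ c : ZMod 3 × ZMod 3, ∑ d : ZMod 3 × ZMod 3, psi (a * J2 c d) =
      if c = 0 then 9 else 0 := by
    intro c
    have h4 : ∀ d : ZMod 3 × ZMod 3, a * J2 c d = dot (-(a * c.2), a * c.1) d := by
      intro d; simp only [dot, J2]; ring
    simp_rw [h4]
    rw [sum_dot]
    by_cases hc : c = 0
    · rw [if_pos hc, if_pos (by rw [hc]; simp)]
    · rw [if_neg hc, if_neg]
      intro h5
      rw [Prod.mk_eq_zero, neg_eq_zero, mul_eq_zero, mul_eq_zero] at h5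
      apply hc
      exact Prod.ext (h5.2.resolve_left ha) (h5.1.resolve_left ha)
  simp_rw [h1, Finset.sum_add_distrib, ← Finset.mul_sum, h2, h3]
  rw [← Finset.sum_mul, h2]
  simp
  ring

end Pool.Agent.Lib.MP_cfac74_al.Ch
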