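import Pool.Agent.Lib.MP_cfac74_al.Ch.Plane

/-!
# MP_cfac74_al : the chain theorem
-/

set_option autoImplicit false
set_option linter.unusedSectionVars false

namespace Pool.Agent.Lib.MP_cfac74_al.Ch

open Finset Pool.Agent.Lib.MP_cfac74_al.Dec

section

variable {V L J : Type} [AddCommGroup V] [AddCommGroup L] [Fintype V] [Fintype L]
  [Module (ZMod 3) L] [Fintype J]

/-- the group space of the chain -/
abbrev VV (V : Type) (s : ℕ) : Type :=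
  V × ((Fin s → ZMod 3 × ZMod 3) × ((Fin s → ZMod 3) × (Fin s → ZMod 3)))

/-- the parameter space of the chain -/
abbrev LL (L : Type) (s : ℕ) : Type := L × ((Fin s → ZMod 3) × ZMod 3)

/-- functional on `V × planes` using the planes with index `< n` -/
def btil {s : ℕ} (β : V →+ ZMod 3) (g : ℕ → ZMod 3 × ZMod 3) (n : ℕ) (v : V)
    (c : Fin s → ZMod 3 × ZMod 3) : ZMod 3 :=
  β v + ∑ i : Fin s, if i.1 < n then dot (g i) (c i) else 0

theorem btil_add {s : ℕ} (β : V →+ ZMod 3) (g : ℕ → ZMod 3 × ZMod 3) (n : ℕ) (v v' : V)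
    (c c' : Fin s → ZMod 3 × ZMod 3) :
    btil β g n (v + v') (c + c') = btil β g n v c + btil β g n v' c' := by
  have h : ∑ i : Fin s, (if i.1 < n then dot (g i) ((c + c') i) else 0) =
      (∑ i : Fin s, if i.1 < n then dot (g i) (c i) else 0) +
        ∑ i : Fin s, if i.1 < n then dot (g i) (c' i) else 0 := by
    rw [← Finset.sum_add_distrib]
    refine Finset.sum_congr rfl fun i _ => ?_
    split_ifs
    · rw [Pi.add_apply, dot_add_right]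
    · rw [add_zero]
  unfold btil
  rw [h, map_add]; ring

/-- the form of the chain -/
def OM {s : ℕ} (ω : L → V → V → ZMod 3) (β : ℕ → V →+ ZMod 3) (βC : ℕ → ℕ → ZMod 3 × ZMod 3)
    (b b' : V →+ ZMod 3) (γ γ' : ℕ → ZMod 3 × ZMod 3) (A : LL L s) (x x' : VV V s) : ZMod 3 :=
  ω A.1 x.1 x'.1 + ∑ j, A.2.1 j * J2 (x.2.1 j) (x'.2.1 j) +
   ∑ j : Fin s, A.2.1 j * (btil (β j) (βC j) j x.1 x.2.1 * x'.2.2.1 j -
      btil (β j) (βC j) j x'.1 x'.2.1 * x.2.2.1 j) +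
   ∑ l, (kap A.2.1 A.2.2 x.2.2.1 l * x'.2.2.2 l - kap A.2.1 A.2.2 x'.2.2.1 l * x.2.2.2 l) +
   A.2.2 * J2 (btil b γ s x.1 x.2.1, btil b' γ' s x.1 x.2.1)
      (btil b γ s x'.1 x'.2.1, btil b' γ' s x'.1 x'.2.1)

variable {s : ℕ} {ω : L → V → V → ZMod 3} {β : ℕ → V →+ ZMod 3} {βC : ℕ → ℕ → ZMod 3 × ZMod 3}
    {b b' : V →+ ZMod 3} {γ γ' : ℕ → ZMod 3 × ZMod 3}

theorem OM_addA (hL : ∀ a a' x y, ω (a + a') x y = ω a x y + ω a' x y)
    (A A' : LL L s) (x y : VV V s) :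
    OM ω β βC b b' γ γ' (A + A') x y =
      OM ω β βC b b' γ γ' A x y + OM ω β βC b b' γ γ' A' x y := by
  unfold OM
  simp only [Prod.fst_add, Prod.snd_add, Pi.add_apply, hL, add_mul, Finset.sum_add_distrib,
    kap_add_par, add_sub_add_comm]
  ring

theorem OM_addX (hx : ∀ a x x' y, ω a (x + x') y = ω a x y + ω a x' y)
    (A : LL L s) (x x' y : VV V s) :
    OM ω β βC b b' γ γ' A (x + x') y =
      OM ω β βC b b' γ γ' A x y + OM ω β βC b b' γ γ' A x' y := by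
  have h1 : ∑ j, A.2.1 j * J2 ((x + x').2.1 j) (y.2.1 j) =
      ∑ j, A.2.1 j * J2 (x.2.1 j) (y.2.1 j) + ∑ j, A.2.1 j * J2 (x'.2.1 j) (y.2.1 j) := by
    rw [← Finset.sum_add_distrib]
    refine Finset.sum_congr rfl fun j _ => ?_
    have : (x + x').2.1 j = x.2.1 j + x'.2.1 j := rfl
    rw [this, J2_add_left]; ring
  have h2 : ∑ j : Fin s, A.2.1 j * (btil (β j) (βC j) j (x + x').1 (x + x').2.1 * y.2.2.1 j -
      btil (β j) (βC j) j y.1 y.2.1 * (x + x').2.2.1 j) =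
      ∑ j : Fin s, A.2.1 j * (btil (β j) (βC j) j x.1 x.2.1 * y.2.2.1 j -
      btil (β j) (βC j) j y.1 y.2.1 * x.2.2.1 j) +
      ∑ j : Fin s, A.2.1 j * (btil (β j) (βC j) j x'.1 x'.2.1 * y.2.2.1 j -
      btil (β j) (βC j) j y.1 y.2.1 * x'.2.2.1 j) := by
    rw [← Finset.sum_add_distrib]
    refine Finset.sum_congr rfl fun j _ => ?_
    have e1 : (x + x').2.2.1 j = x.2.2.1 j + x'.2.2.1 j := rfl
    have e2 : (x + x').1 = x.1 + x'.1 := rfl
    have e3 : (x + x').2.1 = x.2.1 + x'.2.1 := rfl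
    rw [e1, e2, e3, btil_add]; ring
  have h3 : ∑ l, (kap A.2.1 A.2.2 (x + x').2.2.1 l * y.2.2.2 l -
      kap A.2.1 A.2.2 y.2.2.1 l * (x + x').2.2.2 l) =
      ∑ l, (kap A.2.1 A.2.2 x.2.2.1 l * y.2.2.2 l - kap A.2.1 A.2.2 y.2.2.1 l * x.2.2.2 l) +
      ∑ l, (kap A.2.1 A.2.2 x'.2.2.1 l * y.2.2.2 l -
        kap A.2.1 A.2.2 y.2.2.1 l * x'.2.2.2 l) := by
    rw [← Finset.sum_add_distrib]
    refine Finset.sum_congr rfl fun l _ => ?_
    have e1 : (x + x').2.2.1 = x.2.2.1 + x'.2.2.1 := rfl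
    have e2 : (x + x').2.2.2 l = x.2.2.2 l + x'.2.2.2 l := rfl
    rw [e1, e2, kap_add]; ring
  have h4 : J2 (btil b γ s (x + x').1 (x + x').2.1, btil b' γ' s (x + x').1 (x + x').2.1)
      (btil b γ s y.1 y.2.1, btil b' γ' s y.1 y.2.1) =
      J2 (btil b γ s x.1 x.2.1, btil b' γ' s x.1 x.2.1)
      (btil b γ s y.1 y.2.1, btil b' γ' s y.1 y.2.1) +
      J2 (btil b γ s x'.1 x'.2.1, btil b' γ' s x'.1 x'.2.1)
      (btil b γ s y.1 y.2.1, btil b' γ' s y.1 y.2.1) := by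
    have e2 : (x + x').1 = x.1 + x'.1 := rfl
    have e3 : (x + x').2.1 = x.2.1 + x'.2.1 := rfl
    rw [e2, e3, btil_add, btil_add, ← J2_add_left]; rfl
  have h5 : ω A.1 (x + x').1 y.1 = ω A.1 x.1 y.1 + ω A.1 x'.1 y.1 := hx _ _ _ _
  unfold OM
  rw [h1, h2, h3, h4, h5]; ring

theorem OM_antisymm (halt : ∀ a x y, ω a x y = - ω a y x) (A : LL L s) (x y : VV V s) :
    OM ω β βC b b' γ γ' A x y = - OM ω β βC b b' γ γ' A y x := by
  unfold OM
  rw [halt, J2_antisymm (btil b γ s x.1 x.2.1, btil b' γ' s x.1 x.2.1), neg_add, neg_add,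
    neg_add, neg_add, ← Finset.sum_neg_distrib, ← Finset.sum_neg_distrib,
    ← Finset.sum_neg_distrib]
  congr 1
  · congr 1
    · congr 1
      · congr 1
        exact Finset.sum_congr rfl fun j _ => by rw [J2_antisymm]; ring
      · exact Finset.sum_congr rfl fun j _ => by ring
    · exact Finset.sum_congr rfl fun j _ => by ring
  · ring

/-! ### the total sum -/

theorem fact3 {I K U : Type} [Fintype I] [Fintype K] [Fintype U] (X : I → U → ℂ)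
    (Y : K → U → ℂ) :
    ∑ x : I, ∑ k : K, ∑ u : U, X x u * Y k u = ∑ u : U, (∑ x, X x u) * ∑ k, Y k u := by
  simp_rw [Finset.sum_mul_sum]
  rw [Finset.sum_comm (s := (Finset.univ : Finset U))]
  refine Finset.sum_congr rfl fun x _ => ?_
  rw [Finset.sum_comm]

/-- the core sum -/
theorem core_sum (f : J → V →+ ZMod 3) (m : J → ℕ) (x x' : V →+ ZMod 3) :
    ∑ i : L × V × V, wt f m i.2.1 i.2.2 * psi (ω i.1 i.2.1 i.2.2) *
      psi (x i.2.1 + x' i.2.2) = Fintype.card V * hV ω f m x x' := by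
  have hcard : (Fintype.card V : ℂ) ≠ 0 := by
    have : Nonempty V := ⟨0⟩
    exact_mod_cast Fintype.card_ne_zero
  rw [hV, mul_div_cancel₀ _ hcard, Fintype.sum_prod_type]
  refine Finset.sum_congr rfl fun a _ => ?_
  rw [Fintype.sum_prod_type]
  refine Finset.sum_congr rfl fun v _ => Finset.sum_congr rfl fun v' _ => ?_
  rw [add_assoc, psi_add (ω a v v')]; ring

theorem core_sum_zero (f : J → V →+ ZMod 3) (m : J → ℕ) :
    ∑ i : L × V × V, wt f m i.2.1 i.2.2 * psi (ω i.1 i.2.1 i.2.2) =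
      Fintype.card V * hV ω f m 0 0 := by
  rw [← core_sum]
  refine Finset.sum_congr rfl fun i _ => ?_
  have : (0 : V →+ ZMod 3) i.2.1 + (0 : V →+ ZMod 3) i.2.2 = 0 := by simp
  rw [this, psi_zero, mul_one]

/-- index type of the planes part -/
abbrev KT (s : ℕ) : Type :=
  (Fin s → ZMod 3) × (Fin s → ZMod 3 × ZMod 3) × (Fin s → ZMod 3 × ZMod 3)

/-- weight of the planes -/
noncomputable def pw {s : ℕ} (M : ℕ → ℕ) (c d : Fin s → ZMod 3 × ZMod 3) : ℂ :=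
  ∏ j : Fin s, cw (M j) (c j) (d j)

/-- `TOT e` -/
noncomputable def TOT (ω : L → V → V → ZMod 3) (β : ℕ → V →+ ZMod 3)
    (βC : ℕ → ℕ → ZMod 3 × ZMod 3) (b b' : V →+ ZMod 3) (γ γ' : ℕ → ZMod 3 × ZMod 3)
    (f : J → V →+ ZMod 3) (m : J → ℕ) (M : ℕ → ℕ) (s : ℕ) (e : ZMod 3) : ℂ :=
  ∑ x : L × V × V, ∑ k : KT s,
    wt f m x.2.1 x.2.2 * psi (ω x.1 x.2.1 x.2.2) * (pw M k.2.1 k.2.2 *
      psi (∑ j, k.1 j * J2 (k.2.1 j) (k.2.2 j)) *
      psi (e * J2 (btil b γ s x.2.1 k.2.1, btil b' γ' s x.2.1 k.2.1)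
        (btil b γ s x.2.2 k.2.2, btil b' γ' s x.2.2 k.2.2)) *
      (9 ^ s * EE k.1 e (fun j => btil (β j) (βC j) j x.2.1 k.2.1)
        (fun j => btil (β j) (βC j) j x.2.2 k.2.2)))

/-- reordering of the variables -/
def reord (V L : Type) (s : ℕ) : (LL L s × (VV V s × VV V s)) ≃
    ZMod 3 × ((L × V × V) × (KT s × (((Fin s → ZMod 3) × (Fin s → ZMod 3)) ×
      ((Fin s → ZMod 3) × (Fin s → ZMod 3))))) where
  toFun p := (p.1.2.2, ((p.1.1, p.2.1.1, p.2.2.1), ((p.1.2.1, p.2.1.2.1, p.2.2.2.1),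
    ((p.2.1.2.2.1, p.2.2.2.2.1), (p.2.1.2.2.2, p.2.2.2.2.2)))))
  invFun r := ((r.2.1.1, (r.2.2.1.1, r.1)), ((r.2.1.2.1, (r.2.2.1.2.1, (r.2.2.2.1.1, r.2.2.2.2.1))),
    (r.2.1.2.2, (r.2.2.1.2.2, (r.2.2.2.1.2, r.2.2.2.2.2)))))
  left_inv _ := rfl
  right_inv _ := rfl

theorem total_eq_TOT (f : J → V →+ ZMod 3) (m : J → ℕ) (M : ℕ → ℕ) :
    ∑ A : LL L s, ∑ q : VV V s × VV V s, (wt f m q.1.1 q.2.1 * pw M q.1.2.1 q.2.2.1) *
      psi (OM ω β βC b b' γ γ' A q.1 q.2) = ∑ e, TOT ω β βC b b' γ γ' f m M s e := by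
  rw [← Fintype.sum_prod_type' (fun (A : LL L s) (q : VV V s × VV V s) =>
    (wt f m q.1.1 q.2.1 * pw M q.1.2.1 q.2.2.1) * psi (OM ω β βC b b' γ γ' A q.1 q.2)),
    ← Equiv.sum_comp (reord V L s).symm, Fintype.sum_prod_type]
  refine Finset.sum_congr rfl fun e _ => ?_
  rw [Fintype.sum_prod_type, TOT]
  refine Finset.sum_congr rfl fun x _ => ?_
  rw [Fintype.sum_prod_type]
  refine Finset.sum_congr rfl fun k _ => ?_
  rw [Fintype.sum_prod_type]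
  have h1 : ∀ yy zz : (Fin s → ZMod 3) × (Fin s → ZMod 3),
      (fun (p : LL L s × (VV V s × VV V s)) => (wt f m p.2.1.1 p.2.2.1 *
        pw M p.2.1.2.1 p.2.2.2.1) * psi (OM ω β βC b b' γ γ' p.1 p.2.1 p.2.2))
        ((reord V L s).symm (e, (x, (k, (yy, zz))))) =
      wt f m x.2.1 x.2.2 * psi (ω x.1 x.2.1 x.2.2) * (pw M k.2.1 k.2.2 *
      psi (∑ j, k.1 j * J2 (k.2.1 j) (k.2.2 j)) *
      psi (e * J2 (btil b γ s x.2.1 k.2.1, btil b' γ' s x.2.1 k.2.1)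
        (btil b γ s x.2.2 k.2.2, btil b' γ' s x.2.2 k.2.2))) *
      psi (∑ j : Fin s, k.1 j * (btil (β j) (βC j) j x.2.1 k.2.1 * yy.2 j -
        btil (β j) (βC j) j x.2.2 k.2.2 * yy.1 j)) *
      psi (∑ l, (kap k.1 e yy.1 l * zz.2 l - kap k.1 e yy.2 l * zz.1 l)) := by
    intro yy zz
    have e1 : OM ω β βC b b' γ γ' ((reord V L s).symm (e, (x, (k, (yy, zz))))).1
        ((reord V L s).symm (e, (x, (k, (yy, zz))))).2.1
        ((reord V L s).symm (e, (x, (k, (yy, zz))))).2.2 =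
        ω x.1 x.2.1 x.2.2 + ∑ j, k.1 j * J2 (k.2.1 j) (k.2.2 j) +
        ∑ j : Fin s, k.1 j * (btil (β j) (βC j) j x.2.1 k.2.1 * yy.2 j -
          btil (β j) (βC j) j x.2.2 k.2.2 * yy.1 j) +
        ∑ l, (kap k.1 e yy.1 l * zz.2 l - kap k.1 e yy.2 l * zz.1 l) +
        e * J2 (btil b γ s x.2.1 k.2.1, btil b' γ' s x.2.1 k.2.1)
          (btil b γ s x.2.2 k.2.2, btil b' γ' s x.2.2 k.2.2) := rfl
    change (wt f m x.2.1 x.2.2 * pw M k.2.1 k.2.2) * psi (OM ω β βC b b' γ γ'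
        ((reord V L s).symm (e, (x, (k, (yy, zz))))).1
        ((reord V L s).symm (e, (x, (k, (yy, zz))))).2.1
        ((reord V L s).symm (e, (x, (k, (yy, zz))))).2.2) = _
    rw [e1, psi_add, psi_add, psi_add, psi_add]
    ring
  have h2 : ∀ yy : (Fin s → ZMod 3) × (Fin s → ZMod 3), (if kap k.1 e yy.1 = 0 ∧
      kap k.1 e yy.2 = 0 then psi (∑ j : Fin s, k.1 j * (btil (β j) (βC j) j x.2.1 k.2.1 *
        yy.2 j - btil (β j) (βC j) j x.2.2 k.2.2 * yy.1 j)) else 0) =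
      psi (∑ j : Fin s, k.1 j * (btil (β j) (βC j) j x.2.1 k.2.1 * yy.2 j -
        btil (β j) (βC j) j x.2.2 k.2.2 * yy.1 j)) *
        (if kap k.1 e yy.1 = 0 ∧ kap k.1 e yy.2 = 0 then 1 else 0) := by
    intro yy; split_ifs <;> ring
  calc _ = ∑ yy : (Fin s → ZMod 3) × (Fin s → ZMod 3),
        ∑ zz : (Fin s → ZMod 3) × (Fin s → ZMod 3),
        wt f m x.2.1 x.2.2 * psi (ω x.1 x.2.1 x.2.2) * (pw M k.2.1 k.2.2 *
      psi (∑ j, k.1 j * J2 (k.2.1 j) (k.2.2 j)) *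
      psi (e * J2 (btil b γ s x.2.1 k.2.1, btil b' γ' s x.2.1 k.2.1)
        (btil b γ s x.2.2 k.2.2, btil b' γ' s x.2.2 k.2.2))) *
      psi (∑ j : Fin s, k.1 j * (btil (β j) (βC j) j x.2.1 k.2.1 * yy.2 j -
        btil (β j) (βC j) j x.2.2 k.2.2 * yy.1 j)) *
      psi (∑ l, (kap k.1 e yy.1 l * zz.2 l - kap k.1 e yy.2 l * zz.1 l)) :=
        Finset.sum_congr rfl fun yy _ => Finset.sum_congr rfl fun zz _ => h1 yy zz
    _ = ∑ yy : (Fin s → ZMod 3) × (Fin s → ZMod 3),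
        wt f m x.2.1 x.2.2 * psi (ω x.1 x.2.1 x.2.2) * (pw M k.2.1 k.2.2 *
      psi (∑ j, k.1 j * J2 (k.2.1 j) (k.2.2 j)) *
      psi (e * J2 (btil b γ s x.2.1 k.2.1, btil b' γ' s x.2.1 k.2.1)
        (btil b γ s x.2.2 k.2.2, btil b' γ' s x.2.2 k.2.2))) * (9 ^ s *
      (if kap k.1 e yy.1 = 0 ∧ kap k.1 e yy.2 = 0 then
        psi (∑ j : Fin s, k.1 j * (btil (β j) (βC j) j x.2.1 k.2.1 * yy.2 j -
        btil (β j) (βC j) j x.2.2 k.2.2 * yy.1 j)) else 0)) := by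
        refine Finset.sum_congr rfl fun yy _ => ?_
        rw [← Finset.mul_sum, sum_zz, h2]
        split_ifs <;> ring
    _ = _ := by
        rw [← Finset.mul_sum, ← Finset.mul_sum]
        have : (∑ yy : (Fin s → ZMod 3) × (Fin s → ZMod 3),
          (if kap k.1 e yy.1 = 0 ∧ kap k.1 e yy.2 = 0 then
        psi (∑ j : Fin s, k.1 j * (btil (β j) (βC j) j x.2.1 k.2.1 * yy.2 j -
        btil (β j) (βC j) j x.2.2 k.2.2 * yy.1 j)) else 0)) =
          (EE k.1 e (fun j => btil (β j) (βC j) j x.2.1 k.2.1)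
            (fun j => btil (β j) (βC j) j x.2.2 k.2.2)) := rfl
        rw [this]; ring

end

end Pool.Agent.Lib.MP_cfac74_al.Ch
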