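import Pool.Agent.Lib.MP_cfac74_al.Ch.Chain
import Pool.Agent.Lib.MP_cfac74_al.Ch.Orbit

/-!
# MP_cfac74_al : the chain theorem in terms of sets of integers
-/

set_option autoImplicit false
set_option linter.unusedSectionVars false

namespace Pool.Agent.Lib.MP_cfac74_al.Ch

open Finset Pool.Agent.Lib.MP_cfac74_al.Dec

/-- `∏_{j < i} (3 M_j + 8)` -/
def PP (M : ℕ → ℕ) (i : ℕ) : ℤ := ∏ j ∈ range i, (3 * (M j : ℤ) + 8)

section

variable {V : Type} [AddCommGroup V] [Module (ZMod 3) V]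

/-- the possible values of `N_i` -/
def NInt (H : (V →+ ZMod 3) → (V →+ ZMod 3) → ℤ) (M : ℕ → ℕ) (i : ℕ) : Set ℤ :=
  {z | ∃ (β : V →+ ZMod 3) (βC : ℕ → ZMod 3 × ZMod 3),
    z = H 0 0 * PP M i + 8 * (H β 0 * ∏ j ∈ range i, hCz (M j) (βC j) 0)}

/-- the possible values of `K_i` -/
def KInt (H : (V →+ ZMod 3) → (V →+ ZMod 3) → ℤ) (M : ℕ → ℕ) : ℕ → Set ℤ
  | 0 => {z | z = H 0 0}
  | i + 1 => {z | ∃ K ∈ KInt H M i, ∃ N ∈ NInt H M i,
      z = 9 * ((M i : ℤ) + 8) * K + 2 * (M i : ℤ) * N}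

/-- the possible values of `N'` (top generator) -/
def TInt (H : (V →+ ZMod 3) → (V →+ ZMod 3) → ℤ) (M : ℕ → ℕ) (s : ℕ) : Set ℤ :=
  {z | ∃ (b b' : V →+ ZMod 3) (c c' : ℕ → ZMod 3 × ZMod 3),
    z = H 0 0 * PP M s +
      8 * (∑ i : Fin 4, H ((lineC i).1 • b + (lineC i).2 • b') 0 *
        ∏ j ∈ range s, hCz (M j) ((lineC i).1 • c j + (lineC i).2 • c' j) 0) -
      24 * (H b b' * ∏ j ∈ range s, hCz (M j) (c j) (c' j))}

theorem KK_congr (H : (V →+ ZMod 3) → (V →+ ZMod 3) → ℂ) (M : ℕ → ℕ)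
    (β β₁ : ℕ → V →+ ZMod 3) (βC βC₁ : ℕ → ℕ → ZMod 3 × ZMod 3) (s : ℕ)
    (h : ∀ i < s, β i = β₁ i) (h' : ∀ i < s, βC i = βC₁ i) :
    KK H M β βC s = KK H M β₁ βC₁ s := by
  induction s with
  | zero => rfl
  | succ s ih =>
    unfold KK
    rw [ih (fun i hi => h i (by omega)) (fun i hi => h' i (by omega)), h s (by omega),
      h' s (by omega)]

theorem NN_int [Fintype V] {H : (V →+ ZMod 3) → (V →+ ZMod 3) → ℂ} (hH : GLinv H)
    (Hz : (V →+ ZMod 3) → (V →+ ZMod 3) → ℤ) (hz : ∀ x x', H x x' = ((Hz x x' : ℤ) : ℂ))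
    (M : ℕ → ℕ) (i : ℕ) {z : ℤ} (h : z ∈ NInt Hz M i) :
    ∃ (β : V →+ ZMod 3) (βC : ℕ → ZMod 3 × ZMod 3), NN H M β βC i = (z : ℂ) := by
  obtain ⟨β, βC, h⟩ := h
  refine ⟨β, βC, ?_⟩
  rw [NN_val hH, h, hz, hz]
  unfold PP
  push_cast
  simp_rw [hC_val]

theorem KK_int [Fintype V] {H : (V →+ ZMod 3) → (V →+ ZMod 3) → ℂ} (hH : GLinv H)
    (Hz : (V →+ ZMod 3) → (V →+ ZMod 3) → ℤ) (hz : ∀ x x', H x x' = ((Hz x x' : ℤ) : ℂ))
    (M : ℕ → ℕ) (s : ℕ) : ∀ {z : ℤ}, z ∈ KInt Hz M s →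
    ∃ (β : ℕ → V →+ ZMod 3) (βC : ℕ → ℕ → ZMod 3 × ZMod 3), KK H M β βC s = (z : ℂ) := by
  induction s with
  | zero =>
    intro z h
    have h' : z = Hz 0 0 := h
    exact ⟨fun _ => 0, fun _ _ => 0, by rw [h', ← hz]; rfl⟩
  | succ s ih =>
    intro z h
    obtain ⟨K, hK, N, hN, h⟩ := h
    obtain ⟨β, βC, h1⟩ := ih hK
    obtain ⟨γ, γC, h2⟩ := NN_int hH Hz hz M s hN
    refine ⟨Function.update β s γ, Function.update βC s γC, ?_⟩
    have h3 : KK H M (Function.update β s γ) (Function.update βC s γC) s = KK H M β βC s :=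
      KK_congr H M _ _ _ _ s (fun i hi => Function.update_of_ne (by omega) _ _)
        (fun i hi => Function.update_of_ne (by omega) _ _)
    unfold KK
    rw [h3, h1, Function.update_self, Function.update_self, h2, h]
    push_cast
    ring

theorem NT_int [Fintype V] {H : (V →+ ZMod 3) → (V →+ ZMod 3) → ℂ} (hH : GLinv H)
    (Hz : (V →+ ZMod 3) → (V →+ ZMod 3) → ℤ) (hz : ∀ x x', H x x' = ((Hz x x' : ℤ) : ℂ))
    (M : ℕ → ℕ) (s : ℕ) {z : ℤ} (h : z ∈ TInt Hz M s) :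
    ∃ (b b' : V →+ ZMod 3) (c c' : ℕ → ZMod 3 × ZMod 3), NT H M b b' c c' s = (z : ℂ) := by
  obtain ⟨b, b', c, c', h⟩ := h
  refine ⟨b, b', c, c', ?_⟩
  rw [NT_val hH, h]
  unfold PP
  push_cast
  simp_rw [hC_val, hz]

/-! ### Extension by undecorated planes (`M = 1`) -/

theorem hCz_zero (M : ℕ) : hCz M 0 0 = 3 * (M : ℤ) + 8 := by
  unfold hCz
  have : cc (J2 0 0) = 2 := by decide
  rw [this, if_pos ⟨rfl, rfl⟩, if_pos ⟨rfl, rfl⟩]
  ring

theorem PP_succ (M : ℕ → ℕ) (i : ℕ) : PP M (i + 1) = PP M i * (3 * (M i : ℤ) + 8) := by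
  unfold PP; rw [Finset.prod_range_succ]

theorem prod_update (M : ℕ → ℕ) (g : ℕ → ZMod 3 × ZMod 3) (i : ℕ) (p q : ZMod 3 × ZMod 3)
    (g' : ℕ → ZMod 3 × ZMod 3) :
    ∏ j ∈ range (i + 1), hCz (M j) (Function.update g i p j) (Function.update g' i q j) =
      (∏ j ∈ range i, hCz (M j) (g j) (g' j)) * hCz (M i) p q := by
  rw [Finset.prod_range_succ, Function.update_self, Function.update_self]
  congr 1
  refine Finset.prod_congr rfl fun j hj => ?_
  rw [Function.update_of_ne (by have := Finset.mem_range.1 hj; omega),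
    Function.update_of_ne (by have := Finset.mem_range.1 hj; omega)]

theorem NInt_ext (H : (V →+ ZMod 3) → (V →+ ZMod 3) → ℤ) (M : ℕ → ℕ) (i : ℕ) {z : ℤ}
    (h : z ∈ NInt H M i) : (3 * (M i : ℤ) + 8) * z ∈ NInt H M (i + 1) := by
  obtain ⟨β, βC, rfl⟩ := h
  refine ⟨β, Function.update βC i 0, ?_⟩
  have h1 : ∏ j ∈ range (i + 1), hCz (M j) (Function.update βC i 0 j) 0 =
      (∏ j ∈ range i, hCz (M j) (βC j) 0) * (3 * (M i : ℤ) + 8) := by
    have h2 := prod_update M βC i 0 0 (fun _ => 0)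
    rw [hCz_zero] at h2
    rw [← h2]
    refine Finset.prod_congr rfl fun j _ => ?_
    congr 1
    by_cases hj : j = i
    · subst hj; rw [Function.update_self]
    · rw [Function.update_of_ne hj]
  rw [h1, PP_succ]
  ring

theorem TInt_ext (H : (V →+ ZMod 3) → (V →+ ZMod 3) → ℤ) (M : ℕ → ℕ) (i : ℕ) {z : ℤ}
    (h : z ∈ TInt H M i) : (3 * (M i : ℤ) + 8) * z ∈ TInt H M (i + 1) := by
  obtain ⟨b, b', c, c', rfl⟩ := h
  refine ⟨b, b', Function.update c i 0, Function.update c' i 0, ?_⟩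
  have h0 : ∀ l : ZMod 3 × ZMod 3, ∏ j ∈ range (i + 1),
      hCz (M j) (l.1 • Function.update c i 0 j + l.2 • Function.update c' i 0 j) 0 =
      (∏ j ∈ range i, hCz (M j) (l.1 • c j + l.2 • c' j) 0) * (3 * (M i : ℤ) + 8) := by
    intro l
    rw [Finset.prod_range_succ, Function.update_self, Function.update_self, smul_zero, smul_zero,
      add_zero, hCz_zero]
    congr 1
    refine Finset.prod_congr rfl fun j hj => ?_
    rw [Function.update_of_ne (by have := Finset.mem_range.1 hj; omega),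
      Function.update_of_ne (by have := Finset.mem_range.1 hj; omega)]
  rw [prod_update, hCz_zero, PP_succ]
  simp_rw [h0]
  rw [mul_sub, mul_add]
  congr 1
  · congr 1
    · ring
    · rw [Finset.mul_sum, Finset.mul_sum, Finset.mul_sum]
      exact Finset.sum_congr rfl fun j _ => by ring
  · ring

end

section

variable {V L J : Type} [AddCommGroup V] [AddCommGroup L] [Fintype V] [Fintype L]
  [Module (ZMod 3) V] [Module (ZMod 3) L] [Fintype J]

/-- **the chain theorem for sets of integers** -/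
theorem good_of_sets (hV3 : Odd (Nat.card V))
    (ω : L → V → V → ZMod 3)
    (hL : ∀ a a' x y, ω (a + a') x y = ω a x y + ω a' x y)
    (hx : ∀ a x x' y, ω a (x + x') y = ω a x y + ω a x' y)
    (halt : ∀ a x y, ω a x y = - ω a y x)
    (f : J → V →+ ZMod 3) (m : J → ℕ) (hm : ∀ j, Nm (m j)) (h1 : ∀ j, m j % 3 = 1)
    (Hz : (V →+ ZMod 3) → (V →+ ZMod 3) → ℤ) (hz : ∀ x x', hV ω f m x x' = ((Hz x x' : ℤ) : ℂ))
    (s : ℕ) (hs : 0 < s) (M : ℕ → ℕ) (hM : ∀ i, i < s → Nm (M i)) (hM1 : ∀ i, i < s → M i % 3 = 1)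
    {K N : ℤ} (hK : K ∈ KInt Hz M s) (hN : N ∈ TInt Hz M s) (t : ℕ)
    (ht : 9 * (t : ℤ) = 9 * K + 2 * N) : Good t := by
  classical
  have hG := hV_GLinv ω hL hx halt f m
  obtain ⟨β, βC, h2⟩ := KK_int hG Hz hz M s hK
  obtain ⟨b, b', c, c', h3⟩ := NT_int hG Hz hz M s hN
  obtain ⟨G, g1, g2, g3, g4, g5⟩ := chain_raw hV3 ω hL hx halt f (fun _ => false) m hm
    (fun j _ => h1 j) s hs M hM hM1 β βC b b' c c'
  refine ⟨G, g1, g2, g3, g4, ?_⟩
  rw [h2, h3] at g5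
  have h4 : (Finset.univ.filter (fun _ : J => (false = true))).card = 0 := by
    rw [Finset.card_eq_zero, Finset.filter_eq_empty_iff]
    intro j _; simp
  rw [h4, pow_zero, one_mul] at g5
  have h5 : (9 : ℂ) * (Nat.card (ConjClasses G) : ℂ) = 9 * (t : ℂ) := by
    rw [g5]
    have := congrArg (Int.cast : ℤ → ℂ) ht
    push_cast at this
    exact this.symm
  have h6 := mul_left_cancel₀ (by norm_num : (9 : ℂ) ≠ 0) h5
  exact_mod_cast h6

end

end Pool.Agent.Lib.MP_cfac74_al.Ch
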