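import Pool.Agent.Lib.MP_cfac74_al.Ch.Raw

/-!
# MP_cfac74_al : the chain theorem, evaluation of the total sum
-/

set_option autoImplicit false
set_option linter.unusedSectionVars false

namespace Pool.Agent.Lib.MP_cfac74_al.Ch

open Finset Pool.Agent.Lib.MP_cfac74_al.Dec

section

variable {V L J : Type} [AddCommGroup V] [AddCommGroup L] [Fintype V] [Fintype L]
  [Module (ZMod 3) L] [Fintype J]

variable {s : ℕ} {ω : L → V → V → ZMod 3} {β : ℕ → V →+ ZMod 3} {βC : ℕ → ℕ → ZMod 3 × ZMod 3}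
    {b b' : V →+ ZMod 3} {γ γ' : ℕ → ZMod 3 × ZMod 3}

/-- `u β̃(v,c) + u' β̃(v',d)` -/
theorem btil_comb (β₀ : V →+ ZMod 3) (g : ℕ → ZMod 3 × ZMod 3) (n : ℕ) (u u' : ZMod 3) (v v' : V)
    (c d : Fin s → ZMod 3 × ZMod 3) :
    u * btil β₀ g n v c + u' * btil β₀ g n v' d =
      ((u • β₀) v + (u' • β₀) v') +
        ∑ j : Fin s, if j.1 < n then dot (u • g j) (c j) + dot (u' • g j) (d j) else 0 := by
  have h : ∑ j : Fin s, (if j.1 < n then dot (u • g j) (c j) + dot (u' • g j) (d j) else 0) =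
      u * (∑ j : Fin s, if j.1 < n then dot (g j) (c j) else 0) +
        u' * ∑ j : Fin s, if j.1 < n then dot (g j) (d j) else 0 := by
    rw [Finset.mul_sum, Finset.mul_sum, ← Finset.sum_add_distrib]
    refine Finset.sum_congr rfl fun j _ => ?_
    split_ifs
    · rw [dot_smul_left, dot_smul_left]
    · ring
  rw [h]
  unfold btil
  have e1 : (u • β₀) v = u * β₀ v := rfl
  have e2 : (u' • β₀) v' = u' * β₀ v' := rfl
  rw [e1, e2]; ring

/-- the part `e = 0` -/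
theorem TOT_zero (f : J → V →+ ZMod 3) (m : J → ℕ) (M : ℕ → ℕ) :
    TOT ω β βC b b' γ γ' f m M s 0 =
      Fintype.card V * 81 ^ s * KK (hV ω f m) M β βC s := by
  classical
  set Cv : ℂ := (Fintype.card V : ℂ) with hCv
  set H := hV ω f m with hH
  -- as a sum over `a`
  set Φ : (Fin s → ZMod 3) → ℂ := fun a => ∑ x : L × V × V,
    ∑ k : (Fin s → ZMod 3 × ZMod 3) × (Fin s → ZMod 3 × ZMod 3),
    wt f m x.2.1 x.2.2 * psi (ω x.1 x.2.1 x.2.2) * (pw M k.1 k.2 *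
      psi (∑ j, a j * J2 (k.1 j) (k.2 j)) *
      (9 ^ s * EE a 0 (fun j => btil (β j) (βC j) j x.2.1 k.1)
        (fun j => btil (β j) (βC j) j x.2.2 k.2))) with hΦ
  have h0 : TOT ω β βC b b' γ γ' f m M s 0 = ∑ a, Φ a := by
    rw [TOT, hΦ, Finset.sum_comm]
    conv_rhs => rw [Finset.sum_comm]
    have : ∀ x : L × V × V, ∑ k : KT s,
        wt f m x.2.1 x.2.2 * psi (ω x.1 x.2.1 x.2.2) * (pw M k.2.1 k.2.2 *
      psi (∑ j, k.1 j * J2 (k.2.1 j) (k.2.2 j)) *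
      psi (0 * J2 (btil b γ s x.2.1 k.2.1, btil b' γ' s x.2.1 k.2.1)
        (btil b γ s x.2.2 k.2.2, btil b' γ' s x.2.2 k.2.2)) *
      (9 ^ s * EE k.1 0 (fun j => btil (β j) (βC j) j x.2.1 k.2.1)
        (fun j => btil (β j) (βC j) j x.2.2 k.2.2))) =
        ∑ a : Fin s → ZMod 3, ∑ k : (Fin s → ZMod 3 × ZMod 3) × (Fin s → ZMod 3 × ZMod 3),
    wt f m x.2.1 x.2.2 * psi (ω x.1 x.2.1 x.2.2) * (pw M k.1 k.2 *
      psi (∑ j, a j * J2 (k.1 j) (k.2 j)) *
      (9 ^ s * EE a 0 (fun j => btil (β j) (βC j) j x.2.1 k.1)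
        (fun j => btil (β j) (βC j) j x.2.2 k.2))) := by
      intro x
      rw [Fintype.sum_prod_type]
      refine Finset.sum_congr rfl fun a _ => Finset.sum_congr rfl fun k _ => ?_
      rw [zero_mul, psi_zero, mul_one]
    rw [Finset.sum_comm]
    exact Finset.sum_congr rfl fun x _ => this x
  -- `a = 0`
  have h1 : Φ 0 = Cv * 81 ^ s * (9 ^ s * (∏ j ∈ range s, ((M j : ℂ) + 8)) * H 0 0) := by
    have e1 : Φ 0 = ∑ x : L × V × V,
        ∑ k : (Fin s → ZMod 3 × ZMod 3) × (Fin s → ZMod 3 × ZMod 3),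
        (wt f m x.2.1 x.2.2 * psi (ω x.1 x.2.1 x.2.2)) * (pw M k.1 k.2 * (9 ^ s * 9 ^ s)) := by
      rw [hΦ]
      refine Finset.sum_congr rfl fun x _ => Finset.sum_congr rfl fun k _ => ?_
      rw [EE_zero]
      have : ∑ j, (0 : Fin s → ZMod 3) j * J2 (k.1 j) (k.2 j) = 0 :=
        Finset.sum_eq_zero fun j _ => by rw [Pi.zero_apply, zero_mul]
      rw [this, psi_zero, mul_one]
    rw [e1]
    rw [← Finset.sum_mul_sum, core_sum_zero, ← Finset.sum_mul, Fintype.sum_prod_type]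
    have e2 : ∑ c : Fin s → ZMod 3 × ZMod 3, ∑ d : Fin s → ZMod 3 × ZMod 3, pw M c d =
      ∏ j ∈ range s, 9 * ((M j : ℂ) + 8) := plane_zero M
    rw [e2, Finset.prod_mul_distrib, Finset.prod_const, Finset.card_range]
    have e3 : (81 : ℂ) ^ s = 9 ^ s * 9 ^ s := by rw [← mul_pow]; norm_num
    rw [e3]; ring
  -- top index `i`
  have h2 : ∀ i : Fin s, (∑ a : Fin s → ZMod 3,
      if a i ≠ 0 ∧ ∀ j : Fin s, i < j → a j = 0 then Φ a else 0) =
      Cv * 81 ^ s * (9 ^ (s - 1 - i.1) * (∏ j ∈ Ico (i.1 + 1) s, ((M j : ℂ) + 8)) *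
        (2 * (M i.1 : ℂ) * NN H M (β i.1) (βC i.1) i.1)) := by
    intro i
    have e1 : ∀ a : Fin s → ZMod 3,
        (if a i ≠ 0 ∧ ∀ j : Fin s, i < j → a j = 0 then Φ a else 0) =
        ∑ x : L × V × V, ∑ k : (Fin s → ZMod 3 × ZMod 3) × (Fin s → ZMod 3 × ZMod 3),
        ∑ u : ZMod 3 × ZMod 3,
        (9 ^ s * 9 ^ (s - 1 - i.1) * (wt f m x.2.1 x.2.2 * psi (ω x.1 x.2.1 x.2.2) *
          psi ((u.1 • β i.1) x.2.1 + (u.2 • β i.1) x.2.2))) *
        ((if a i ≠ 0 ∧ ∀ j : Fin s, i < j → a j = 0 then (1 : ℂ) else 0) *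
        ((∏ j : Fin s, cw (M j) (k.1 j) (k.2 j)) * (psi (∑ j, a j * J2 (k.1 j) (k.2 j)) *
          psi (∑ j : Fin s, if j.1 < i.1 then
            dot (u.1 • βC i.1 j) (k.1 j) + dot (u.2 • βC i.1 j) (k.2 j) else 0)))) := by
      intro a
      by_cases h : a i ≠ 0 ∧ ∀ j : Fin s, i < j → a j = 0
      · rw [if_pos h, hΦ]
        refine Finset.sum_congr rfl fun x _ => Finset.sum_congr rfl fun k _ => ?_
        rw [EE_top a _ _ i h.1 h.2, if_pos h, Fintype.sum_prod_type]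
        simp_rw [Finset.mul_sum]
        refine Finset.sum_congr rfl fun u _ => Finset.sum_congr rfl fun u' _ => ?_
        rw [btil_comb, psi_add, pw]
        ring
      · rw [if_neg h]
        symm
        refine Finset.sum_eq_zero fun x _ => Finset.sum_eq_zero fun k _ =>
          Finset.sum_eq_zero fun u _ => ?_
        rw [if_neg h, zero_mul, mul_zero]
    simp_rw [e1]
    have e2 : ∀ (X : L × V × V → ZMod 3 × ZMod 3 → ℂ)
        (Y : (Fin s → ZMod 3) → (Fin s → ZMod 3 × ZMod 3) × (Fin s → ZMod 3 × ZMod 3) →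
          ZMod 3 × ZMod 3 → ℂ),
        ∑ a : Fin s → ZMod 3, ∑ x : L × V × V,
          ∑ k : (Fin s → ZMod 3 × ZMod 3) × (Fin s → ZMod 3 × ZMod 3),
          ∑ u : ZMod 3 × ZMod 3, X x u * Y a k u =
        ∑ u : ZMod 3 × ZMod 3, (∑ x, X x u) * ∑ a, ∑ k, Y a k u := by
      intro X Y
      rw [Finset.sum_comm]
      have := fact3 X (fun (ak : (Fin s → ZMod 3) × ((Fin s → ZMod 3 × ZMod 3) ×
        (Fin s → ZMod 3 × ZMod 3))) u => Y ak.1 ak.2 u)
      simp only [Fintype.sum_prod_type (α₁ := Fin s → ZMod 3)] at this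
      exact this
    rw [e2]
    have e3 : ∀ u : ZMod 3 × ZMod 3, (∑ x : L × V × V,
        9 ^ s * 9 ^ (s - 1 - i.1) * (wt f m x.2.1 x.2.2 * psi (ω x.1 x.2.1 x.2.2) *
          psi ((u.1 • β i.1) x.2.1 + (u.2 • β i.1) x.2.2))) =
        9 ^ s * 9 ^ (s - 1 - i.1) * (Cv * H (u.1 • β i.1) (u.2 • β i.1)) := by
      intro u
      rw [← Finset.mul_sum, core_sum]
    have e4 : ∀ u : ZMod 3 × ZMod 3, (∑ a : Fin s → ZMod 3,
        ∑ k : (Fin s → ZMod 3 × ZMod 3) × (Fin s → ZMod 3 × ZMod 3),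
        (if a i ≠ 0 ∧ ∀ j : Fin s, i < j → a j = 0 then (1 : ℂ) else 0) *
        ((∏ j : Fin s, cw (M j) (k.1 j) (k.2 j)) * (psi (∑ j, a j * J2 (k.1 j) (k.2 j)) *
          psi (∑ j : Fin s, if j.1 < i.1 then
            dot (u.1 • βC i.1 j) (k.1 j) + dot (u.2 • βC i.1 j) (k.2 j) else 0)))) =
        (∏ j ∈ range i.1, 9 * hC (M j) (u.1 • βC i.1 j) (u.2 • βC i.1 j)) *
          (18 * (M i.1 : ℂ)) * ∏ j ∈ Ico (i.1 + 1) s, 9 * ((M j : ℂ) + 8) := by
      intro u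
      rw [← plane_top M i (fun j => u.1 • βC i.1 j) (fun j => u.2 • βC i.1 j)]
      refine Finset.sum_congr rfl fun a _ => ?_
      rw [Fintype.sum_prod_type]
    simp_rw [e3, e4]
    rw [NN, ← Fintype.sum_prod_type' (fun u u' : ZMod 3 => H (u • β i.1) (u' • β i.1) *
      ∏ j ∈ range i.1, hC (M j) (u • βC i.1 j) (u' • βC i.1 j))]
    simp_rw [Finset.mul_sum]
    refine Finset.sum_congr rfl fun u _ => ?_
    rw [Finset.prod_mul_distrib, Finset.prod_mul_distrib, Finset.prod_const, Finset.prod_const,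
      Finset.card_range, Nat.card_Ico]
    have e5 : (81 : ℂ) ^ s = 9 ^ s * (9 ^ i.1 * 9 * 9 ^ (s - (i.1 + 1))) := by
      have : (9 : ℂ) ^ i.1 * 9 * 9 ^ (s - (i.1 + 1)) = 9 ^ s := by
        rw [← pow_succ, ← pow_add]; congr 1; have := i.2; omega
      rw [this, ← mul_pow]; norm_num
    rw [e5]; ring
  rw [h0, sum_top, h1, Finset.sum_congr rfl fun i _ => h2 i, KK_closed, ← Finset.mul_sum,
    Finset.sum_range]
  ring

/-- the part `e = 1` -/
theorem TOT_one (f : J → V →+ ZMod 3) (m : J → ℕ) (M : ℕ → ℕ) :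
    TOT ω β βC b b' γ γ' f m M s 1 =
      Fintype.card V * 81 ^ s * (1 / 9 * NT (hV ω f m) M b b' γ γ' s) := by
  classical
  set Cv : ℂ := (Fintype.card V : ℂ) with hCv
  set H := hV ω f m with hH
  have h1 : TOT ω β βC b b' γ γ' f m M s 1 = ∑ x : L × V × V, ∑ k : KT s,
      ∑ u : (ZMod 3 × ZMod 3) × (ZMod 3 × ZMod 3),
      (9 ^ s / 9 * psi (-(J2 u.1 u.2)) * (wt f m x.2.1 x.2.2 * psi (ω x.1 x.2.1 x.2.2) *
        psi ((u.1.1 • b + u.1.2 • b') x.2.1 + (u.2.1 • b + u.2.2 • b') x.2.2))) *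
      ((∏ j : Fin s, cw (M j) (k.2.1 j) (k.2.2 j)) *
        (psi (∑ j, k.1 j * J2 (k.2.1 j) (k.2.2 j)) *
          psi (∑ j : Fin s, (dot (u.1.1 • γ j + u.1.2 • γ' j) (k.2.1 j) +
            dot (u.2.1 • γ j + u.2.2 • γ' j) (k.2.2 j))))) := by
    rw [TOT]
    refine Finset.sum_congr rfl fun x _ => Finset.sum_congr rfl fun k _ => ?_
    rw [EE_full _ _ (by decide), one_mul, mul_one]
    have e1 := psi_J2 (btil b γ s x.2.1 k.2.1, btil b' γ' s x.2.1 k.2.1)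
        (btil b γ s x.2.2 k.2.2, btil b' γ' s x.2.2 k.2.2)
    have e2 : psi (J2 (btil b γ s x.2.1 k.2.1, btil b' γ' s x.2.1 k.2.1)
        (btil b γ s x.2.2 k.2.2, btil b' γ' s x.2.2 k.2.2)) =
        1 / 9 * ∑ p : ZMod 3 × ZMod 3, ∑ q : ZMod 3 × ZMod 3, psi (-(J2 p q)) *
          psi (dot p (btil b γ s x.2.1 k.2.1, btil b' γ' s x.2.1 k.2.1) +
            dot q (btil b γ s x.2.2 k.2.2, btil b' γ' s x.2.2 k.2.2)) := by
      rw [e1]; ring
    rw [e2, Fintype.sum_prod_type (α₁ := ZMod 3 × ZMod 3) (α₂ := ZMod 3 × ZMod 3)]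
    simp_rw [Finset.mul_sum, Finset.sum_mul]
    simp_rw [Finset.mul_sum]
    refine Finset.sum_congr rfl fun p _ => ?_
    refine Finset.sum_congr rfl fun q _ => ?_
    have e3 : dot p (btil b γ s x.2.1 k.2.1, btil b' γ' s x.2.1 k.2.1) +
            dot q (btil b γ s x.2.2 k.2.2, btil b' γ' s x.2.2 k.2.2) =
        ((p.1 • b + p.2 • b') x.2.1 + (q.1 • b + q.2 • b') x.2.2) +
        ∑ j : Fin s, (dot (p.1 • γ j + p.2 • γ' j) (k.2.1 j) +
            dot (q.1 • γ j + q.2 • γ' j) (k.2.2 j)) := by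
      have g1 := btil_comb b γ s p.1 q.1 x.2.1 x.2.2 k.2.1 k.2.2
      have g2 := btil_comb b' γ' s p.2 q.2 x.2.1 x.2.2 k.2.1 k.2.2
      have g3 : dot p (btil b γ s x.2.1 k.2.1, btil b' γ' s x.2.1 k.2.1) +
            dot q (btil b γ s x.2.2 k.2.2, btil b' γ' s x.2.2 k.2.2) =
          (p.1 * btil b γ s x.2.1 k.2.1 + q.1 * btil b γ s x.2.2 k.2.2) +
          (p.2 * btil b' γ' s x.2.1 k.2.1 + q.2 * btil b' γ' s x.2.2 k.2.2) := by
        simp only [dot]; ring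
      rw [g3, g1, g2]
      have g4 : ∀ g : ℕ → ZMod 3, ∑ j : Fin s, (if j.1 < s then g j else 0) =
          ∑ j : Fin s, g j := by
        intro g
        exact Finset.sum_congr rfl fun j _ => if_pos j.2
      rw [Finset.sum_congr rfl fun (j : Fin s) _ => if_pos j.2,
        Finset.sum_congr rfl fun (j : Fin s) _ => if_pos j.2]
      have g5 : ∑ j : Fin s, (dot (p.1 • γ j + p.2 • γ' j) (k.2.1 j) +
            dot (q.1 • γ j + q.2 • γ' j) (k.2.2 j)) =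
          ∑ j : Fin s, (dot (p.1 • γ j) (k.2.1 j) + dot (q.1 • γ j) (k.2.2 j)) +
          ∑ j : Fin s, (dot (p.2 • γ' j) (k.2.1 j) + dot (q.2 • γ' j) (k.2.2 j)) := by
        rw [← Finset.sum_add_distrib]
        refine Finset.sum_congr rfl fun j _ => ?_
        rw [dot_add_left, dot_add_left]; ring
      rw [g5]
      have g6 : (p.1 • b + p.2 • b') x.2.1 = (p.1 • b) x.2.1 + (p.2 • b') x.2.1 := rfl
      have g7 : (q.1 • b + q.2 • b') x.2.2 = (q.1 • b) x.2.2 + (q.2 • b') x.2.2 := rfl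
      rw [g6, g7]; ring
    rw [e3, psi_add, pw]
    ring
  rw [h1, fact3]
  have e3 : ∀ u : (ZMod 3 × ZMod 3) × (ZMod 3 × ZMod 3), (∑ x : L × V × V,
      9 ^ s / 9 * psi (-(J2 u.1 u.2)) * (wt f m x.2.1 x.2.2 * psi (ω x.1 x.2.1 x.2.2) *
        psi ((u.1.1 • b + u.1.2 • b') x.2.1 + (u.2.1 • b + u.2.2 • b') x.2.2))) =
      9 ^ s / 9 * psi (-(J2 u.1 u.2)) *
        (Cv * H (u.1.1 • b + u.1.2 • b') (u.2.1 • b + u.2.2 • b')) := by
    intro u
    rw [← Finset.mul_sum, core_sum]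
  have e4 : ∀ u : (ZMod 3 × ZMod 3) × (ZMod 3 × ZMod 3), (∑ k : KT s,
      (∏ j : Fin s, cw (M j) (k.2.1 j) (k.2.2 j)) *
        (psi (∑ j, k.1 j * J2 (k.2.1 j) (k.2.2 j)) *
          psi (∑ j : Fin s, (dot (u.1.1 • γ j + u.1.2 • γ' j) (k.2.1 j) +
            dot (u.2.1 • γ j + u.2.2 • γ' j) (k.2.2 j))))) =
      ∏ j ∈ range s, 9 * hC (M j) (u.1.1 • γ j + u.1.2 • γ' j) (u.2.1 • γ j + u.2.2 • γ' j) := by
    intro u
    rw [← plane_full (s := s) M (fun j => u.1.1 • γ j + u.1.2 • γ' j)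
      (fun j => u.2.1 • γ j + u.2.2 • γ' j), Fintype.sum_prod_type]
    refine Finset.sum_congr rfl fun a _ => ?_
    rw [Fintype.sum_prod_type]
  simp_rw [e3, e4]
  rw [NT, ← Fintype.sum_prod_type' (fun p q : ZMod 3 × ZMod 3 =>
    psi (-(J2 p q)) * H (p.1 • b + p.2 • b') (q.1 • b + q.2 • b') *
      ∏ j ∈ range s, hC (M j) (p.1 • γ j + p.2 • γ' j) (q.1 • γ j + q.2 • γ' j))]
  simp_rw [Finset.mul_sum]
  refine Finset.sum_congr rfl fun u _ => ?_
  rw [Finset.prod_mul_distrib, Finset.prod_const, Finset.card_range]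
  have e5 : (81 : ℂ) ^ s = 9 ^ s * 9 ^ s := by rw [← mul_pow]; norm_num
  rw [e5]; ring

theorem wt_comm (f : J → V →+ ZMod 3) (m : J → ℕ) (v v' : V) : wt f m v v' = wt f m v' v := by
  unfold wt
  exact Finset.prod_congr rfl fun j _ => if_congr and_comm rfl rfl

theorem pw_comm (M : ℕ → ℕ) (c d : Fin s → ZMod 3 × ZMod 3) : pw M c d = pw M d c := by
  unfold pw
  exact Finset.prod_congr rfl fun j _ => cw_comm _ _ _

/-- the part `e = 2` equals the part `e = 1` -/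
theorem TOT_two (hL : ∀ a a' x y, ω (a + a') x y = ω a x y + ω a' x y)
    (halt : ∀ a x y, ω a x y = - ω a y x) (f : J → V →+ ZMod 3) (m : J → ℕ) (M : ℕ → ℕ) :
    TOT ω β βC b b' γ γ' f m M s 2 = TOT ω β βC b b' γ γ' f m M s 1 := by
  have hneg : ∀ a x y, ω (-a) x y = - ω a x y := by
    intro a x y
    have h0 : ω 0 x y = 0 := by
      have := hL 0 0 x y
      rw [add_zero] at this
      simpa using this
    have := hL a (-a) x y
    rw [add_neg_cancel, h0] at this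
    exact (neg_eq_of_add_eq_zero_right this.symm).symm
  let E1 : (L × V × V) ≃ (L × V × V) :=
    { toFun := fun x => (-x.1, x.2.2, x.2.1)
      invFun := fun x => (-x.1, x.2.2, x.2.1)
      left_inv := fun x => by simp
      right_inv := fun x => by simp }
  let E2 : KT s ≃ KT s :=
    { toFun := fun k => (-k.1, k.2.2, k.2.1)
      invFun := fun k => (-k.1, k.2.2, k.2.1)
      left_inv := fun x => by simp
      right_inv := fun x => by simp }
  rw [TOT, TOT, ← Equiv.sum_comp E1]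
  refine Finset.sum_congr rfl fun x _ => ?_
  rw [← Equiv.sum_comp E2]
  refine Finset.sum_congr rfl fun k _ => ?_
  have a1 : (E1 x).1 = -x.1 := rfl
  have a2 : (E1 x).2.1 = x.2.2 := rfl
  have a3 : (E1 x).2.2 = x.2.1 := rfl
  have a4 : (E2 k).1 = -k.1 := rfl
  have a5 : (E2 k).2.1 = k.2.2 := rfl
  have a6 : (E2 k).2.2 = k.2.1 := rfl
  rw [a1, a2, a3, a4, a5, a6, EE_full _ _ (by decide), EE_full _ _ (by decide), wt_comm,
    pw_comm, hneg, halt x.1 x.2.2 x.2.1, neg_neg]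
  have e1 : ∑ j, (-k.1) j * J2 (k.2.2 j) (k.2.1 j) = ∑ j, k.1 j * J2 (k.2.1 j) (k.2.2 j) := by
    refine Finset.sum_congr rfl fun j _ => ?_
    rw [J2_antisymm (k.2.2 j), Pi.neg_apply]; ring
  have e2 : 2 * J2 (btil b γ s x.2.2 k.2.2, btil b' γ' s x.2.2 k.2.2)
        (btil b γ s x.2.1 k.2.1, btil b' γ' s x.2.1 k.2.1) =
      1 * J2 (btil b γ s x.2.1 k.2.1, btil b' γ' s x.2.1 k.2.1)
        (btil b γ s x.2.2 k.2.2, btil b' γ' s x.2.2 k.2.2) := by
    rw [J2_antisymm (btil b γ s x.2.2 k.2.2, btil b' γ' s x.2.2 k.2.2)]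
    have : (2 : ZMod 3) = -1 := by decide
    rw [this]; ring
  rw [e1, e2]

end

end Pool.Agent.Lib.MP_cfac74_al.Ch
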