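import Pool.Agent.Lib.MP_cfac74_al.Ch.Psi

/-!
# MP_cfac74_al : the sums over the spaces `y`, `z` of the chain
-/

set_option autoImplicit false

namespace Pool.Agent.Lib.MP_cfac74_al.Ch

open Finset Pool.Agent.Lib.MP_cfac74_al.Dec

/-- the parameters `a_0, ..., a_{s-1}, a_s = e, 0, 0, ...` -/
def abar {s : ℕ} (a : Fin s → ZMod 3) (e : ZMod 3) (n : ℕ) : ZMod 3 :=
  if h : n < s then a ⟨n, h⟩ else if n = s then e else 0

theorem abar_add {s : ℕ} (a a' : Fin s → ZMod 3) (e e' : ZMod 3) (n : ℕ) :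
    abar (a + a') (e + e') n = abar a e n + abar a' e' n := by
  unfold abar
  split_ifs <;> simp

theorem abar_neg {s : ℕ} (a : Fin s → ZMod 3) (e : ZMod 3) (n : ℕ) :
    abar (-a) (-e) n = - abar a e n := by
  unfold abar
  split_ifs <;> simp

theorem abar_lt {s : ℕ} (a : Fin s → ZMod 3) (e : ZMod 3) (j : Fin s) : abar a e j = a j := by
  unfold abar
  rw [dif_pos j.2]

/-- `κ_l(y)` -/
def kap {s : ℕ} (a : Fin s → ZMod 3) (e : ZMod 3) (y : Fin s → ZMod 3) (l : Fin s) : ZMod 3 :=
  ∑ j : Fin s, abar a e (j.1 + l.1 + 1) * y j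

theorem kap_add {s : ℕ} (a : Fin s → ZMod 3) (e : ZMod 3) (y y' : Fin s → ZMod 3) (l : Fin s) :
    kap a e (y + y') l = kap a e y l + kap a e y' l := by
  simp only [kap, Pi.add_apply, mul_add, Finset.sum_add_distrib]

theorem kap_add_par {s : ℕ} (a a' : Fin s → ZMod 3) (e e' : ZMod 3) (y : Fin s → ZMod 3)
    (l : Fin s) : kap (a + a') (e + e') y l = kap a e y l + kap a' e' y l := by
  simp only [kap, abar_add, add_mul, Finset.sum_add_distrib]

/-- the kernel for top index `i` -/
theorem kap_zero_iff {s : ℕ} (a : Fin s → ZMod 3) (e : ZMod 3) (i : ℕ) (hi : i ≤ s)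
    (h1 : abar a e i ≠ 0) (h2 : ∀ n, i < n → abar a e n = 0) (y : Fin s → ZMod 3) :
    kap a e y = 0 ↔ ∀ j : Fin s, j.1 < i → y j = 0 := by
  constructor
  · intro h
    have key : ∀ n, ∀ j : Fin s, j.1 = n → j.1 < i → y j = 0 := by
      intro n
      induction n using Nat.strong_induction_on with
      | _ n ih =>
        intro j hjn hji
        have hl : i - 1 - j.1 < s := by omega
        have h3 : kap a e y ⟨i - 1 - j.1, hl⟩ = 0 := congrFun h _
        unfold kap at h3
        rw [Finset.sum_eq_single j] at h3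
        · have h4 : j.1 + (⟨i - 1 - j.1, hl⟩ : Fin s).1 + 1 = i := by
            change j.1 + (i - 1 - j.1) + 1 = i
            omega
          rw [h4] at h3
          exact (mul_eq_zero.1 h3).resolve_left h1
        · intro j' _ hne
          rcases Nat.lt_or_ge j'.1 j.1 with hlt | hge
          · rw [ih j'.1 (by omega) j' rfl (by omega), mul_zero]
          · have hgt : j.1 < j'.1 := by
              rcases Nat.lt_or_ge j.1 j'.1 with h5 | h5
              · exact h5
              · exact absurd (Fin.ext (by omega)) hne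
            rw [h2, zero_mul]
            change i < j'.1 + (i - 1 - j.1) + 1
            omega
        · intro h5; exact absurd (Finset.mem_univ _) h5
    exact fun j hj => key _ j rfl hj
  · intro h
    funext l
    unfold kap
    refine Finset.sum_eq_zero fun j _ => ?_
    rcases Nat.lt_or_ge j.1 i with hlt | hge
    · rw [h j hlt, mul_zero]
    · rw [h2 _ (by omega), zero_mul]

/-- the sum over `z, z'` -/
theorem sum_zz {s : ℕ} (k k' : Fin s → ZMod 3) :
    ∑ zz : (Fin s → ZMod 3) × (Fin s → ZMod 3), psi (∑ l, (k l * zz.2 l - k' l * zz.1 l)) =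
      if k = 0 ∧ k' = 0 then 9 ^ s else 0 := by
  have h1 : ∀ z z' : Fin s → ZMod 3, psi (∑ l, (k l * z' l - k' l * z l)) =
      psi (∑ l, (-k') l * z l) * psi (∑ l, k l * z' l) := by
    intro z z'
    rw [← psi_add]
    congr 1
    rw [← Finset.sum_add_distrib]
    refine Finset.sum_congr rfl fun l _ => ?_
    rw [Pi.neg_apply]; ring
  rw [Fintype.sum_prod_type]
  simp_rw [h1]
  rw [← Finset.sum_mul_sum, sum_lin, sum_lin]
  by_cases hk : k = 0 <;> by_cases hk' : k' = 0 <;> simp [hk, hk']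
  rw [← mul_pow]; norm_num

/-- the sum over one `y` supported on the indices `≥ i` -/
theorem sum_y {s : ℕ} (i : Fin s) (k : ZMod 3) :
    ∑ y : Fin s → ZMod 3, (if ∀ j : Fin s, j.1 < i.1 → y j = 0 then psi (k * y i) else 0) =
      3 ^ (s - 1 - i.1) * (if k = 0 then 3 else 0) := by
  classical
  set φ : ℕ → ZMod 3 → ℂ := fun j x => if j < i.1 then (if x = 0 then 1 else 0) else
    if j = i.1 then psi (k * x) else 1 with hφ
  have h1 : ∀ y : Fin s → ZMod 3, (if ∀ j : Fin s, j.1 < i.1 → y j = 0 then psi (k * y i)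
      else 0) = ∏ j : Fin s, φ j (y j) := by
    intro y
    by_cases h : ∀ j : Fin s, j.1 < i.1 → y j = 0
    · rw [if_pos h, Finset.prod_eq_single i]
      · simp [hφ]
      · intro j _ hne
        rcases Nat.lt_or_ge j.1 i.1 with hlt | hge
        · simp only [hφ, if_pos hlt, h j hlt]
          rfl
        · have h3 : j.1 ≠ i.1 := fun h4 => hne (Fin.ext h4)
          simp only [hφ]
          rw [if_neg (by omega), if_neg h3]
      · intro h5; exact absurd (Finset.mem_univ _) h5
    · rw [if_neg h]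
      push Not at h
      obtain ⟨j, hj, hy⟩ := h
      symm
      refine Finset.prod_eq_zero (Finset.mem_univ j) ?_
      simp only [hφ, if_pos hj, if_neg hy]
  simp_rw [h1]
  have h2 : ∑ y : Fin s → ZMod 3, ∏ j : Fin s, φ j (y j) = ∏ j : Fin s, ∑ x, φ j x := by
    rw [Finset.prod_univ_sum, Fintype.piFinset_univ]
  rw [h2, prod_split s i.1 i.2 (fun j => ∑ x, φ j x)]
  have h3 : ∏ j ∈ range i.1, ∑ x, φ j x = 1 := by
    refine Finset.prod_eq_one fun j hj => ?_
    rw [Finset.mem_range] at hj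
    simp only [hφ, if_pos hj]
    rw [Finset.sum_ite_eq' Finset.univ (0 : ZMod 3) (fun _ => (1 : ℂ)), if_pos (Finset.mem_univ _)]
  have h4 : ∑ x, φ i.1 x = if k = 0 then 3 else 0 := by
    rw [← sum_psi]
    refine Finset.sum_congr rfl fun x _ => ?_
    simp [hφ]
  have h5 : ∏ j ∈ Ico (i.1 + 1) s, ∑ x, φ j x = 3 ^ (s - 1 - i.1) := by
    have : ∀ j ∈ Ico (i.1 + 1) s, ∑ x, φ j x = 3 := by
      intro j hj
      rw [Finset.mem_Ico] at hj
      have e1 : ∀ x, φ j x = 1 := by
        intro x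
        simp only [hφ]
        rw [if_neg (by omega), if_neg (by omega)]
      simp [e1]
    rw [Finset.prod_congr rfl this, Finset.prod_const, Nat.card_Ico]
    congr 1
    omega
  rw [h3, h4, h5]; ring

/-- the sum over `y, y'` -/
noncomputable def EE {s : ℕ} (a : Fin s → ZMod 3) (e : ZMod 3) (g g' : Fin s → ZMod 3) : ℂ :=
  ∑ yy : (Fin s → ZMod 3) × (Fin s → ZMod 3),
    if kap a e yy.1 = 0 ∧ kap a e yy.2 = 0 then
      psi (∑ j, a j * (g j * yy.2 j - g' j * yy.1 j)) else 0

theorem EE_top {s : ℕ} (a : Fin s → ZMod 3) (g g' : Fin s → ZMod 3) (i : Fin s) (h1 : a i ≠ 0)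
    (h2 : ∀ j : Fin s, i < j → a j = 0) :
    EE a 0 g g' = 9 ^ (s - 1 - i.1) * ∑ u : ZMod 3, ∑ u' : ZMod 3, psi (u * g i + u' * g' i) := by
  have k1 : abar a 0 i.1 ≠ 0 := by rw [abar_lt]; exact h1
  have k2 : ∀ n, i.1 < n → abar a 0 n = 0 := by
    intro n hn
    unfold abar
    split_ifs with h3 h4
    · exact h2 ⟨n, h3⟩ hn
    · rfl
    · rfl
  have hk := kap_zero_iff a 0 i.1 i.2.le k1 k2
  have e1 : ∀ y y' : Fin s → ZMod 3, (if kap a 0 y = 0 ∧ kap a 0 y' = 0 then
      psi (∑ j, a j * (g j * y' j - g' j * y j)) else 0) =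
      (if ∀ j : Fin s, j.1 < i.1 → y j = 0 then psi (-(a i * g' i) * y i) else 0) *
      (if ∀ j : Fin s, j.1 < i.1 → y' j = 0 then psi (a i * g i * y' i) else 0) := by
    intro y y'
    by_cases hy : ∀ j : Fin s, j.1 < i.1 → y j = 0
    · by_cases hy' : ∀ j : Fin s, j.1 < i.1 → y' j = 0
      · rw [if_pos ⟨(hk y).2 hy, (hk y').2 hy'⟩, if_pos hy, if_pos hy', ← psi_add]
        congr 1
        rw [Finset.sum_eq_single i]
        · ring
        · intro j _ hne
          rcases Nat.lt_or_ge j.1 i.1 with hlt | hge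
          · rw [hy j hlt, hy' j hlt]; ring
          · have hgt : i < j := by
              rw [Fin.lt_def]
              rcases Nat.lt_or_ge i.1 j.1 with h5 | h5
              · exact h5
              · exact absurd (Fin.ext (by omega)) hne
            rw [h2 j hgt]; ring
        · intro h5; exact absurd (Finset.mem_univ _) h5
      · rw [if_neg (fun h => hy' ((hk y').1 h.2)), if_neg hy', mul_zero]
    · rw [if_neg (fun h => hy ((hk y).1 h.1)), if_neg hy, zero_mul]
  unfold EE
  rw [Fintype.sum_prod_type]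
  simp_rw [e1]
  rw [← Finset.sum_mul_sum, sum_y, sum_y]
  have e2 : ∑ u : ZMod 3, ∑ u' : ZMod 3, psi (u * g i + u' * g' i) =
      (if g i = 0 then 3 else 0) * (if g' i = 0 then 3 else 0) := by
    rw [← sum_psi, ← sum_psi, Finset.sum_mul_sum]
    refine Finset.sum_congr rfl fun u _ => Finset.sum_congr rfl fun u' _ => ?_
    rw [psi_add, mul_comm u, mul_comm u']
  rw [e2]
  have e3 : (-(a i * g' i) = 0) ↔ g' i = 0 := by
    rw [neg_eq_zero, mul_eq_zero]; simp [h1]
  have e4 : (a i * g i = 0) ↔ g i = 0 := by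
    rw [mul_eq_zero]; simp [h1]
  rw [if_congr e3 rfl rfl, if_congr e4 rfl rfl]
  have e5 : (9 : ℂ) ^ (s - 1 - i.1) = 3 ^ (s - 1 - i.1) * 3 ^ (s - 1 - i.1) := by
    rw [← mul_pow]; norm_num
  rw [e5]; ring

theorem EE_zero {s : ℕ} (g g' : Fin s → ZMod 3) : EE (0 : Fin s → ZMod 3) 0 g g' = 9 ^ s := by
  have h1 : ∀ y : Fin s → ZMod 3, kap (0 : Fin s → ZMod 3) 0 y = 0 := by
    intro y
    funext l
    unfold kap
    refine Finset.sum_eq_zero fun j _ => ?_
    have : abar (0 : Fin s → ZMod 3) 0 (j.1 + l.1 + 1) = 0 := by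
      unfold abar; split_ifs <;> rfl
    rw [this, zero_mul]
  unfold EE
  have h2 : ∀ yy : (Fin s → ZMod 3) × (Fin s → ZMod 3),
      (if kap (0 : Fin s → ZMod 3) 0 yy.1 = 0 ∧ kap (0 : Fin s → ZMod 3) 0 yy.2 = 0 then
      psi (∑ j, (0 : Fin s → ZMod 3) j * (g j * yy.2 j - g' j * yy.1 j)) else 0) = 1 := by
    intro yy
    rw [if_pos ⟨h1 _, h1 _⟩]
    have : ∑ j, (0 : Fin s → ZMod 3) j * (g j * yy.2 j - g' j * yy.1 j) = 0 :=
      Finset.sum_eq_zero fun j _ => by rw [Pi.zero_apply, zero_mul]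
    rw [this, psi_zero]
  rw [Finset.sum_congr rfl fun yy _ => h2 yy]
  simp
  rw [← mul_pow]; norm_num

theorem EE_full {s : ℕ} (a : Fin s → ZMod 3) (e : ZMod 3) (he : e ≠ 0) (g g' : Fin s → ZMod 3) :
    EE a e g g' = 1 := by
  have k1 : abar a e s ≠ 0 := by
    unfold abar; rw [dif_neg (lt_irrefl _), if_pos rfl]; exact he
  have k2 : ∀ n, s < n → abar a e n = 0 := by
    intro n hn
    unfold abar
    rw [dif_neg (by omega), if_neg (by omega)]
  have hk := kap_zero_iff a e s le_rfl k1 k2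
  have hk' : ∀ y : Fin s → ZMod 3, kap a e y = 0 ↔ y = 0 := by
    intro y
    rw [hk]
    exact ⟨fun h => funext fun j => h j j.2, fun h j _ => by rw [h]; rfl⟩
  unfold EE
  rw [Finset.sum_eq_single (0 : (Fin s → ZMod 3) × (Fin s → ZMod 3))]
  · rw [if_pos ⟨(hk' _).2 rfl, (hk' _).2 rfl⟩]
    have : ∑ j, a j * (g j * (0 : (Fin s → ZMod 3) × (Fin s → ZMod 3)).2 j -
        g' j * (0 : (Fin s → ZMod 3) × (Fin s → ZMod 3)).1 j) = 0 :=
      Finset.sum_eq_zero fun j _ => by simp
    rw [this, psi_zero]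
  · rintro ⟨y, y'⟩ _ hne
    rw [if_neg]
    rintro ⟨h1, h2⟩
    exact hne (Prod.ext ((hk' _).1 h1) ((hk' _).1 h2))
  · intro h5; exact absurd (Finset.mem_univ _) h5

/-- decomposition by the top index -/
theorem sum_top {s : ℕ} (Φ : (Fin s → ZMod 3) → ℂ) :
    ∑ a, Φ a = Φ 0 + ∑ i : Fin s, ∑ a : Fin s → ZMod 3,
      if a i ≠ 0 ∧ ∀ j : Fin s, i < j → a j = 0 then Φ a else 0 := by
  classical
  rw [Finset.sum_comm]
  have h1 : ∀ a : Fin s → ZMod 3, Φ a = (if a = 0 then Φ a else 0) +
      ∑ i : Fin s, if a i ≠ 0 ∧ ∀ j : Fin s, i < j → a j = 0 then Φ a else 0 := by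
    intro a
    by_cases ha : a = 0
    · rw [if_pos ha]
      have : ∑ i : Fin s, (if a i ≠ 0 ∧ ∀ j : Fin s, i < j → a j = 0 then Φ a else 0) = 0 :=
        Finset.sum_eq_zero fun i _ => by rw [if_neg]; rintro ⟨h, _⟩; exact h (by rw [ha]; rfl)
      rw [this, add_zero]
    · rw [if_neg ha, zero_add]
      have hne : (Finset.univ.filter (fun i : Fin s => a i ≠ 0)).Nonempty := by
        by_contra hcon
        rw [Finset.not_nonempty_iff_eq_empty] at hcon
        apply ha
        funext i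
        by_contra hi
        have : i ∈ Finset.univ.filter (fun i : Fin s => a i ≠ 0) :=
          Finset.mem_filter.2 ⟨Finset.mem_univ _, hi⟩
        rw [hcon] at this
        exact absurd this (Finset.notMem_empty _)
      obtain ⟨i, hi, hmax⟩ := Finset.exists_maximal hne
      rw [Finset.mem_filter] at hi
      have htop : ∀ j : Fin s, i < j → a j = 0 := by
        intro j hj
        by_contra hj2
        have := hmax (Finset.mem_filter.2 ⟨Finset.mem_univ _, hj2⟩) hj.le
        exact absurd (lt_of_lt_of_le hj this) (lt_irrefl _)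
      rw [Finset.sum_eq_single i]
      · rw [if_pos ⟨hi.2, htop⟩]
      · intro j _ hne2
        rw [if_neg]
        rintro ⟨h3, h4⟩
        rcases lt_trichotomy i j with h | h | h
        · exact h3 (htop j h)
        · exact hne2 h.symm
        · exact hi.2 (h4 i h)
      · intro h5; exact absurd (Finset.mem_univ _) h5
  conv_lhs => rw [Finset.sum_congr rfl fun a _ => h1 a]
  rw [Finset.sum_add_distrib, Finset.sum_ite_eq' Finset.univ (0 : Fin s → ZMod 3) Φ,
    if_pos (Finset.mem_univ _)]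

end Pool.Agent.Lib.MP_cfac74_al.Ch
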